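import Pool.Agent.H303R3.ET.Main

set_option autoImplicit false

/-!
# Arcs of the circle and interval integrals
-/

open Filter Topology MeasureTheory
open scoped ENNReal

namespace Pool.Agent.H303R3.ET

theorem chord {x : ℝ} (hx : |x| ≤ Real.pi) : 2 / Real.pi * |x| ≤ ‖Complex.exp (Complex.I * x) - 1‖ := by
  rw [Complex.norm_exp_I_mul_ofReal_sub_one, Real.norm_eq_abs, abs_mul]
  have h1 : |Real.sin (x / 2)| = Real.sin (|x| / 2) := by
    rcases le_total 0 x with h | h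
    · rw [abs_of_nonneg h] at hx ⊢
      apply abs_of_nonneg
      exact Real.sin_nonneg_of_nonneg_of_le_pi (by linarith) (by linarith)
    · rw [abs_of_nonpos h] at hx ⊢
      have e1 : x / 2 = -(-x / 2) := by ring
      rw [e1, Real.sin_neg, abs_neg]
      apply abs_of_nonneg
      exact Real.sin_nonneg_of_nonneg_of_le_pi (by linarith) (by linarith)
  rw [h1]
  have h2 := Real.mul_le_sin (x := |x| / 2) (by positivity) (by linarith)
  have e2 : |(2 : ℝ)| = 2 := abs_of_pos (by norm_num)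
  rw [e2]
  have e3 : 2 / Real.pi * (|x| / 2) = 2 / Real.pi * |x| / 2 := by ring
  rw [e3] at h2
  linarith

theorem circle_sub (θ φ : ℝ) :
    ‖circleMap 0 1 θ - circleMap 0 1 φ‖ = ‖Complex.exp (Complex.I * ((θ - φ : ℝ) : ℂ)) - 1‖ := by
  have h1 : circleMap 0 1 θ - circleMap 0 1 φ =
      circleMap 0 1 φ * (Complex.exp (Complex.I * ((θ - φ : ℝ) : ℂ)) - 1) := by
    rw [circleMap_zero, circleMap_zero]
    have : Complex.exp (θ * Complex.I) =
        Complex.exp (φ * Complex.I) * Complex.exp (Complex.I * ((θ - φ : ℝ) : ℂ)) := by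
      rw [← Complex.exp_add]
      congr 1
      push_cast
      ring
    rw [this]
    ring
  rw [h1, norm_mul, norm_circleMap_zero]
  simp

theorem arcint {α β : ℝ} (hab : α < β) : ∃ (ζ : ℂ) (δ : ℝ), ‖ζ‖ = 1 ∧ 0 < δ ∧
    ∀ φ : ℝ → ℝ, Continuous φ → (∀ θ, 0 ≤ φ θ) → Function.Periodic φ (2 * Real.pi) →
      ∫⁻ θ in Arc ζ δ, ENNReal.ofReal (φ θ) ∂mu ≤
        ENNReal.ofReal ((2 * Real.pi)⁻¹ * ∫ θ in α..β, φ θ) := by
  have hpi := Real.pi_pos
  obtain ⟨c, hc⟩ : ∃ c : ℝ, c = (α + β) / 2 := ⟨_, rfl⟩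
  obtain ⟨e, he⟩ : ∃ e : ℝ, e = min ((β - α) / 2) Real.pi := ⟨_, rfl⟩
  have he0 : 0 < e := by rw [he]; exact lt_min (by linarith) hpi
  have he1 : e ≤ (β - α) / 2 := by rw [he]; exact min_le_left _ _
  refine ⟨circleMap 0 1 c, 2 / Real.pi * e, by rw [norm_circleMap_zero]; simp, by positivity, ?_⟩
  intro φ hφ hφ0 hφp
  obtain ⟨S, hS⟩ : ∃ S : Set ℝ, S = Arc (circleMap 0 1 c) (2 / Real.pi * e) := ⟨_, rfl⟩
  have hSm : MeasurableSet S := by rw [hS]; exact arc_meas _ _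
  rw [← hS]
  have hSp : ∀ θ, θ + 2 * Real.pi ∈ S ↔ θ ∈ S := by
    intro θ
    rw [hS]
    show ‖circleMap 0 1 (θ + 2 * Real.pi) - _‖ < _ ↔ ‖circleMap 0 1 θ - _‖ < _
    rw [periodic_circleMap]
  have hGp : Function.Periodic (S.indicator φ) (2 * Real.pi) := by
    intro θ
    by_cases h : θ ∈ S
    · rw [Set.indicator_of_mem h, Set.indicator_of_mem ((hSp θ).2 h), hφp]
    · rw [Set.indicator_of_notMem h, Set.indicator_of_notMem (fun h' => h ((hSp θ).1 h'))]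
  have hint : ∀ a b : ℝ, IntegrableOn φ (Set.Ioc a b) := fun a b =>
    (hφ.integrableOn_Icc).mono_set Set.Ioc_subset_Icc_self
  -- compute the left side
  have h1 : ∫⁻ θ in S, ENNReal.ofReal (φ θ) ∂mu =
      ENNReal.ofReal ((2 * Real.pi)⁻¹ * ∫ θ in (0 : ℝ)..(2 * Real.pi), S.indicator φ θ) := by
    rw [← lintegral_indicator hSm]
    unfold mu
    rw [lintegral_smul_measure, smul_eq_mul, ENNReal.ofReal_mul (p := (2 * Real.pi)⁻¹) (by positivity),
      ENNReal.ofReal_inv_of_pos (x := 2 * Real.pi) (by positivity)]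
    congr 1
    rw [intervalIntegral.integral_of_le (by positivity), ofReal_integral_eq_lintegral_ofReal]
    · apply lintegral_congr
      intro θ
      by_cases h : θ ∈ S
      · rw [Set.indicator_of_mem h, Set.indicator_of_mem h]
      · rw [Set.indicator_of_notMem h, Set.indicator_of_notMem h, ENNReal.ofReal_zero]
    · exact (hint 0 (2 * Real.pi)).indicator hSm
    · exact Eventually.of_forall fun θ => Set.indicator_nonneg (fun θ _ => hφ0 θ) θ
  rw [h1]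
  apply ENNReal.ofReal_le_ofReal
  apply mul_le_mul_of_nonneg_left _ (by positivity)
  have h2 := hGp.intervalIntegral_add_eq 0 (c - Real.pi)
  rw [zero_add] at h2
  rw [h2, intervalIntegral.integral_of_le (by linarith), intervalIntegral.integral_of_le hab.le,
    setIntegral_indicator hSm]
  apply setIntegral_mono_set (hint α β)
  · exact Eventually.of_forall fun θ => hφ0 θ
  · apply HasSubset.Subset.eventuallyLE
    rintro θ ⟨⟨hθ1, hθ2⟩, hθ3⟩
    rw [hS] at hθ3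
    have h3 : ‖circleMap 0 1 θ - circleMap 0 1 c‖ < 2 / Real.pi * e := hθ3
    rw [circle_sub] at h3
    have h4 : |θ - c| ≤ Real.pi := by
      rw [abs_le]; constructor <;> linarith
    have h5 := (chord h4).trans_lt h3
    have h6 : |θ - c| < e := lt_of_mul_lt_mul_left h5 (by positivity)
    rw [abs_lt] at h6
    constructor <;> [rw [hc] at h6; rw [hc] at h6] <;> linarith

/-- The generating function. -/
noncomputable def GF (A : Set ℕ) (z : ℂ) : ℂ := ∑' n : ℕ, Set.indicator A (fun n => z ^ n) n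

theorem GF_eq (A : Set ℕ) (z : ℂ) : GF A z = ev (ind A) z := by
  classical
  unfold GF ev ind
  refine tsum_congr fun n => ?_
  rw [PowerSeries.coeff_mk]
  by_cases h : n ∈ A
  · rw [Set.indicator_of_mem h, if_pos h, one_mul]
  · rw [Set.indicator_of_notMem h, if_neg h, zero_mul]

/-- The main theorem. -/
theorem arcs {k : ℕ} (hk : 2 ≤ k) (K : ℕ) {α β : ℝ} (hab : α < β) : ∃ c : ℝ, 0 < c ∧ ∀ A : Set ℕ,
    (∃ n1, ∀ n, n1 ≤ n → 1 ≤ Rn A (Mo (k := k)) n) → (∀ n, Rn A (Mo (k := k)) n ≤ K) →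
    ∃ ρ₀ : ℝ, ρ₀ < 1 ∧ ∀ ρ : ℝ, ρ₀ < ρ → ρ < 1 →
      c ≤ (1 - ρ) * ∫ θ in α..β, ‖GF A (circleMap 0 ρ θ)‖ ^ (2 * k) := by
  rcases Nat.eq_zero_or_pos K with hK0 | hK1
  · refine ⟨1, one_pos, fun A hA hK => ?_⟩
    obtain ⟨n1, hn1⟩ := hA
    have h1 := hn1 n1 le_rfl
    have h2 := hK n1
    omega
  obtain ⟨ζ, δ, hζ, hδ, harc⟩ := arcint hab
  obtain ⟨c, hc, hmain⟩ := main_arc hk hK1 hζ hδ
  refine ⟨c / 2, by positivity, fun A hA hK => ?_⟩
  have hev := hmain A hA hK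
  rw [eventually_iff, mem_nhdsLT_iff_exists_Ioo_subset' (show (0 : ℝ) < 1 by norm_num)] at hev
  obtain ⟨ρ₀, hρ₀, hsub⟩ := hev
  refine ⟨max ρ₀ 0, max_lt hρ₀ one_pos, fun ρ hρ hρ1 => ?_⟩
  have h0 : 0 < ρ := (le_max_right _ _).trans_lt hρ
  have hρ' : ρ₀ < ρ := (le_max_left _ _).trans_lt hρ
  have h1 : ENNReal.ofReal (c * (1 - ρ ^ 2)⁻¹) ≤
      ∫⁻ θ in Arc ζ δ, ‖ev (ind A) (circleMap 0 ρ θ)‖ₑ ^ (2 * k : ℝ) ∂mu := hsub ⟨hρ', hρ1⟩
  have hcont : Continuous fun θ : ℝ => ‖GF A (circleMap 0 ρ θ)‖ ^ (2 * k) := by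
    simp_rw [GF_eq]
    exact (ev_cont (conv_ind A) h0.le hρ1).norm.pow _
  have h2 := harc (fun θ => ‖GF A (circleMap 0 ρ θ)‖ ^ (2 * k)) hcont (fun θ => by positivity)
    (fun θ => by simp only [periodic_circleMap 0 ρ θ])
  have h3 : ∀ θ : ℝ, ‖ev (ind A) (circleMap 0 ρ θ)‖ₑ ^ (2 * k : ℝ) =
      ENNReal.ofReal (‖GF A (circleMap 0 ρ θ)‖ ^ (2 * k)) := by
    intro θ
    rw [GF_eq, ← ofReal_norm, ENNReal.ofReal_rpow_of_nonneg (norm_nonneg _) (by positivity)]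
    congr 1
    rw [← Real.rpow_natCast]
    congr 1
    push_cast
    ring
  simp_rw [h3] at h1
  have h4 := h1.trans h2
  have h5 : 0 ≤ ∫ θ in α..β, ‖GF A (circleMap 0 ρ θ)‖ ^ (2 * k) :=
    intervalIntegral.integral_nonneg hab.le fun θ _ => by positivity
  rw [ENNReal.ofReal_le_ofReal_iff (by positivity)] at h4
  have hq : 0 < 1 - ρ ^ 2 := by nlinarith
  obtain ⟨J, hJ⟩ : ∃ J : ℝ, J = ∫ θ in α..β, ‖GF A (circleMap 0 ρ θ)‖ ^ (2 * k) := ⟨_, rfl⟩
  rw [← hJ] at h4 h5 ⊢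
  have h6 : (2 * Real.pi)⁻¹ ≤ 1 := by
    rw [inv_le_one_iff₀]; right
    linarith [Real.pi_gt_three]
  have h7 : c * (1 - ρ ^ 2)⁻¹ ≤ J := h4.trans (by
    calc (2 * Real.pi)⁻¹ * J ≤ 1 * J := by gcongr
      _ = J := one_mul _)
  have h8 : c ≤ J * (1 - ρ ^ 2) := by
    rw [← div_eq_mul_inv, div_le_iff₀ hq] at h7
    exact h7
  have h9 : J * (1 - ρ ^ 2) ≤ J * (2 * (1 - ρ)) := by
    apply mul_le_mul_of_nonneg_left _ h5
    nlinarith
  linarith

end Pool.Agent.H303R3.ET
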