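import Pool.Agent.H303R3.ET.Word

set_option autoImplicit false

/-!
# Weighted densities
-/

open scoped ENNReal

namespace Pool.Agent.H303R3.ET

/-- The weight of a set. -/
noncomputable def w (q : ℝ≥0∞) (B : Set ℕ) : ℝ≥0∞ := ∑' n, B.indicator (fun n => q ^ n) n

theorem w_shift (q : ℝ≥0∞) (B : Set ℕ) (a : ℕ) : w q {x | x + a ∈ B} * q ^ a ≤ w q B := by
  classical
  unfold w
  rw [← ENNReal.tsum_mul_right]
  have h1 : ∀ x : ℕ, Set.indicator {x | x + a ∈ B} (fun n => q ^ n) x * q ^ a =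
      (fun n => B.indicator (fun n => q ^ n) n) (x + a) := by
    intro x
    by_cases h : x + a ∈ B
    · rw [Set.indicator_of_mem (by exact h)]
      simp only
      rw [Set.indicator_of_mem h, pow_add]
    · rw [Set.indicator_of_notMem (by exact h)]
      simp only
      rw [Set.indicator_of_notMem h, zero_mul]
  simp_rw [h1]
  exact ENNReal.tsum_comp_le_tsum_of_injective (add_left_injective a) _

theorem w_shift' {q : ℝ≥0∞} (B : Set ℕ) {a b : ℕ} (hq : q ≤ 1) (hab : a ≤ b)
    (h : 1 / 2 ≤ q ^ b) : w q {x | x + a ∈ B} ≤ 2 * w q B := by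
  have h1 := w_shift q B a
  have h2 : 1 / 2 ≤ q ^ a := h.trans (pow_le_pow_right_of_le_one' hq hab)
  calc w q {x | x + a ∈ B} = w q {x | x + a ∈ B} * (2 * (1 / 2)) := by
        rw [one_div, ENNReal.mul_inv_cancel (by norm_num) (by norm_num), mul_one]
    _ = 2 * (w q {x | x + a ∈ B} * (1 / 2)) := by ring
    _ ≤ 2 * (w q {x | x + a ∈ B} * q ^ a) := by gcongr
    _ ≤ 2 * w q B := by gcongr

theorem w_le_sum {ι : Type*} (q : ℝ≥0∞) (s : Finset ι) (B : Set ℕ) (Bi : ι → Set ℕ)
    (h : ∀ x ∈ B, ∃ i ∈ s, x ∈ Bi i) : w q B ≤ ∑ i ∈ s, w q (Bi i) := by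
  classical
  unfold w
  rw [← Summable.tsum_finsetSum (fun i _ => ENNReal.summable)]
  apply ENNReal.tsum_le_tsum
  intro x
  by_cases hx : x ∈ B
  · obtain ⟨i, hi, hxi⟩ := h x hx
    rw [Set.indicator_of_mem hx]
    calc q ^ x = (Bi i).indicator (fun n => q ^ n) x := by rw [Set.indicator_of_mem hxi]
      _ ≤ _ := Finset.single_le_sum (f := fun i => (Bi i).indicator (fun n => q ^ n) x)
          (fun _ _ => zero_le) hi
  · rw [Set.indicator_of_notMem hx]
    exact zero_le

/-- The set of bad starting points. -/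
def Bad (Good : ℕ → Set ℕ) (D n₀ L V M : ℕ) : Set ℕ :=
  {x | ¬ ∃ S : Finset ℕ, S ⊆ Finset.range M ∧ V < S.card ∧ ∀ i ∈ S, Nice Good D n₀ L (x + i)}

theorem w_bad {q : ℝ≥0∞} (hq : q ≤ 1) (Good : ℕ → Set ℕ) {D n₀ L V M : ℕ} (hM : M = 2 * V + 2)
    (hqL : 1 / 2 ≤ q ^ (M + L)) :
    w q (Bad Good D n₀ L V M) ≤ 4 * ∑ n ∈ Finset.Ico n₀ L, w q (Good (n / D))ᶜ := by
  classical
  -- first step
  have h1 : ((V : ℝ≥0∞) + 1) * w q (Bad Good D n₀ L V M) ≤
      ∑ i ∈ Finset.range M, w q {x | ¬ Nice Good D n₀ L (x + i)} := by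
    unfold w
    rw [← Summable.tsum_finsetSum (fun i _ => ENNReal.summable), ← ENNReal.tsum_mul_left]
    apply ENNReal.tsum_le_tsum
    intro x
    by_cases hx : x ∈ Bad Good D n₀ L V M
    · rw [Set.indicator_of_mem hx]
      have h2 : (Finset.range M).filter (fun i => Nice Good D n₀ L (x + i)) ⊆ Finset.range M :=
        Finset.filter_subset _ _
      have h3 : ((Finset.range M).filter (fun i => Nice Good D n₀ L (x + i))).card ≤ V := by
        by_contra h4
        push Not at h4
        exact hx ⟨_, h2, h4, fun i hi => (Finset.mem_filter.1 hi).2⟩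
      have h4 := Finset.card_filter_add_card_filter_not (s := Finset.range M)
        (p := fun i => Nice Good D n₀ L (x + i))
      rw [Finset.card_range] at h4
      have h5 : V + 1 ≤ ((Finset.range M).filter (fun i => ¬ Nice Good D n₀ L (x + i))).card := by
        omega
      calc ((V : ℝ≥0∞) + 1) * q ^ x
          ≤ (((Finset.range M).filter (fun i => ¬ Nice Good D n₀ L (x + i))).card : ℝ≥0∞) * q ^ x := by
            gcongr
            exact_mod_cast h5
        _ = ∑ i ∈ (Finset.range M).filter (fun i => ¬ Nice Good D n₀ L (x + i)), q ^ x := by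
            rw [Finset.sum_const, nsmul_eq_mul]
        _ = ∑ i ∈ Finset.range M, if ¬ Nice Good D n₀ L (x + i) then q ^ x else 0 := by
            rw [Finset.sum_filter]
        _ = _ := by
            refine Finset.sum_congr rfl fun i _ => ?_
            by_cases h6 : ¬ Nice Good D n₀ L (x + i)
            · rw [if_pos h6, Set.indicator_of_mem (by exact h6)]
            · rw [if_neg h6, Set.indicator_of_notMem (by exact h6)]
    · rw [Set.indicator_of_notMem hx, mul_zero]
      exact zero_le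
  have h2 : ∀ i ∈ Finset.range M, w q {x | ¬ Nice Good D n₀ L (x + i)} ≤
      2 * ∑ n ∈ Finset.Ico n₀ L, w q (Good (n / D))ᶜ := by
    intro i hi
    rw [Finset.mem_range] at hi
    have h3 : w q {x | ¬ Nice Good D n₀ L (x + i)} ≤
        ∑ n ∈ Finset.Ico n₀ L, w q {x | x + (i + n) ∈ (Good (n / D))ᶜ} := by
      apply w_le_sum
      intro x hx
      have hx' : ¬ Nice Good D n₀ L (x + i) := hx
      unfold Nice at hx'
      push Not at hx'
      obtain ⟨n, hn1, hn2, hn3⟩ := hx'
      refine ⟨n, Finset.mem_Ico.2 ⟨hn1, hn2⟩, ?_⟩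
      show x + (i + n) ∉ Good (n / D)
      rw [← add_assoc]
      exact hn3
    refine h3.trans ?_
    rw [Finset.mul_sum]
    apply Finset.sum_le_sum
    intro n hn
    rw [Finset.mem_Ico] at hn
    exact w_shift' _ hq (b := M + L) (by omega) hqL
  have h3 : ((V : ℝ≥0∞) + 1) * w q (Bad Good D n₀ L V M) ≤
      ((V : ℝ≥0∞) + 1) * (4 * ∑ n ∈ Finset.Ico n₀ L, w q (Good (n / D))ᶜ) := by
    refine h1.trans ((Finset.sum_le_sum h2).trans (le_of_eq ?_))
    rw [Finset.sum_const, Finset.card_range, nsmul_eq_mul, hM]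
    push_cast
    ring
  have hV0 : ((V : ℝ≥0∞) + 1) ≠ 0 := by simp
  have hV1 : ((V : ℝ≥0∞) + 1) ≠ ⊤ := by
    simp
  exact (ENNReal.mul_le_mul_iff_right hV0 hV1).1 h3

/-- Markov's inequality. -/
theorem w_markov (q : ℝ≥0∞) (a : ℕ → ℂ) :
    w q {y | 1 / 2 ≤ ‖a y‖} ≤ 4 * ∑' y, ‖a y‖ₑ ^ (2 : ℝ) * q ^ y := by
  unfold w
  rw [← ENNReal.tsum_mul_left]
  apply ENNReal.tsum_le_tsum
  intro y
  by_cases hy : 1 / 2 ≤ ‖a y‖
  · rw [Set.indicator_of_mem (by exact hy)]
    have h1 : (1 : ℝ≥0∞) ≤ 4 * ‖a y‖ₑ ^ (2 : ℝ) := by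
      rw [← ofReal_norm, ENNReal.ofReal_rpow_of_nonneg (norm_nonneg _) (by norm_num)]
      have h2 : (4 : ℝ≥0∞) = ENNReal.ofReal 4 := by norm_num
      rw [h2, ← ENNReal.ofReal_mul (by norm_num), ← ENNReal.ofReal_one]
      apply ENNReal.ofReal_le_ofReal
      rw [Real.rpow_two]
      nlinarith
    calc q ^ y = 1 * q ^ y := (one_mul _).symm
      _ ≤ (4 * ‖a y‖ₑ ^ (2 : ℝ)) * q ^ y := by gcongr
      _ = _ := by ring
  · rw [Set.indicator_of_notMem (by exact hy)]
    exact zero_le

/-- A sequence vanishing off a bad set. -/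
theorem sum_vanish {q : ℝ≥0∞} (hq : q ≤ 1) {a : ℕ → ℝ≥0∞} {B : ℝ≥0∞} {Y : ℕ} {Bd : Set ℕ}
    (ha : ∀ y, a y ≤ B) (h0 : ∀ x, x ∉ Bd → a (Y + x) = 0) :
    ∑' y, a y * q ^ y ≤ B * (Y + w q Bd) := by
  classical
  have h1 : ∀ y, a y * q ^ y ≤ B * ((if y < Y then 1 else 0) +
      (fun n => if Y ≤ n then Bd.indicator (fun n => q ^ n) (n - Y) else 0) y) := by
    intro y
    by_cases hy : y < Y
    · simp only [hy, if_true]
      have h2 : q ^ y ≤ 1 := pow_le_one' hq y
      calc a y * q ^ y ≤ B * 1 := mul_le_mul' (ha y) h2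
        _ ≤ B * (1 + _) := by gcongr; exact le_self_add
    · simp only [hy, if_false]
      push Not at hy
      simp only [hy, if_true, zero_add]
      by_cases hb : y - Y ∈ Bd
      · rw [Set.indicator_of_mem hb]
        apply mul_le_mul' (ha y)
        exact pow_le_pow_right_of_le_one' hq (Nat.sub_le _ _)
      · have := h0 _ hb
        have e1 : Y + (y - Y) = y := by omega
        rw [e1] at this
        rw [this, zero_mul]
        exact zero_le
  refine (ENNReal.tsum_le_tsum h1).trans ?_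
  rw [ENNReal.tsum_mul_left, ENNReal.tsum_add]
  apply mul_le_mul' le_rfl
  apply add_le_add
  · rw [tsum_eq_sum (s := Finset.range Y)]
    · rw [← Finset.sum_filter, Finset.sum_const, nsmul_eq_mul, mul_one]
      have : (Finset.filter (fun i => i < Y) (Finset.range Y)).card ≤ Y := by
        refine (Finset.card_filter_le _ _).trans ?_
        rw [Finset.card_range]
      exact_mod_cast this
    · intro b hb
      rw [Finset.mem_range] at hb
      rw [if_neg hb]
  · unfold w
    have h2 : ∑' n, Bd.indicator (fun n => q ^ n) n =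
        ∑' n, (fun n => if Y ≤ n then Bd.indicator (fun n => q ^ n) (n - Y) else 0) (n + Y) := by
      refine tsum_congr fun n => ?_
      simp
    rw [h2]
    have hinj : Function.Injective (fun n : ℕ => n + Y) := add_left_injective Y
    rw [hinj.tsum_eq (f := fun n => if Y ≤ n then Bd.indicator (fun n => q ^ n) (n - Y) else 0)]
    intro n hn
    rw [Function.mem_support] at hn
    refine ⟨n - Y, ?_⟩
    have : Y ≤ n := by
      by_contra h
      exact hn (if_neg h)
    simp only
    omega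

end Pool.Agent.H303R3.ET
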