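import Pool.Agent.H303R3.KI

set_option autoImplicit false

/-!
# Series attached to a set with bounded representation function
-/

open Filter Topology MeasureTheory
open scoped ENNReal

namespace Pool.Agent.H303R3.ET

variable {k : ℕ}

/-- nondecreasing tuples -/
def Mo : (Fin k → ℕ) → Prop := fun a => Monotone a

theorem hstab (a : Fin k → ℕ) : ((open Classical in Finset.card
    {τ : Equiv.Perm (Fin k) | Mo (a ∘ τ)} : ℕ) : ℤ) = ∑ σ ∈ stab a, (fun _ => (1 : ℤ)) σ := by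
  have h1 := card_mono a
  rw [Finset.sum_const, nsmul_eq_mul, mul_one, ← h1]
  have h2 : ∀ (d1 d2 : DecidablePred fun τ : Equiv.Perm (Fin k) => Monotone (a ∘ τ)),
      (@Finset.filter _ (fun τ : Equiv.Perm (Fin k) => Monotone (a ∘ τ)) d1 Finset.univ) =
        @Finset.filter _ (fun τ : Equiv.Perm (Fin k) => Monotone (a ∘ τ)) d2 Finset.univ := by
    intro d1 d2
    rw [Subsingleton.elim d1 d2]
  exact congrArg (fun s : Finset (Equiv.Perm (Fin k)) => ((s.card : ℕ) : ℤ)) (h2 _ _)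

theorem tup_le (A : Set ℕ) (n : ℕ) : (tup A k n).card ≤ k.factorial * Rn A (Mo (k := k)) n := by
  classical
  have h1 := burnside A n (Mo (k := k)) (fun _ => 1) hstab
  have h2 : ((Finset.card {a ∈ tup A k n | a ∘ (1 : Equiv.Perm (Fin k)) = a} : ℕ) : ℤ) ≤
      ∑ σ : Equiv.Perm (Fin k), (1 : ℤ) * ((Finset.card {a ∈ tup A k n | a ∘ σ = a} : ℕ) : ℤ) := by
    refine le_trans (le_of_eq (one_mul _).symm) (Finset.single_le_sum
      (f := fun σ : Equiv.Perm (Fin k) => (1 : ℤ) * ((Finset.card {a ∈ tup A k n | a ∘ σ = a} : ℕ) : ℤ))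
      (fun σ _ => by positivity) (Finset.mem_univ 1))
  have h3 : ({a ∈ tup A k n | a ∘ (1 : Equiv.Perm (Fin k)) = a} : Finset _) = tup A k n := by
    rw [Finset.filter_eq_self]
    intro a _
    rfl
  rw [h3] at h2
  have h4 : ((tup A k n).card : ℤ) ≤ (k.factorial : ℤ) * Rn A (Mo (k := k)) n := by
    refine h2.trans (le_of_eq ?_)
    rw [← h1]
    unfold Rn
    rfl
  exact_mod_cast h4

theorem coeff_Fs_norm (A : Set ℕ) {K : ℕ} (hK : ∀ n, Rn A (Mo (k := k)) n ≤ K)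
    (σ : Equiv.Perm (Fin k)) (n : ℕ) : ‖PowerSeries.coeff n (Fs A σ)‖ ≤ k.factorial * K := by
  classical
  unfold Fs
  rw [PowerSeries.coeff_mk, Complex.norm_natCast]
  have h1 : Finset.card {a ∈ tup A k n | a ∘ σ = a} ≤ (tup A k n).card := Finset.card_filter_le _ _
  have h2 := tup_le (k := k) A n
  have h3 : k.factorial * Rn A (Mo (k := k)) n ≤ k.factorial * K := Nat.mul_le_mul_left _ (hK n)
  have h4 := h1.trans (h2.trans h3)
  exact_mod_cast h4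

/-- values on the real axis -/
theorem ev_Pf_le (A : Set ℕ) {m : ℕ} (hm : 0 < m) {q : ℝ} (h0 : 0 ≤ q) (h1 : q < 1) :
    ‖ev (Pf A m) (q : ℂ)‖ ≤ fr A q := by
  have hz : ‖(q : ℂ)‖ < 1 := by rwa [Complex.norm_real, Real.norm_of_nonneg h0]
  refine le_trans ?_ (Pf_l2 A hm h0 h1)
  unfold ev
  refine (norm_tsum_le_tsum_norm ((conv_Pf A m).summable_norm hz)).trans (le_of_eq ?_)
  refine tsum_congr fun n => ?_
  rw [norm_mul, norm_pow, Complex.norm_real, Real.norm_of_nonneg h0, coeff_Pf]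
  split_ifs <;> simp

theorem tsum_Fs (A : Set ℕ) (σ : Equiv.Perm (Fin k)) (hσ : σ ≠ 1) {q : ℝ} (h0 : 0 ≤ q) (h1 : q < 1)
    (hf : 1 ≤ fr A q) :
    ∑' n, ‖PowerSeries.coeff n (Fs A σ)‖ * q ^ n ≤ fr A q ^ (k - 1) := by
  classical
  have hz : ‖(q : ℂ)‖ < 1 := by rwa [Complex.norm_real, Real.norm_of_nonneg h0]
  obtain ⟨ι, _, e, he, hF, hcard⟩ := Fs_eq A σ
  have h2 : ((∑' n, ‖PowerSeries.coeff n (Fs A σ)‖ * q ^ n : ℝ) : ℂ) = ev (Fs A σ) (q : ℂ) := by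
    unfold ev
    rw [Complex.ofReal_tsum]
    refine tsum_congr fun n => ?_
    unfold Fs
    rw [PowerSeries.coeff_mk]
    simp
  have h3 : (∑' n, ‖PowerSeries.coeff n (Fs A σ)‖ * q ^ n : ℝ) = ‖ev (Fs A σ) (q : ℂ)‖ := by
    rw [← h2, Complex.norm_real, Real.norm_of_nonneg]
    exact tsum_nonneg fun n => by positivity
  rw [h3, hF, ev_prod (fun i _ => conv_Pf A (e i)) hz, norm_prod]
  calc ∏ i, ‖ev (Pf A (e i)) (q : ℂ)‖ ≤ ∏ _i : ι, fr A q :=
        Finset.prod_le_prod (fun i _ => norm_nonneg _) fun i _ => ev_Pf_le A (he i) h0 h1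
    _ = fr A q ^ Fintype.card ι := by rw [Finset.prod_const, Finset.card_univ]
    _ ≤ fr A q ^ (k - 1) := by
        have := hcard hσ
        exact pow_le_pow_right₀ hf (by omega)

theorem lint_Fs (A : Set ℕ) {K : ℕ} (hK : ∀ n, Rn A (Mo (k := k)) n ≤ K) (σ : Equiv.Perm (Fin k))
    (hσ : σ ≠ 1) {r : ℝ} (h0 : 0 ≤ r) (h1 : r < 1) (hf : 1 ≤ fr A (r ^ 2)) :
    ∫⁻ θ, ‖ev (Fs A σ) (circleMap 0 r θ)‖ₑ ^ (2 : ℝ) ∂mu ≤
      ENNReal.ofReal (k.factorial * K * fr A (r ^ 2) ^ (k - 1)) := by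
  have hq0 : 0 ≤ r ^ 2 := by positivity
  have hq1 : r ^ 2 < 1 := by nlinarith
  rw [lint_parseval (conv_Fs A σ) h0 h1]
  apply ENNReal.ofReal_le_ofReal
  have hs : Summable fun n => ‖PowerSeries.coeff n (Fs A σ)‖ * (r ^ 2) ^ n := conv_Fs A σ _ hq0 hq1
  have h2 : ∀ n, ‖PowerSeries.coeff n (Fs A σ)‖ ^ 2 * (r ^ 2) ^ n ≤
      (k.factorial * K) * (‖PowerSeries.coeff n (Fs A σ)‖ * (r ^ 2) ^ n) := by
    intro n
    have h3 := coeff_Fs_norm A hK σ n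
    calc ‖PowerSeries.coeff n (Fs A σ)‖ ^ 2 * (r ^ 2) ^ n
        = ‖PowerSeries.coeff n (Fs A σ)‖ * (‖PowerSeries.coeff n (Fs A σ)‖ * (r ^ 2) ^ n) := by ring
      _ ≤ _ := by gcongr
  calc ∑' n, ‖PowerSeries.coeff n (Fs A σ)‖ ^ 2 * (r ^ 2) ^ n
      ≤ ∑' n, (k.factorial * K) * (‖PowerSeries.coeff n (Fs A σ)‖ * (r ^ 2) ^ n) :=
        Summable.tsum_le_tsum h2 (Summable.of_nonneg_of_le (fun n => by positivity) h2
          (hs.mul_left _)) (hs.mul_left _)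
    _ = (k.factorial * K) * ∑' n, ‖PowerSeries.coeff n (Fs A σ)‖ * (r ^ 2) ^ n := tsum_mul_left
    _ ≤ _ := by
        gcongr
        exact tsum_Fs A σ hσ hq0 hq1 hf

theorem fr_pow (A : Set ℕ) {q : ℝ} (h0 : 0 ≤ q) (h1 : q < 1) :
    ∑' n, ((tup A k n).card : ℝ) * q ^ n = fr A q ^ k := by
  have hz : ‖(q : ℂ)‖ < 1 := by rwa [Complex.norm_real, Real.norm_of_nonneg h0]
  have h2 := ev_Fs_one (k := k) A hz
  rw [ev_ind_real] at h2
  have h3 : ev (Fs A (1 : Equiv.Perm (Fin k))) (q : ℂ) = ((∑' n, ((tup A k n).card : ℝ) * q ^ n : ℝ) : ℂ) := by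
    unfold ev
    rw [Complex.ofReal_tsum]
    refine tsum_congr fun n => ?_
    rw [coeff_Fs_one]
    simp
  rw [h3] at h2
  exact_mod_cast h2

theorem fr_upper (A : Set ℕ) {K : ℕ} (hK : ∀ n, Rn A (Mo (k := k)) n ≤ K) {q : ℝ} (h0 : 0 ≤ q)
    (h1 : q < 1) : fr A q ^ k ≤ k.factorial * K * (1 - q)⁻¹ := by
  rw [← fr_pow (k := k) A h0 h1, ← tsum_geometric_of_lt_one h0 h1, ← tsum_mul_left]
  have h2 : ∀ n, ((tup A k n).card : ℝ) * q ^ n ≤ k.factorial * K * q ^ n := by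
    intro n
    have h3 : (tup A k n).card ≤ k.factorial * K :=
      (tup_le (k := k) A n).trans (Nat.mul_le_mul_left _ (hK n))
    have h4 : ((tup A k n).card : ℝ) ≤ k.factorial * K := by exact_mod_cast h3
    gcongr
  have hs : Summable fun n : ℕ => (k.factorial * K : ℝ) * q ^ n :=
    (summable_geometric_of_lt_one h0 h1).mul_left _
  exact Summable.tsum_le_tsum h2 (Summable.of_nonneg_of_le (fun n => by positivity) h2 hs) hs

theorem fr_lower (A : Set ℕ) {n1 : ℕ} (h : ∀ n, n1 ≤ n → 1 ≤ Rn A (Mo (k := k)) n) {q : ℝ}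
    (h0 : 0 ≤ q) (h1 : q < 1) : q ^ n1 * (1 - q)⁻¹ ≤ fr A q ^ k :=
  (Rr_ge A _ h h0 h1).trans (Rr_le A _ h0 h1)

/-- the representation series in terms of `A` -/
theorem point_R (A : Set ℕ) {z : ℂ} (hz : ‖z‖ < 1) :
    ‖ev (Rps A (Mo (k := k))) z‖ₑ ^ (2 : ℝ) ≤ ‖ev (ind A) z‖ₑ ^ (2 * k : ℝ) +
      ∑ σ ∈ Finset.univ.erase (1 : Equiv.Perm (Fin k)), ‖ev (Fs A σ) z‖ₑ ^ (2 : ℝ) := by
  classical
  have h3 := congrArg (fun F => ev F z) (rel A (Mo (k := k)) (fun _ => 1) hstab)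
  rw [ev_smul, ev_sum (fun σ _ => (conv_Fs A σ).smul _) hz] at h3
  simp only [ev_smul, Int.cast_one, one_mul] at h3
  have hf : (1 : ℝ) ≤ k.factorial := by exact_mod_cast Nat.one_le_iff_ne_zero.2 (Nat.factorial_ne_zero k)
  -- real inequality
  have h4 : ‖ev (Rps A (Mo (k := k))) z‖ ^ 2 ≤ ∑ σ : Equiv.Perm (Fin k), ‖ev (Fs A σ) z‖ ^ 2 := by
    have h5 : (k.factorial : ℝ) * ‖ev (Rps A (Mo (k := k))) z‖ ≤ ∑ σ : Equiv.Perm (Fin k), ‖ev (Fs A σ) z‖ := by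
      have : (k.factorial : ℝ) * ‖ev (Rps A (Mo (k := k))) z‖ =
          ‖(k.factorial : ℂ) * ev (Rps A (Mo (k := k))) z‖ := by
        rw [norm_mul, Complex.norm_natCast]
      rw [this, h3]
      exact norm_sum_le _ _
    have h6 : (∑ σ : Equiv.Perm (Fin k), ‖ev (Fs A σ) z‖) ^ 2 ≤
        (k.factorial : ℝ) * ∑ σ : Equiv.Perm (Fin k), ‖ev (Fs A σ) z‖ ^ 2 := by
      have := sq_sum_le_card_mul_sum_sq (s := (Finset.univ : Finset (Equiv.Perm (Fin k))))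
        (f := fun σ => ‖ev (Fs A σ) z‖)
      rw [Finset.card_univ, Fintype.card_perm, Fintype.card_fin] at this
      exact this
    have h7 : ((k.factorial : ℝ) * ‖ev (Rps A (Mo (k := k))) z‖) ^ 2 ≤
        (k.factorial : ℝ) * ∑ σ : Equiv.Perm (Fin k), ‖ev (Fs A σ) z‖ ^ 2 :=
      (pow_le_pow_left₀ (by positivity) h5 2).trans h6
    have h8 : (k.factorial : ℝ) * (k.factorial * ‖ev (Rps A (Mo (k := k))) z‖ ^ 2) ≤
        (k.factorial : ℝ) * ∑ σ : Equiv.Perm (Fin k), ‖ev (Fs A σ) z‖ ^ 2 := by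
      refine le_trans (le_of_eq ?_) h7
      ring
    have h9 := le_of_mul_le_mul_left h8 (by linarith)
    refine le_trans ?_ h9
    have : 0 ≤ ‖ev (Rps A (Mo (k := k))) z‖ ^ 2 := by positivity
    nlinarith
  rw [← Finset.add_sum_erase _ _ (Finset.mem_univ (1 : Equiv.Perm (Fin k))), ev_Fs_one A hz, norm_pow,
    ← pow_mul] at h4
  have h5 := ENNReal.ofReal_le_ofReal h4
  rw [ENNReal.ofReal_add (by positivity) (Finset.sum_nonneg fun _ _ => by positivity),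
    ENNReal.ofReal_pow (norm_nonneg _), ENNReal.ofReal_pow (norm_nonneg _),
    ENNReal.ofReal_sum_of_nonneg (fun _ _ => by positivity)] at h5
  simp_rw [ENNReal.ofReal_pow (norm_nonneg _), ofReal_norm] at h5
  have e1 : ∀ x : ℝ≥0∞, x ^ (2 : ℝ) = x ^ 2 := fun x => by
    rw [← ENNReal.rpow_natCast]; norm_num
  have e2 : ∀ x : ℝ≥0∞, x ^ (2 * k : ℝ) = x ^ (k * 2) := fun x => by
    rw [← ENNReal.rpow_natCast]; congr 1; push_cast; ring
  simp_rw [e1]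
  rw [e2]
  exact h5

end Pool.Agent.H303R3.ET
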