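import Pool.Agent.H303R3.ET.Pred
import Pool.Agent.H303R3.ET.Rep

set_option autoImplicit false

/-!
# The energy inequality
-/

open Polynomial Filter Topology MeasureTheory
open scoped ENNReal

namespace Pool.Agent.H303R3.ET

theorem hold1 {f : ℝ → ℝ≥0∞} (hf : AEMeasurable f mu) {p : ℝ} (h0 : 0 ≤ p) (h1 : p ≤ 1) :
    ∫⁻ θ, f θ ^ p ∂mu ≤ (∫⁻ θ, f θ ∂mu) ^ p := by
  have h := ENNReal.lintegral_mul_norm_pow_le (μ := mu) hf (g := fun _ => 1) aemeasurable_const h0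
    (sub_nonneg.2 h1) (by ring)
  simpa using h

theorem hold2 {f g : ℝ → ℝ≥0∞} (hf : AEMeasurable f mu) (hg : AEMeasurable g mu) {p : ℝ}
    (h0 : 0 ≤ p) (h1 : p ≤ 1 / 2) :
    ∫⁻ θ, (f θ * g θ) ^ p ∂mu ≤ (∫⁻ θ, f θ ∂mu) ^ p * (∫⁻ θ, g θ ∂mu) ^ p := by
  have h2 : ∀ θ, (f θ * g θ) ^ p = (f θ ^ (1 / 2 : ℝ) * g θ ^ (1 / 2 : ℝ)) ^ (2 * p) := by
    intro θ
    rw [ENNReal.mul_rpow_of_nonneg _ _ h0, ENNReal.mul_rpow_of_nonneg _ _ (by linarith),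
      ← ENNReal.rpow_mul, ← ENNReal.rpow_mul]
    have : (1 / 2 : ℝ) * (2 * p) = p := by ring
    rw [this]
  simp_rw [h2]
  have h3 : AEMeasurable (fun θ => f θ ^ (1 / 2 : ℝ) * g θ ^ (1 / 2 : ℝ)) mu :=
    (hf.pow_const _).mul (hg.pow_const _)
  refine (hold1 h3 (by linarith) (by linarith)).trans ?_
  have h4 := ENNReal.lintegral_mul_norm_pow_le (μ := mu) hf hg (p := 1 / 2) (q := 1 / 2)
    (by norm_num) (by norm_num) (by norm_num)
  refine (ENNReal.rpow_le_rpow h4 (by linarith)).trans (le_of_eq ?_)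
  rw [ENNReal.mul_rpow_of_nonneg _ _ (by linarith), ← ENNReal.rpow_mul, ← ENNReal.rpow_mul]
  have : (1 / 2 : ℝ) * (2 * p) = p := by ring
  rw [this]

/-- the averaging polynomial -/
noncomputable def Bp (Q m : ℕ) : ℂ[X] :=
  ∑ t ∈ Finset.range m, Polynomial.C (1 / (m : ℂ)) * X ^ ((t + 1) * Q)

theorem Bp_coeff (Q m : ℕ) (y : ℕ) :
    (Bp Q m).coeff y = ∑ t ∈ Finset.range m, if y = (t + 1) * Q then (1 / (m : ℂ)) else 0 := by
  unfold Bp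
  rw [Polynomial.finsetSum_coeff]
  refine Finset.sum_congr rfl fun t _ => ?_
  rw [Polynomial.coeff_C_mul, Polynomial.coeff_X_pow]
  split_ifs <;> simp

theorem Bp_l2 {Q m : ℕ} (hQ : 0 < Q) (hm : 0 < m) {r : ℝ} (h0 : 0 ≤ r) (h1 : r < 1) :
    ∫⁻ θ, ‖(Bp Q m).eval (circleMap 0 r θ)‖ₑ ^ (2 : ℝ) ∂mu ≤ (m : ℝ≥0∞)⁻¹ := by
  classical
  have hm' : (m : ℝ≥0∞) ≠ 0 := by exact_mod_cast hm.ne'
  have hmt : (m : ℝ≥0∞) ≠ ⊤ := ENNReal.natCast_ne_top m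
  have e1 : ∀ θ, (Bp Q m).eval (circleMap 0 r θ) = ev (Bp Q m : PowerSeries ℂ) (circleMap 0 r θ) :=
    fun θ => (ev_poly _ _).symm
  simp_rw [e1]
  rw [← pars (conv_poly _) h0 h1]
  have hq : ENNReal.ofReal (r ^ 2) ≤ 1 := by
    rw [← ENNReal.ofReal_one]
    exact ENNReal.ofReal_le_ofReal (by nlinarith)
  have hc : ∀ y, ‖(Bp Q m).coeff y‖ₑ ≤ (m : ℝ≥0∞)⁻¹ * ∑ t ∈ Finset.range m,
      (if y = (t + 1) * Q then (1 : ℝ≥0∞) else 0) ∧
      ∑ t ∈ Finset.range m, (if y = (t + 1) * Q then (1 : ℝ≥0∞) else 0) ≤ 1 := by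
    intro y
    constructor
    · rw [Bp_coeff, Finset.mul_sum]
      refine (enorm_sum_le _ _).trans (Finset.sum_le_sum fun t _ => ?_)
      split_ifs
      · rw [mul_one, one_div, enorm_inv (by exact_mod_cast hm.ne'), ← ofReal_norm,
          Complex.norm_natCast, ENNReal.ofReal_natCast]
      · simp
    · rw [← Finset.sum_filter, Finset.sum_const, nsmul_eq_mul, mul_one]
      have : (Finset.filter (fun t => y = (t + 1) * Q) (Finset.range m)).card ≤ 1 := by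
        rw [Finset.card_le_one]
        intro a ha b hb
        rw [Finset.mem_filter] at ha hb
        have h2 : (a + 1) * Q = (b + 1) * Q := by rw [← ha.2, hb.2]
        have := Nat.eq_of_mul_eq_mul_right hQ h2
        omega
      exact_mod_cast this
  have h2 : ∀ y, ‖PowerSeries.coeff y (Bp Q m : PowerSeries ℂ)‖ₑ ^ (2 : ℝ) *
      ENNReal.ofReal (r ^ 2) ^ y ≤ (m : ℝ≥0∞)⁻¹ * ((m : ℝ≥0∞)⁻¹ *
        ∑ t ∈ Finset.range m, (if y = (t + 1) * Q then (1 : ℝ≥0∞) else 0)) := by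
    intro y
    obtain ⟨h3, h4⟩ := hc y
    rw [Polynomial.coeff_coe]
    have h5 : ENNReal.ofReal (r ^ 2) ^ y ≤ 1 := pow_le_one' hq y
    have h6 : ‖(Bp Q m).coeff y‖ₑ ≤ (m : ℝ≥0∞)⁻¹ := by
      refine h3.trans ?_
      calc _ ≤ (m : ℝ≥0∞)⁻¹ * 1 := mul_le_mul' le_rfl h4
        _ = _ := mul_one _
    calc ‖(Bp Q m).coeff y‖ₑ ^ (2 : ℝ) * ENNReal.ofReal (r ^ 2) ^ y
        ≤ ‖(Bp Q m).coeff y‖ₑ ^ (2 : ℝ) * 1 := mul_le_mul' le_rfl h5
      _ = ‖(Bp Q m).coeff y‖ₑ * ‖(Bp Q m).coeff y‖ₑ := by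
          rw [mul_one, ENNReal.rpow_two, sq]
      _ ≤ _ := mul_le_mul' h6 h3
  refine (ENNReal.tsum_le_tsum h2).trans ?_
  rw [ENNReal.tsum_mul_left, ENNReal.tsum_mul_left, Summable.tsum_finsetSum (fun _ _ => ENNReal.summable)]
  have h3 : ∀ t ∈ Finset.range m, ∑' y : ℕ, (if y = (t + 1) * Q then (1 : ℝ≥0∞) else 0) = 1 := by
    intro t _
    exact tsum_ite_eq _ _
  rw [Finset.sum_congr rfl h3, Finset.sum_const, Finset.card_range, nsmul_eq_mul, mul_one,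
    ENNReal.inv_mul_cancel hm' hmt, mul_one]

theorem diff_coeff (c : ℕ → ℕ) (Q m y : ℕ) :
    PowerSeries.coeff y (((1 - Bp Q m : ℂ[X]) : PowerSeries ℂ) * Sc c) =
      (((c y : ℝ) - (1 / (m : ℝ)) * ∑ t ∈ Finset.range m,
        (if (t + 1) * Q ≤ y then (c (y - (t + 1) * Q) : ℝ) else 0) : ℝ) : ℂ) := by
  have h1 : ((1 - Bp Q m : ℂ[X]) : PowerSeries ℂ) = 1 - ∑ t ∈ Finset.range m,
      PowerSeries.C (1 / (m : ℂ)) * PowerSeries.X ^ ((t + 1) * Q) := by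
    have h2 : ((1 - Bp Q m : ℂ[X]) : PowerSeries ℂ) =
        Polynomial.coeToPowerSeries.ringHom (1 - Bp Q m) := rfl
    rw [h2, map_sub, map_one]
    unfold Bp
    rw [map_sum]
    congr 1
    refine Finset.sum_congr rfl fun t _ => ?_
    rw [map_mul, map_pow]
    simp
  rw [h1, sub_mul, one_mul, Finset.sum_mul, map_sub, map_sum]
  unfold Sc
  rw [PowerSeries.coeff_mk]
  have h3 : ∀ t ∈ Finset.range m, PowerSeries.coeff y (PowerSeries.C (1 / (m : ℂ)) *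
      PowerSeries.X ^ ((t + 1) * Q) * PowerSeries.mk fun n => ((c n : ℕ) : ℂ)) =
      (1 / (m : ℂ)) * (if (t + 1) * Q ≤ y then (c (y - (t + 1) * Q) : ℂ) else 0) := by
    intro t _
    rw [mul_assoc, PowerSeries.coeff_C_mul, PowerSeries.coeff_X_pow_mul']
    congr 1
    split_ifs
    · rw [PowerSeries.coeff_mk]
    · rfl
  rw [Finset.sum_congr rfl h3, ← Finset.mul_sum]
  push_cast
  congr 2
  refine Finset.sum_congr rfl fun t _ => ?_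
  split_ifs <;> simp

theorem diff_bound {c : ℕ → ℕ} {K : ℕ} (hc : ∀ n, c n ≤ K) {Q m : ℕ} (hm : 0 < m) (y : ℕ) :
    ‖PowerSeries.coeff y (((1 - Bp Q m : ℂ[X]) : PowerSeries ℂ) * Sc c)‖ₑ ^ (2 : ℝ) ≤
      (K : ℝ≥0∞) ^ 2 := by
  have hm' : (0 : ℝ) < m := by exact_mod_cast hm
  rw [diff_coeff, ENNReal.rpow_two]
  apply pow_le_pow_left' _ 2
  rw [← ofReal_norm, Complex.norm_real, Real.norm_eq_abs, ← ENNReal.ofReal_natCast]
  apply ENNReal.ofReal_le_ofReal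
  have h1 : (c y : ℝ) ≤ K := by exact_mod_cast hc y
  have h2 : (0 : ℝ) ≤ c y := Nat.cast_nonneg _
  have h3 : 0 ≤ ∑ t ∈ Finset.range m, (if (t + 1) * Q ≤ y then (c (y - (t + 1) * Q) : ℝ) else 0) :=
    Finset.sum_nonneg fun t _ => by split_ifs <;> positivity
  have h4 : ∑ t ∈ Finset.range m, (if (t + 1) * Q ≤ y then (c (y - (t + 1) * Q) : ℝ) else 0) ≤
      m * K := by
    calc _ ≤ ∑ _t ∈ Finset.range m, (K : ℝ) := by
          apply Finset.sum_le_sum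
          intro t _
          split_ifs
          · exact_mod_cast hc _
          · positivity
      _ = m * K := by rw [Finset.sum_const, Finset.card_range, nsmul_eq_mul]
  have h5 : 1 / (m : ℝ) * ∑ t ∈ Finset.range m,
      (if (t + 1) * Q ≤ y then (c (y - (t + 1) * Q) : ℝ) else 0) ≤ K := by
    calc _ ≤ 1 / (m : ℝ) * (m * K) := by gcongr
      _ = K := by field_simp
  have h6 : 0 ≤ 1 / (m : ℝ) * ∑ t ∈ Finset.range m,
      (if (t + 1) * Q ≤ y then (c (y - (t + 1) * Q) : ℝ) else 0) := by positivity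
  rw [abs_le]
  constructor <;> linarith

theorem diff_zero {c : ℕ → ℕ} {Q m : ℕ} (hm : 0 < m) {y : ℕ} (hy : m * Q ≤ y)
    (h : ∀ t, t ≤ m → c y = c (y - t * Q)) :
    ‖PowerSeries.coeff y (((1 - Bp Q m : ℂ[X]) : PowerSeries ℂ) * Sc c)‖ₑ ^ (2 : ℝ) = 0 := by
  have hm' : (m : ℝ) ≠ 0 := by exact_mod_cast hm.ne'
  have h1 : PowerSeries.coeff y (((1 - Bp Q m : ℂ[X]) : PowerSeries ℂ) * Sc c) = 0 := by
    rw [diff_coeff]
    have h2 : ∀ t ∈ Finset.range m, (if (t + 1) * Q ≤ y then (c (y - (t + 1) * Q) : ℝ) else 0) =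
        c y := by
      intro t ht
      rw [Finset.mem_range] at ht
      have h3 : (t + 1) * Q ≤ m * Q := Nat.mul_le_mul_right Q ht
      rw [if_pos (by omega), ← h (t + 1) (by omega)]
    rw [Finset.sum_congr rfl h2, Finset.sum_const, Finset.card_range, nsmul_eq_mul]
    have h4 : (c y : ℝ) - 1 / (m : ℝ) * (m * c y) = 0 := by field_simp; ring
    rw [h4]
    simp
  rw [h1]
  simp

theorem rps_eq {k : ℕ} (A : Set ℕ) : Rps A (Mo (k := k)) = Sc (fun n => Rn A (Mo (k := k)) n) := rfl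

theorem energy {k : ℕ} (hk : 2 ≤ k) (A : Set ℕ) {K : ℕ} (hK : ∀ n, Rn A (Mo (k := k)) n ≤ K)
    {r : ℝ} (h0 : 0 ≤ r) (h1 : r < 1) (hM : 1 ≤ fr A (r ^ 2)) (B : ℂ[X]) :
    ENNReal.ofReal (fr A (r ^ 2)) ≤
      (k.factorial : ℝ≥0∞) ^ (2 / k : ℝ) * (∫⁻ θ, ‖ev (((1 - B : ℂ[X]) : PowerSeries ℂ) *
        Sc (fun n => Rn A (Mo (k := k)) n)) (circleMap 0 r θ)‖ₑ ^ (2 : ℝ) ∂mu) ^ (1 / k : ℝ) +
      (k.factorial : ℝ≥0∞) ^ (2 / k : ℝ) * ((∫⁻ θ, ‖B.eval (circleMap 0 r θ)‖ₑ ^ (2 : ℝ) ∂mu) ^ (1 / k : ℝ) *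
        (∫⁻ θ, ‖ev (Sc (fun n => Rn A (Mo (k := k)) n)) (circleMap 0 r θ)‖ₑ ^ (2 : ℝ) ∂mu) ^ (1 / k : ℝ)) +
      k.factorial * ENNReal.ofReal (fr A (r ^ 2)) ^ (((k : ℝ) - 1) / k) := by
  classical
  have hk0 : (0 : ℝ) < k := by exact_mod_cast (by omega : 0 < k)
  have hk2 : (2 : ℝ) ≤ k := by exact_mod_cast hk
  have hp0 : (0 : ℝ) < 2 / k := by positivity
  have hp1 : (2 / k : ℝ) ≤ 1 := by rw [div_le_one hk0]; exact hk2
  obtain ⟨c, hcdef⟩ : ∃ c : ℕ → ℕ, c = fun n => Rn A (Mo (k := k)) n := ⟨_, rfl⟩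
  have hc : ∀ n, c n ≤ K := by rw [hcdef]; exact hK
  have hR : Rps A (Mo (k := k)) = Sc c := by rw [hcdef]; rfl
  rw [← hcdef]
  have hnorm : ∀ θ : ℝ, ‖circleMap 0 r θ‖ = r := by
    intro θ
    rw [norm_circleMap_zero, abs_of_nonneg h0]
  have hcirc : ∀ θ : ℝ, ‖circleMap 0 r θ‖ < 1 := by
    intro θ
    rw [hnorm]; exact h1
  obtain ⟨E, hE⟩ : ∃ E : Finset (Equiv.Perm (Fin k)), E = Finset.univ.erase 1 := ⟨_, rfl⟩
  have hf : ∫⁻ θ, ‖ev (ind A) (circleMap 0 r θ)‖ₑ ^ (2 : ℝ) ∂mu = ENNReal.ofReal (fr A (r ^ 2)) := by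
    rw [lint_parseval (conv_ind A) h0 h1]
    congr 1
    unfold fr
    refine tsum_congr fun n => ?_
    unfold ind
    rw [PowerSeries.coeff_mk]
    split_ifs <;> simp
  have hpt : ∀ θ : ℝ, ‖ev (ind A) (circleMap 0 r θ)‖ₑ ^ (2 : ℝ)
      ≤ (k.factorial : ℝ≥0∞) ^ (2 / k : ℝ) * (‖ev (((1 - B : ℂ[X]) : PowerSeries ℂ) * Sc c)
            (circleMap 0 r θ)‖ₑ ^ (2 : ℝ)) ^ (1 / k : ℝ)
        + (k.factorial : ℝ≥0∞) ^ (2 / k : ℝ) * (‖B.eval (circleMap 0 r θ)‖ₑ ^ (2 : ℝ) *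
            ‖ev (Sc c) (circleMap 0 r θ)‖ₑ ^ (2 : ℝ)) ^ (1 / k : ℝ)
        + ∑ σ ∈ E, ‖ev (Fs A σ) (circleMap 0 r θ)‖ₑ ^ (2 / k : ℝ) := by
    intro θ
    obtain ⟨z, hz⟩ : ∃ z : ℂ, z = circleMap 0 r θ := ⟨_, rfl⟩
    rw [← hz]
    have hz1 : ‖z‖ < 1 := by rw [hz]; exact hcirc θ
    have ha := pointwise A (Mo (k := k)) (fun _ => 1) hstab le_rfl (fun _ _ => by norm_num) hz1
    rw [hR, ← hE] at ha
    have hb : ‖ev (ind A) z‖ₑ ^ k ≤ k.factorial * ‖ev (Sc c) z‖ₑ + ∑ σ ∈ E, ‖ev (Fs A σ) z‖ₑ := by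
      have hc := ENNReal.ofReal_le_ofReal ha
      rw [ENNReal.ofReal_add (by positivity) (Finset.sum_nonneg fun _ _ => norm_nonneg _),
        ENNReal.ofReal_pow (norm_nonneg _), ENNReal.ofReal_sum_of_nonneg (fun _ _ => norm_nonneg _),
        ENNReal.ofReal_mul (by positivity), ENNReal.ofReal_natCast] at hc
      simpa only [ofReal_norm] using hc
    have hsplit : ‖ev (Sc c) z‖ₑ ≤ ‖ev (((1 - B : ℂ[X]) : PowerSeries ℂ) * Sc c) z‖ₑ +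
        ‖B.eval z‖ₑ * ‖ev (Sc c) z‖ₑ := by
      rw [← enorm_mul]
      have e1 : ev (Sc c) z = ev (((1 - B : ℂ[X]) : PowerSeries ℂ) * Sc c) z + B.eval z * ev (Sc c) z := by
        rw [ev_mul (conv_poly _) (conv_Sc hc) hz1, ev_poly, Polynomial.eval_sub, Polynomial.eval_one]
        ring
      calc ‖ev (Sc c) z‖ₑ = ‖ev (((1 - B : ℂ[X]) : PowerSeries ℂ) * Sc c) z + B.eval z * ev (Sc c) z‖ₑ := by
            rw [← e1]
        _ ≤ _ := enorm_add_le _ _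
    have hd : ‖ev (ind A) z‖ₑ ^ (2 : ℝ) = (‖ev (ind A) z‖ₑ ^ k) ^ (2 / k : ℝ) := by
      rw [← ENNReal.rpow_natCast, ← ENNReal.rpow_mul]
      congr 1
      field_simp
    rw [hd]
    have hb2 : ‖ev (ind A) z‖ₑ ^ k ≤ (k.factorial * ‖ev (((1 - B : ℂ[X]) : PowerSeries ℂ) * Sc c) z‖ₑ +
        k.factorial * (‖B.eval z‖ₑ * ‖ev (Sc c) z‖ₑ)) + ∑ σ ∈ E, ‖ev (Fs A σ) z‖ₑ := by
      refine hb.trans ?_
      rw [← mul_add]
      gcongr
    refine (ENNReal.rpow_le_rpow hb2 hp0.le).trans ?_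
    refine (ENNReal.rpow_add_le_add_rpow _ _ hp0.le hp1).trans ?_
    apply add_le_add _ (enn_sum_rpow E _ hp0 hp1)
    refine (ENNReal.rpow_add_le_add_rpow _ _ hp0.le hp1).trans (le_of_eq ?_)
    have e2 : ∀ x : ℝ≥0∞, (x ^ (2 : ℝ)) ^ (1 / k : ℝ) = x ^ (2 / k : ℝ) := by
      intro x
      rw [← ENNReal.rpow_mul]; congr 1; ring
    rw [ENNReal.mul_rpow_of_nonneg _ _ hp0.le, ENNReal.mul_rpow_of_nonneg _ _ hp0.le, e2,
      ← ENNReal.mul_rpow_of_nonneg _ _ (by norm_num : (0 : ℝ) ≤ 2), e2]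
  have hmR : Measurable fun θ : ℝ => ‖ev (Sc c) (circleMap 0 r θ)‖ₑ ^ (2 : ℝ) :=
    (ev_cont (conv_Sc hc) h0 h1).measurable.enorm.pow_const _
  have hm1 : Measurable fun θ : ℝ => ‖ev (((1 - B : ℂ[X]) : PowerSeries ℂ) * Sc c)
      (circleMap 0 r θ)‖ₑ ^ (2 : ℝ) :=
    (ev_cont ((conv_poly _).mul (conv_Sc hc)) h0 h1).measurable.enorm.pow_const _
  have hmB : Measurable fun θ : ℝ => ‖B.eval (circleMap 0 r θ)‖ₑ ^ (2 : ℝ) :=
    (B.continuous.comp (continuous_circleMap 0 r)).measurable.enorm.pow_const _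
  rw [← hf]
  refine (lintegral_mono hpt).trans ?_
  have hma : Measurable fun θ : ℝ => (k.factorial : ℝ≥0∞) ^ (2 / k : ℝ) *
      (‖ev (((1 - B : ℂ[X]) : PowerSeries ℂ) * Sc c) (circleMap 0 r θ)‖ₑ ^ (2 : ℝ)) ^ (1 / k : ℝ) :=
    (hm1.pow_const _).const_mul _
  have hmb : Measurable fun θ : ℝ => (k.factorial : ℝ≥0∞) ^ (2 / k : ℝ) *
      (‖B.eval (circleMap 0 r θ)‖ₑ ^ (2 : ℝ) * ‖ev (Sc c) (circleMap 0 r θ)‖ₑ ^ (2 : ℝ)) ^ (1 / k : ℝ) :=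
    ((hmB.mul hmR).pow_const _).const_mul _
  have hmab : Measurable fun θ : ℝ => (k.factorial : ℝ≥0∞) ^ (2 / k : ℝ) *
      (‖ev (((1 - B : ℂ[X]) : PowerSeries ℂ) * Sc c) (circleMap 0 r θ)‖ₑ ^ (2 : ℝ)) ^ (1 / k : ℝ) +
      (k.factorial : ℝ≥0∞) ^ (2 / k : ℝ) *
      (‖B.eval (circleMap 0 r θ)‖ₑ ^ (2 : ℝ) * ‖ev (Sc c) (circleMap 0 r θ)‖ₑ ^ (2 : ℝ)) ^ (1 / k : ℝ) :=
    hma.add hmb
  have hmbr : Measurable fun θ : ℝ =>
      (‖B.eval (circleMap 0 r θ)‖ₑ ^ (2 : ℝ) * ‖ev (Sc c) (circleMap 0 r θ)‖ₑ ^ (2 : ℝ)) ^ (1 / k : ℝ) :=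
    (hmB.mul hmR).pow_const _
  rw [lintegral_add_left hmab, lintegral_add_left hma, lintegral_finsetSum,
    lintegral_const_mul _ (hm1.pow_const _), lintegral_const_mul _ hmbr]
  · have h1k : (0 : ℝ) ≤ 1 / k := by positivity
    have h1k1 : (1 / k : ℝ) ≤ 1 := by rw [div_le_one hk0]; linarith
    have h1k2 : (1 / k : ℝ) ≤ 1 / 2 := by
      apply one_div_le_one_div_of_le (by norm_num) hk2
    apply add_le_add (add_le_add (mul_le_mul' le_rfl (hold1 hm1.aemeasurable h1k h1k1))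
      (mul_le_mul' le_rfl (hold2 hmB.aemeasurable hmR.aemeasurable h1k h1k2)))
    calc ∑ σ ∈ E, ∫⁻ θ, ‖ev (Fs A σ) (circleMap 0 r θ)‖ₑ ^ (2 / k : ℝ) ∂mu
        ≤ ∑ _σ ∈ E, ENNReal.ofReal (fr A (r ^ 2)) ^ (((k : ℝ) - 1) / k) := by
          apply Finset.sum_le_sum
          intro σ hσ
          obtain ⟨ι, _, e, he, hF, hcard⟩ := Fs_eq A σ
          rw [hE] at hσ
          have hc := hcard (Finset.ne_of_mem_erase hσ)
          rw [hF]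
          refine (lint_prod A (by omega) e he hc.le h0 h1).trans ?_
          apply ENNReal.rpow_le_rpow_of_exponent_le
          · rw [← ENNReal.ofReal_one]
            exact ENNReal.ofReal_le_ofReal hM
          · have : (Fintype.card ι : ℝ) ≤ k - 1 := by
              have : Fintype.card ι + 1 ≤ k := hc
              have h5 : ((Fintype.card ι : ℝ) + 1) ≤ k := by exact_mod_cast this
              linarith
            gcongr
      _ ≤ k.factorial * ENNReal.ofReal (fr A (r ^ 2)) ^ (((k : ℝ) - 1) / k) := by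
          rw [Finset.sum_const, nsmul_eq_mul]
          apply mul_le_mul' _ le_rfl
          have : E.card ≤ k.factorial := by
            refine (Finset.card_le_univ _).trans ?_
            rw [Fintype.card_perm, Fintype.card_fin]
          exact_mod_cast this
      _ = _ := by rw [hf]
  · intro σ _
    exact (ev_cont (conv_Fs A σ) h0 h1).measurable.enorm.pow_const _

end Pool.Agent.H303R3.ET
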