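import Pool.Agent.H303R3.ET.SingCore

set_option autoImplicit false

/-!
# Bounded representation functions are not close to functions with concentrated generating function
-/

open Filter Topology MeasureTheory
open scoped ENNReal

namespace Pool.Agent.H303R3.ET

theorem mu_const_le : (ENNReal.ofReal (2 * Real.pi))⁻¹ ≤ 1 := by
  rw [ENNReal.inv_le_one, ← ENNReal.ofReal_one]
  apply ENNReal.ofReal_le_ofReal
  have := Real.pi_gt_three
  linarith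

theorem mu_le (V : Set ℝ) : mu V ≤ volume V := by
  unfold mu
  rw [Measure.smul_apply, smul_eq_mul]
  calc _ ≤ 1 * (volume.restrict (Set.Ioc 0 (2 * Real.pi))) V := mul_le_mul' mu_const_le le_rfl
    _ = (volume.restrict (Set.Ioc 0 (2 * Real.pi))) V := one_mul _
    _ ≤ volume V := Measure.restrict_apply_le _ _

theorem lint_compl {p : PowerSeries ℂ} (hp : Conv p) {ρ : ℝ} (h0 : 0 ≤ ρ) (h1 : ρ < 1) {V : Set ℝ}
    (hV : MeasurableSet V) :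
    ∫⁻ θ in Vᶜ, ‖ev p (circleMap 0 ρ θ)‖ₑ ^ (2 : ℝ) ∂mu ≤
      ENNReal.ofReal (∫ θ in Set.Ioc 0 (2 * Real.pi) \ V, ‖ev p (circleMap 0 ρ θ)‖ ^ 2) := by
  have hc : Continuous fun θ : ℝ => ‖ev p (circleMap 0 ρ θ)‖ ^ 2 := (ev_cont hp h0 h1).norm.pow 2
  have hint : Integrable (fun θ : ℝ => ‖ev p (circleMap 0 ρ θ)‖ ^ 2)
      (volume.restrict (Set.Ioc 0 (2 * Real.pi) \ V)) :=
    (hc.integrableOn_Icc (a := 0) (b := 2 * Real.pi)).mono_set
      (Set.sdiff_subset.trans Set.Ioc_subset_Icc_self)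
  rw [ofReal_integral_eq_lintegral_ofReal hint (Eventually.of_forall fun θ => by positivity)]
  unfold mu
  rw [Measure.restrict_smul, lintegral_smul_measure, Measure.restrict_restrict hV.compl, smul_eq_mul]
  have hset : Vᶜ ∩ Set.Ioc 0 (2 * Real.pi) = Set.Ioc 0 (2 * Real.pi) \ V := by
    ext x
    simp only [Set.mem_inter_iff, Set.mem_compl_iff, Set.mem_sdiff]
    tauto
  rw [hset]
  refine (mul_le_mul' mu_const_le (lintegral_mono fun θ => ?_)).trans (le_of_eq (one_mul _))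
  rw [ENNReal.ofReal_pow (norm_nonneg _), ofReal_norm, ENNReal.rpow_two]

/-- The generating function of `P` is concentrated on small sets of angles, along some radii tending
to `1`. -/
def Conc (P : ℕ → ℝ) : Prop :=
  ∀ ε : ℝ, 0 < ε → ∃ᶠ ρ : ℝ in 𝓝[<] 1, ∃ V : Set ℝ, MeasurableSet V ∧
    volume V ≤ ENNReal.ofReal ε ∧ (1 - ρ) * ∫ θ in Set.Ioc 0 (2 * Real.pi) \ V,
      ‖∑' n : ℕ, (P n : ℂ) * circleMap 0 ρ θ ^ n‖ ^ 2 ≤ ε

theorem sqrt_add_le' {a b : ℝ} (ha : 0 ≤ a) (hb : 0 ≤ b) :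
    Real.sqrt (a + b) ≤ Real.sqrt a + Real.sqrt b := by
  rw [Real.sqrt_le_left (by positivity)]
  have h1 := Real.sq_sqrt ha
  have h2 := Real.sq_sqrt hb
  have h3 : 0 ≤ Real.sqrt a * Real.sqrt b := by positivity
  nlinarith

theorem sing_alg {f T c0 M2 E2 Q ε B D1 D2 κ s : ℝ} (hf : 0 ≤ f) (hc0 : 0 < c0)
    (hT : 0 ≤ T) (hε : 0 ≤ ε) (hε1 : ε ≤ 1) (hB : 0 ≤ B) (hD1 : 0 ≤ D1) (hD2 : 0 ≤ D2) (hκ : 0 ≤ κ)
    (h1 : c0 * T ≤ f ^ 2) (h2 : M2 ≤ B * T + D2) (h3 : E2 ≤ κ * f ^ 2 + D1) (h4 : Q ≤ 2 * ε * T)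
    (hs : 0 ≤ s) (hs1 : ε * B ≤ c0 * s ^ 2) (hs2 : 2 * ε ≤ c0 * s ^ 2) (hs3 : Real.sqrt κ + 4 * s = 1)
    (h5 : f ≤ Real.sqrt M2 * Real.sqrt ε + (Real.sqrt E2 + Real.sqrt Q)) :
    2 * s * f ≤ Real.sqrt D2 + Real.sqrt D1 := by
  have e1 : Real.sqrt M2 * Real.sqrt ε ≤ s * f + Real.sqrt D2 := by
    rw [← Real.sqrt_mul' M2 hε]
    have a1 : M2 * ε ≤ (s * f) ^ 2 + D2 := by
      have b1 : M2 * ε ≤ (B * T + D2) * ε := mul_le_mul_of_nonneg_right h2 hε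
      have b2 : D2 * ε ≤ D2 := by nlinarith
      have b3 : ε * B * T ≤ c0 * s ^ 2 * T := mul_le_mul_of_nonneg_right hs1 hT
      have b4 : s ^ 2 * (c0 * T) ≤ s ^ 2 * f ^ 2 := mul_le_mul_of_nonneg_left h1 (by positivity)
      nlinarith
    calc Real.sqrt (M2 * ε) ≤ Real.sqrt ((s * f) ^ 2 + D2) := Real.sqrt_le_sqrt a1
      _ ≤ Real.sqrt ((s * f) ^ 2) + Real.sqrt D2 := sqrt_add_le' (by positivity) hD2
      _ = s * f + Real.sqrt D2 := by rw [Real.sqrt_sq (by positivity)]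
  have e2 : Real.sqrt E2 ≤ Real.sqrt κ * f + Real.sqrt D1 := by
    calc Real.sqrt E2 ≤ Real.sqrt (κ * f ^ 2 + D1) := Real.sqrt_le_sqrt h3
      _ ≤ Real.sqrt (κ * f ^ 2) + Real.sqrt D1 := sqrt_add_le' (by positivity) hD1
      _ = Real.sqrt κ * f + Real.sqrt D1 := by rw [Real.sqrt_mul hκ, Real.sqrt_sq hf]
  have e3 : Real.sqrt Q ≤ s * f := by
    rw [← Real.sqrt_sq (show 0 ≤ s * f by positivity)]
    apply Real.sqrt_le_sqrt
    have b3 : 2 * ε * T ≤ c0 * s ^ 2 * T := mul_le_mul_of_nonneg_right hs2 hT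
    have b4 : s ^ 2 * (c0 * T) ≤ s ^ 2 * f ^ 2 := mul_le_mul_of_nonneg_left h1 (by positivity)
    nlinarith
  have e4 : f = (Real.sqrt κ + 4 * s) * f := by rw [hs3, one_mul]
  nlinarith

/-- Power series with real coefficients. -/
noncomputable def Pw (c : ℕ → ℝ) : PowerSeries ℂ := PowerSeries.mk fun n => (c n : ℂ)

theorem conv_Pw {c : ℕ → ℝ} {D : ℝ} (h : ∀ n : ℕ, |c n| ≤ D * ((n : ℝ) + 1) ^ 2) : Conv (Pw c) := by
  refine Conv.of_le (b := fun n => D * ((n : ℝ) + 1) ^ 2) (fun n => ?_) ?_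
  · unfold Pw
    rw [PowerSeries.coeff_mk, Complex.norm_real]
    exact h n
  · intro ρ h0 h1
    have h3 := summable_pow_mul_geometric_of_norm_lt_one (R := ℝ) 1 (r := ρ) (by rwa [Real.norm_of_nonneg h0])
    have h4 := summable_pow_mul_geometric_of_norm_lt_one (R := ℝ) 2 (r := ρ) (by rwa [Real.norm_of_nonneg h0])
    simp only [pow_one] at h3
    refine (((h4.add (h3.mul_left 2)).add (summable_geometric_of_lt_one h0 h1)).mul_left D).congr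
      fun n => ?_
    ring

theorem pars_Pw {c : ℕ → ℝ} (hc : Conv (Pw c)) {ρ : ℝ} (h0 : 0 ≤ ρ) (h1 : ρ < 1) :
    (Summable fun n => c n ^ 2 * (ρ ^ 2) ^ n) ∧
    ∫⁻ θ, ‖ev (Pw c) (circleMap 0 ρ θ)‖ₑ ^ (2 : ℝ) ∂mu =
      ENNReal.ofReal (∑' n, c n ^ 2 * (ρ ^ 2) ^ n) := by
  have h2 : ∀ n, ‖PowerSeries.coeff n (Pw c)‖ ^ 2 * (ρ ^ 2) ^ n = c n ^ 2 * (ρ ^ 2) ^ n := by
    intro n
    unfold Pw
    rw [PowerSeries.coeff_mk, Complex.norm_real, Real.norm_eq_abs, sq_abs]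
  constructor
  · exact (parseval hc h0 h1).summable.congr h2
  · rw [lint_parseval hc h0 h1, tsum_congr h2]

theorem rep_Pw (A : Set ℕ) : ind A * ind A = Pw (fun n => (rep A n : ℝ)) := by
  ext n
  rw [coeff_ind_sq]
  unfold Pw
  rw [PowerSeries.coeff_mk]
  push_cast
  rfl

theorem Pw_add (c d : ℕ → ℝ) : Pw c + Pw d = Pw (fun n => c n + d n) := by
  ext n
  rw [map_add]
  unfold Pw
  simp only [PowerSeries.coeff_mk]
  push_cast
  rfl

theorem growth {A : Set ℕ} {P : ℕ → ℝ} {κ D : ℝ} (hκ0 : 0 ≤ κ) (hκ1 : κ ≤ 1)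
    (hD : 0 ≤ D) (h : ∀ N : ℕ, ∑ n ∈ Finset.range N, (((rep A n : ℝ) - P n) ^ 2 - κ * rep A n) ≤ D)
    (n : ℕ) : |(rep A n : ℝ) - P n| ≤ (D + 2) * ((n : ℝ) + 1) ^ 2 ∧
      |P n| ≤ (D + 3) * ((n : ℝ) + 1) ^ 2 := by
  have hrep : ∀ m : ℕ, m ≤ n → (rep A m : ℝ) ≤ (n : ℝ) + 1 := by
    intro m hm
    have h1 : (rep A m : ℝ) ≤ (m : ℝ) + 1 := by exact_mod_cast rep_le A m
    have h2 : (m : ℝ) ≤ n := by exact_mod_cast hm
    linarith
  have h1 := h (n + 1)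
  rw [Finset.sum_sub_distrib] at h1
  have h2 : ((rep A n : ℝ) - P n) ^ 2 ≤ ∑ m ∈ Finset.range (n + 1), ((rep A m : ℝ) - P m) ^ 2 :=
    Finset.single_le_sum (f := fun m => ((rep A m : ℝ) - P m) ^ 2) (fun _ _ => sq_nonneg _)
      (Finset.mem_range.mpr (Nat.lt_succ_self n))
  have h3 : ∑ m ∈ Finset.range (n + 1), κ * (rep A m : ℝ) ≤ ((n : ℝ) + 1) ^ 2 := by
    calc ∑ m ∈ Finset.range (n + 1), κ * (rep A m : ℝ) ≤
          ∑ m ∈ Finset.range (n + 1), ((n : ℝ) + 1) := by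
          apply Finset.sum_le_sum
          intro m hm
          have h4 := hrep m (Nat.lt_succ_iff.mp (Finset.mem_range.mp hm))
          have h5 : (0 : ℝ) ≤ rep A m := Nat.cast_nonneg _
          nlinarith
      _ = ((n : ℝ) + 1) ^ 2 := by
          rw [Finset.sum_const, Finset.card_range, nsmul_eq_mul]
          push_cast
          ring
  have hn : (1 : ℝ) ≤ ((n : ℝ) + 1) ^ 2 := one_le_pow₀ (by
    have : (0 : ℝ) ≤ n := Nat.cast_nonneg n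
    linarith)
  have h4 : ((rep A n : ℝ) - P n) ^ 2 ≤ ((n : ℝ) + 1) ^ 2 + D := by linarith
  have h5 : |(rep A n : ℝ) - P n| ≤ 1 + ((rep A n : ℝ) - P n) ^ 2 := by
    have := sq_abs ((rep A n : ℝ) - P n)
    nlinarith [sq_nonneg (|(rep A n : ℝ) - P n| - 1), abs_nonneg ((rep A n : ℝ) - P n)]
  have h6 : D ≤ D * ((n : ℝ) + 1) ^ 2 := by nlinarith
  have h7 : |(rep A n : ℝ) - P n| ≤ (D + 2) * ((n : ℝ) + 1) ^ 2 := by nlinarith
  refine ⟨h7, ?_⟩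
  have h8 : |P n| ≤ |(rep A n : ℝ) - P n| + |(rep A n : ℝ)| := by
    have := abs_sub_abs_le_abs_sub (P n) (rep A n : ℝ)
    rw [abs_sub_comm] at this
    linarith
  have h9 : |(rep A n : ℝ)| ≤ ((n : ℝ) + 1) ^ 2 := by
    rw [abs_of_nonneg (Nat.cast_nonneg _)]
    have := hrep n le_rfl
    have : (0 : ℝ) ≤ n := Nat.cast_nonneg n
    nlinarith
  linarith

end Pool.Agent.H303R3.ET
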