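import Pool.Agent.H303R3.ET.MomB
import Pool.Agent.H303R3.ET.SingMain

set_option autoImplicit false

/-!
# Bases of any order and functions with concentrated generating function: the core inequalities
-/

open Filter Topology MeasureTheory
open scoped ENNReal

namespace Pool.Agent.H303R3.ET

theorem L2_add (ν : Measure ℝ) {f g : ℝ → ℝ≥0∞} (hf : Measurable f) (hg : Measurable g) :
    (∫⁻ θ, (f θ + g θ) ^ (2 : ℝ) ∂ν) ^ (1 / 2 : ℝ) ≤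
      (∫⁻ θ, f θ ^ (2 : ℝ) ∂ν) ^ (1 / 2 : ℝ) + (∫⁻ θ, g θ ^ (2 : ℝ) ∂ν) ^ (1 / 2 : ℝ) := by
  have h4 := ENNReal.lintegral_Lp_add_le (μ := ν) (p := 2) (f := f) (g := g)
    hf.aemeasurable hg.aemeasurable (by norm_num)
  simpa only [Pi.add_apply] using h4

theorem L2_sum (ν : Measure ℝ) {ι : Type*} (s : Finset ι) (f : ι → ℝ → ℝ≥0∞)
    (hf : ∀ i, Measurable (f i)) :
    (∫⁻ θ, (∑ i ∈ s, f i θ) ^ (2 : ℝ) ∂ν) ^ (1 / 2 : ℝ) ≤
      ∑ i ∈ s, (∫⁻ θ, f i θ ^ (2 : ℝ) ∂ν) ^ (1 / 2 : ℝ) := by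
  classical
  induction s using Finset.induction_on with
  | empty => simp
  | insert a s ha ih =>
    rw [Finset.sum_insert ha]
    have h1 : ∀ θ, (∑ i ∈ insert a s, f i θ) = f a θ + ∑ i ∈ s, f i θ := fun θ =>
      Finset.sum_insert ha
    simp_rw [h1]
    exact (L2_add ν (hf a) (Finset.measurable_fun_sum s fun i _ => hf i)).trans
      (add_le_add le_rfl ih)

theorem L2_const (ν : Measure ℝ) (c : ℝ≥0∞) {f : ℝ → ℝ≥0∞} (hf : Measurable f) :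
    (∫⁻ θ, (c * f θ) ^ (2 : ℝ) ∂ν) ^ (1 / 2 : ℝ) = c * (∫⁻ θ, f θ ^ (2 : ℝ) ∂ν) ^ (1 / 2 : ℝ) := by
  simp_rw [ENNReal.mul_rpow_of_nonneg _ _ (show (0 : ℝ) ≤ 2 by norm_num)]
  rw [lintegral_const_mul _ (hf.pow_const _), ENNReal.mul_rpow_of_nonneg _ _ (by norm_num),
    ← ENNReal.rpow_mul]
  norm_num

theorem core_up {k : ℕ} (A : Set ℕ) {K : ℕ} (hK : ∀ n, Rn A (Mo (k := k)) n ≤ K)
    {e p : PowerSeries ℂ} (he : Conv e) (hp : Conv p) (hep : Rps A (Mo (k := k)) = e + p) {ρ : ℝ}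
    (h0 : 0 ≤ ρ) (h1 : ρ < 1) (V : Set ℝ) (hf : 1 ≤ fr A (ρ ^ 2)) :
    (∫⁻ θ in Vᶜ, (‖ev (ind A) (circleMap 0 ρ θ)‖ₑ ^ k) ^ (2 : ℝ) ∂mu) ^ (1 / 2 : ℝ) ≤
      k.factorial * ((∫⁻ θ, ‖ev e (circleMap 0 ρ θ)‖ₑ ^ (2 : ℝ) ∂mu) ^ (1 / 2 : ℝ) +
        (∫⁻ θ in Vᶜ, ‖ev p (circleMap 0 ρ θ)‖ₑ ^ (2 : ℝ) ∂mu) ^ (1 / 2 : ℝ)) +
      k.factorial * (ENNReal.ofReal (k.factorial * K * fr A (ρ ^ 2) ^ (k - 1))) ^ (1 / 2 : ℝ) := by
  classical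
  have hnorm : ∀ θ : ℝ, ‖circleMap 0 ρ θ‖ < 1 := by
    intro θ
    rw [norm_circleMap_zero, abs_of_nonneg h0]; exact h1
  have hme : Measurable fun θ : ℝ => ‖ev e (circleMap 0 ρ θ)‖ₑ := (ev_cont he h0 h1).measurable.enorm
  have hmp : Measurable fun θ : ℝ => ‖ev p (circleMap 0 ρ θ)‖ₑ := (ev_cont hp h0 h1).measurable.enorm
  have hmF : ∀ σ : Equiv.Perm (Fin k), Measurable fun θ : ℝ => ‖ev (Fs A σ) (circleMap 0 ρ θ)‖ₑ :=
    fun σ => (ev_cont (conv_Fs A σ) h0 h1).measurable.enorm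
  obtain ⟨E, hE⟩ : ∃ E : Finset (Equiv.Perm (Fin k)), E = Finset.univ.erase 1 := ⟨_, rfl⟩
  have hpt : ∀ θ : ℝ, ‖ev (ind A) (circleMap 0 ρ θ)‖ₑ ^ k ≤
      k.factorial * (‖ev e (circleMap 0 ρ θ)‖ₑ + ‖ev p (circleMap 0 ρ θ)‖ₑ) +
        ∑ σ ∈ E, ‖ev (Fs A σ) (circleMap 0 ρ θ)‖ₑ := by
    intro θ
    obtain ⟨z, hz⟩ : ∃ z : ℂ, z = circleMap 0 ρ θ := ⟨_, rfl⟩
    rw [← hz]
    have hz1 : ‖z‖ < 1 := by rw [hz]; exact hnorm θ
    have ha := pointwise A (Mo (k := k)) (fun _ => 1) hstab le_rfl (fun σ _ => by norm_num) hz1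
    rw [← hE] at ha
    have hc := ENNReal.ofReal_le_ofReal ha
    rw [ENNReal.ofReal_add (by positivity) (Finset.sum_nonneg fun _ _ => norm_nonneg _),
      ENNReal.ofReal_pow (norm_nonneg _), ENNReal.ofReal_sum_of_nonneg (fun _ _ => norm_nonneg _),
      ENNReal.ofReal_mul (by positivity), ENNReal.ofReal_natCast] at hc
    simp only [ofReal_norm] at hc
    refine hc.trans (add_le_add (mul_le_mul' le_rfl ?_) le_rfl)
    rw [hep, ev_add he hp hz1]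
    exact enorm_add_le _ _
  have h2 : ∫⁻ θ in Vᶜ, (‖ev (ind A) (circleMap 0 ρ θ)‖ₑ ^ k) ^ (2 : ℝ) ∂mu ≤
      ∫⁻ θ in Vᶜ, (k.factorial * (‖ev e (circleMap 0 ρ θ)‖ₑ + ‖ev p (circleMap 0 ρ θ)‖ₑ) +
        ∑ σ ∈ E, ‖ev (Fs A σ) (circleMap 0 ρ θ)‖ₑ) ^ (2 : ℝ) ∂mu :=
    lintegral_mono fun θ => ENNReal.rpow_le_rpow (hpt θ) (by norm_num)
  refine (ENNReal.rpow_le_rpow h2 (by norm_num)).trans ?_
  refine (L2_add (mu.restrict Vᶜ) ((hme.add hmp).const_mul _)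
    (Finset.measurable_fun_sum E fun σ _ => hmF σ)).trans ?_
  apply add_le_add
  · rw [L2_const _ _ (hme.add hmp)]
    apply mul_le_mul' le_rfl
    refine (L2_add (mu.restrict Vᶜ) hme hmp).trans (add_le_add ?_ le_rfl)
    exact ENNReal.rpow_le_rpow (setLIntegral_le_lintegral _ _) (by norm_num)
  · refine (L2_sum (mu.restrict Vᶜ) E (fun σ θ => ‖ev (Fs A σ) (circleMap 0 ρ θ)‖ₑ) hmF).trans ?_
    have h3 : ∀ σ ∈ E, (∫⁻ θ in Vᶜ, ‖ev (Fs A σ) (circleMap 0 ρ θ)‖ₑ ^ (2 : ℝ) ∂mu) ^ (1 / 2 : ℝ) ≤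
        (ENNReal.ofReal (k.factorial * K * fr A (ρ ^ 2) ^ (k - 1))) ^ (1 / 2 : ℝ) := by
      intro σ hσ
      apply ENNReal.rpow_le_rpow _ (by norm_num)
      rw [hE] at hσ
      exact (setLIntegral_le_lintegral _ _).trans (lint_Fs A hK σ (Finset.ne_of_mem_erase hσ) h0 h1 hf)
    refine (Finset.sum_le_sum h3).trans ?_
    rw [Finset.sum_const, nsmul_eq_mul]
    apply mul_le_mul' _ le_rfl
    have : E.card ≤ k.factorial := by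
      rw [hE]
      refine (Finset.card_erase_le).trans (le_of_eq ?_)
      rw [Finset.card_univ, Fintype.card_perm, Fintype.card_fin]
    exact_mod_cast this

theorem lint_mom (A : Set ℕ) (m : ℕ) {ρ : ℝ} (h0 : 0 ≤ ρ) (h1 : ρ < 1) :
    ∫⁻ θ, (‖ev (ind A) (circleMap 0 ρ θ)‖ₑ ^ m) ^ (2 : ℝ) ∂mu = ENNReal.ofReal (mom A m (ρ ^ 2)) := by
  have hnorm : ∀ θ : ℝ, ‖circleMap 0 ρ θ‖ < 1 := by
    intro θ
    rw [norm_circleMap_zero, abs_of_nonneg h0]; exact h1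
  have h2 := lint_parseval (conv_Fs A (1 : Equiv.Perm (Fin m))) h0 h1
  have h3 : ∀ θ : ℝ, ‖ev (Fs A (1 : Equiv.Perm (Fin m))) (circleMap 0 ρ θ)‖ₑ ^ (2 : ℝ) =
      (‖ev (ind A) (circleMap 0 ρ θ)‖ₑ ^ m) ^ (2 : ℝ) := by
    intro θ
    rw [ev_Fs_one A (hnorm θ), enorm_pow]
  rw [lintegral_congr h3] at h2
  rw [h2]
  congr 1
  unfold mom
  refine tsum_congr fun n => ?_
  rw [coeff_Fs_one, Complex.norm_natCast]

/-- The lower bound outside a small set of angles. -/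
theorem core_low (A : Set ℕ) (j : ℕ) {ρ : ℝ} (h0 : 0 ≤ ρ) (h1 : ρ < 1) {V : Set ℝ}
    (hV : MeasurableSet V) :
    ENNReal.ofReal (mom A (j + 1) (ρ ^ 2)) ≤
      (ENNReal.ofReal (mom A (j + 2) (ρ ^ 2))) ^ (((j : ℝ) + 1) / (j + 2)) *
        (mu V) ^ (1 / ((j : ℝ) + 2)) +
      (∫⁻ θ in Vᶜ, (‖ev (ind A) (circleMap 0 ρ θ)‖ₑ ^ (j + 2)) ^ (2 : ℝ) ∂mu) ^ (1 / 2 : ℝ) *
        (ENNReal.ofReal (mom A j (ρ ^ 2))) ^ (1 / 2 : ℝ) := by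
  have hm : Measurable fun θ : ℝ => ‖ev (ind A) (circleMap 0 ρ θ)‖ₑ :=
    (ev_cont (conv_ind A) h0 h1).measurable.enorm
  have hj : (0 : ℝ) ≤ j := Nat.cast_nonneg j
  rw [← lint_mom A (j + 1) h0 h1, ← lint_mom A (j + 2) h0 h1, ← lint_mom A j h0 h1,
    ← lintegral_add_compl _ hV]
  apply add_le_add
  · have hconj : Real.HolderConjugate (((j : ℝ) + 2) / (j + 1)) ((j : ℝ) + 2) := by
      rw [Real.holderConjugate_iff]
      constructor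
      · rw [lt_div_iff₀ (by positivity)]; linarith
      · field_simp; ring
    have h := ENNReal.lintegral_mul_le_Lp_mul_Lq (mu.restrict V) hconj
      (f := fun θ : ℝ => (‖ev (ind A) (circleMap 0 ρ θ)‖ₑ ^ (j + 1)) ^ (2 : ℝ)) (g := fun _ => 1)
      ((hm.pow_const _).pow_const _).aemeasurable aemeasurable_const
    simp only [Pi.mul_apply, mul_one, ENNReal.one_rpow, lintegral_const, one_mul,
      Measure.restrict_apply MeasurableSet.univ, Set.univ_inter] at h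
    have e1 : ∀ θ : ℝ, ((‖ev (ind A) (circleMap 0 ρ θ)‖ₑ ^ (j + 1)) ^ (2 : ℝ)) ^
        (((j : ℝ) + 2) / (j + 1)) = (‖ev (ind A) (circleMap 0 ρ θ)‖ₑ ^ (j + 2)) ^ (2 : ℝ) := by
      intro θ
      rw [← ENNReal.rpow_natCast, ← ENNReal.rpow_natCast, ← ENNReal.rpow_mul, ← ENNReal.rpow_mul,
        ← ENNReal.rpow_mul]
      congr 1
      push_cast
      field_simp
    simp_rw [e1] at h
    have e2 : 1 / (((j : ℝ) + 2) / (j + 1)) = ((j : ℝ) + 1) / (j + 2) := by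
      rw [one_div_div]
    rw [e2] at h
    refine h.trans (mul_le_mul' ?_ le_rfl)
    exact ENNReal.rpow_le_rpow (setLIntegral_le_lintegral _ _) (by positivity)
  · have h := ENNReal.lintegral_mul_le_Lp_mul_Lq (mu.restrict Vᶜ) (p := 2) (q := 2)
      (f := fun θ : ℝ => ‖ev (ind A) (circleMap 0 ρ θ)‖ₑ ^ (j + 2))
      (g := fun θ : ℝ => ‖ev (ind A) (circleMap 0 ρ θ)‖ₑ ^ j)
      (by constructor <;> norm_num) (hm.pow_const _).aemeasurable (hm.pow_const _).aemeasurable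
    simp only [Pi.mul_apply] at h
    have e1 : ∀ θ : ℝ, (‖ev (ind A) (circleMap 0 ρ θ)‖ₑ ^ (j + 1)) ^ (2 : ℝ) =
        ‖ev (ind A) (circleMap 0 ρ θ)‖ₑ ^ (j + 2) * ‖ev (ind A) (circleMap 0 ρ θ)‖ₑ ^ j := by
      intro θ
      rw [ENNReal.rpow_two, ← pow_mul, ← pow_add]
      congr 1
      ring
    simp_rw [← e1] at h
    refine h.trans (mul_le_mul' le_rfl ?_)
    exact ENNReal.rpow_le_rpow (setLIntegral_le_lintegral _ _) (by norm_num)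

end Pool.Agent.H303R3.ET
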