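import Pool.Agent.H303R3.ET.HMain

set_option autoImplicit false

/-!
# Bases of any order and functions with concentrated generating function: conclusion
-/

open Filter Topology MeasureTheory
open scoped ENNReal

namespace Pool.Agent.H303R3.ET

theorem psi_cont (k K : ℕ) (κ D1 c0 a b r : ℝ) (hr : 0 ≤ r) :
    Continuous fun p : ℝ × ℝ => (yy k K κ D1 c0 p.1 p.2) ^ 2 + a * p.2 + b * p.1 ^ r := by
  have h1 : Continuous fun p : ℝ × ℝ => p.1 ^ r := (Real.continuous_rpow_const hr).comp continuous_fst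
  unfold yy
  fun_prop

theorem psi_zero (k K : ℕ) {κ : ℝ} (hκ : 0 ≤ κ) (D1 c0 : ℝ) :
    (yy k K κ D1 c0 0 0) ^ 2 = k.factorial * κ := by
  have hkf : (0 : ℝ) < k.factorial := by exact_mod_cast Nat.factorial_pos k
  unfold yy
  simp only [mul_zero, add_zero, mul_one, zero_div, Real.sqrt_zero]
  rw [mul_pow, Real.sq_sqrt (by positivity)]
  field_simp

theorem h_main {j : ℕ} {A : Set ℕ} {n1 : ℕ} (hb : ∀ n, n1 ≤ n → 1 ≤ Rn A (Mo (k := j + 2)) n)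
    {K : ℕ} (hK : ∀ n, Rn A (Mo (k := j + 2)) n ≤ K) {P : ℕ → ℝ} (hP : Conc P) {κ : ℝ}
    (hκ : κ < 1 - 1 / ((j : ℝ) + 2))
    (hd : ∀ᶠ N : ℕ in atTop, ∑ n ∈ Finset.range N, ((Rn A (Mo (k := j + 2)) n : ℝ) - P n) ^ 2 ≤
      κ * ∑ n ∈ Finset.range N, (Rn A (Mo (k := j + 2)) n : ℝ)) : False := by
  classical
  have hj : (0 : ℝ) ≤ j := Nat.cast_nonneg j
  have hj2 : 1 / ((j : ℝ) + 2) ≤ 1 / 2 := one_div_le_one_div_of_le (by norm_num) (by linarith)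
  have hj3 : 0 < 1 / ((j : ℝ) + 2) := by positivity
  obtain ⟨κ', hκ'⟩ : ∃ κ' : ℝ, κ' = max κ 0 := ⟨_, rfl⟩
  have hκ0 : 0 ≤ κ' := by rw [hκ']; exact le_max_right _ _
  have hκκ : κ ≤ κ' := by rw [hκ']; exact le_max_left _ _
  have hκ1 : κ' < 1 - 1 / ((j : ℝ) + 2) := by rw [hκ']; exact max_lt hκ (by linarith)
  -- `A` is nonempty
  have hne : A.Nonempty := by
    have h1 := hb n1 le_rfl
    have h2 : 0 < (tup A (j + 2) n1).card := lt_of_lt_of_le (by omega) (h1.trans (Rn_le A _ n1))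
    obtain ⟨x, hx⟩ := Finset.card_pos.mp h2
    exact ⟨x 0, (mem_tup.mp hx).1 0⟩
  obtain ⟨K', hK'⟩ : ∃ K' : ℕ, K' = (j + 2).factorial * K := ⟨_, rfl⟩
  have htop : ∀ n, (tup A (j + 2) n).card ≤ K' := fun n => by
    rw [hK']; exact (tup_le (k := j + 2) A n).trans (Nat.mul_le_mul_left _ (hK n))
  have hbd : ∀ i, i ≤ j + 2 → ∀ n, (tup A i n).card ≤ K' := fun i hi n =>
    tup_bd hne htop (j + 2 - i) i (by omega) n
  obtain ⟨C', hC'0, hC'⟩ := mom_low hbd (j + 1) (by omega)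
  obtain ⟨C, hC⟩ : ∃ C : ℝ, C = (j + 1) * K' * (j + 1).factorial := ⟨_, rfl⟩
  have hC0 : 0 ≤ C := by rw [hC]; positivity
  obtain ⟨D1, hD10, hD1⟩ := ev_bound (c := fun n => ((Rn A (Mo (k := j + 2)) n : ℝ) - P n) ^ 2 -
    κ' * Rn A (Mo (k := j + 2)) n) (B := 0)
    (by
      filter_upwards [hd] with N hN
      rw [Finset.sum_sub_distrib, ← Finset.mul_sum, zero_mul]
      have h1 : 0 ≤ ∑ n ∈ Finset.range N, (Rn A (Mo (k := j + 2)) n : ℝ) :=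
        Finset.sum_nonneg fun _ _ => Nat.cast_nonneg _
      nlinarith)
  obtain ⟨M, hM⟩ : ∃ M : ℝ, M = ((j + 2).factorial * K : ℝ) ^ 2 / (1 / 2) + 1 := ⟨_, rfl⟩
  -- choice of the parameters
  have hψc := psi_cont (j + 2) K κ' D1 (1 / 2) (((j + 1 : ℕ) : ℝ) * (C + C'))
    (((j + 1 : ℕ) : ℝ) * (2 * M)) (1 / ((j : ℝ) + 2)) (by positivity)
  have hψ0 : (yy (j + 2) K κ' D1 (1 / 2) 0 0) ^ 2 + ((j + 1 : ℕ) : ℝ) * (C + C') * 0 +
      ((j + 1 : ℕ) : ℝ) * (2 * M) * (0 : ℝ) ^ (1 / ((j : ℝ) + 2)) <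
      ((j + 1 : ℕ) : ℝ) * (j + 1).factorial := by
    rw [psi_zero _ _ hκ0, Real.zero_rpow (by positivity), mul_zero, mul_zero, add_zero, add_zero,
      Nat.factorial_succ (j + 1)]
    push_cast
    have hjf : (0 : ℝ) < (j + 1).factorial := by exact_mod_cast Nat.factorial_pos (j + 1)
    have h1 : ((j : ℝ) + 2) * κ' < j + 1 := by
      have h2 : ((j : ℝ) + 2) * κ' < ((j : ℝ) + 2) * (1 - 1 / ((j : ℝ) + 2)) :=
        mul_lt_mul_of_pos_left hκ1 (by positivity)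
      have h3 : ((j : ℝ) + 2) * (1 - 1 / ((j : ℝ) + 2)) = j + 1 := by field_simp; ring
      linarith
    nlinarith
  have hev := (hψc.tendsto (0, 0)).eventually_lt_const hψ0
  obtain ⟨δ, hδ, hψ⟩ := Metric.eventually_nhds_iff.mp hev
  obtain ⟨ε, hε⟩ : ∃ ε : ℝ, ε = δ / 2 := ⟨_, rfl⟩
  have hε0 : 0 < ε := by rw [hε]; positivity
  obtain ⟨F, hF⟩ : ∃ F : ℝ, F = 1 + 2 / δ := ⟨_, rfl⟩
  have hF1 : 1 ≤ F := by
    have : 0 < 2 / δ := by positivity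
    rw [hF]; linarith
  have hIoo : ∀ᶠ ρ : ℝ in 𝓝[<] 1, ρ ∈ Set.Ioo (0 : ℝ) 1 :=
    Ioo_mem_nhdsLT (show (0 : ℝ) < 1 by norm_num)
  have hpow : ∀ᶠ ρ : ℝ in 𝓝[<] 1, 1 / 2 ≤ (ρ ^ 2) ^ n1 := by
    have h1 : Tendsto (fun ρ : ℝ => (ρ ^ 2) ^ n1) (𝓝 1) (𝓝 (((1 : ℝ) ^ 2) ^ n1)) := by
      apply Continuous.tendsto
      fun_prop
    rw [one_pow, one_pow] at h1
    exact ((h1.eventually_const_lt (show (1 / 2 : ℝ) < 1 by norm_num)).mono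
      fun _ h => h.le).filter_mono nhdsWithin_le_nhds
  have hex := ((hP ε hε0).and_eventually (hIoo.and (hpow.and
    (tendsto_T.eventually_ge_atTop (2 * F ^ (j + 2)))))).exists
  obtain ⟨ρ, ⟨V, hV, hV1, hρ1⟩, hρ2, hρ3, hρ4⟩ := hex
  obtain ⟨h0, h1⟩ := hρ2
  have hq0 : 0 ≤ ρ ^ 2 := by positivity
  have hq1 : ρ ^ 2 < 1 := by nlinarith
  have hT0 : 0 < (1 - ρ ^ 2)⁻¹ := by
    have : 0 < 1 - ρ ^ 2 := by linarith
    positivity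
  have hlow : 1 / 2 * (1 - ρ ^ 2)⁻¹ ≤ fr A (ρ ^ 2) ^ (j + 2) := by
    refine le_trans ?_ (fr_lower (k := j + 2) A hb hq0 hq1)
    exact mul_le_mul_of_nonneg_right hρ3 hT0.le
  have hfr0 := fr_nonneg A hq0
  have hFf : F ≤ fr A (ρ ^ 2) := by
    have h2 : F ^ (j + 2) ≤ fr A (ρ ^ 2) ^ (j + 2) := by linarith
    exact le_of_pow_le_pow_left₀ (by omega) hfr0 h2
  have hf1 : 1 ≤ fr A (ρ ^ 2) := hF1.trans hFf
  have hf0 : 0 < fr A (ρ ^ 2) := by linarith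
  have H2 : ((j + 1 : ℕ) : ℝ) * (fr A (ρ ^ 2) * mom A j (ρ ^ 2)) ≤ mom A (j + 1) (ρ ^ 2) +
      C * fr A (ρ ^ 2) ^ j := by
    have h2 := mom_rec (hbd j (by omega)) (hbd (j + 1) (by omega)) hq0 hq1 hf1
    rw [hC]
    push_cast
    exact h2
  have H3 : ((j + 1).factorial : ℝ) * (fr A (ρ ^ 2) * fr A (ρ ^ 2) ^ j) ≤ mom A (j + 1) (ρ ^ 2) +
      C' * fr A (ρ ^ 2) ^ j := by
    have h2 := hC' (ρ ^ 2) hq0 hq1 hf1
    have h3 : fr A (ρ ^ 2) * (((j + 1).factorial : ℝ) * (fr A (ρ ^ 2) * fr A (ρ ^ 2) ^ j)) ≤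
        fr A (ρ ^ 2) * (mom A (j + 1) (ρ ^ 2) + C' * fr A (ρ ^ 2) ^ j) := by
      calc _ = ((j + 1).factorial : ℝ) * fr A (ρ ^ 2) ^ (j + 1 + 1) := by ring
        _ ≤ _ := h2
        _ = _ := by ring
    exact le_of_mul_le_mul_left h3 hf0
  have hres := h_rad hK hκ0 (by linarith) hD10 (fun N => by
    have := hD1 N
    rwa [zero_mul, zero_add] at this) h0.le h1 hV hV1 hε0.le hρ1 (by norm_num) hlow hf1 hC0 H2 H3
  rw [← hM] at hres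
  have hψ1 := hψ (y := (ε, 1 / fr A (ρ ^ 2))) (by
    rw [Prod.dist_eq, max_lt_iff]
    constructor
    · rw [Real.dist_eq, sub_zero, abs_of_pos hε0, hε]; linarith
    · rw [Real.dist_eq, sub_zero, abs_of_pos (by positivity), div_lt_iff₀ hf0]
      have h2 : 1 + 2 / δ ≤ fr A (ρ ^ 2) := by rw [← hF]; exact hFf
      have h3 : δ * (1 + 2 / δ) ≤ δ * fr A (ρ ^ 2) := mul_le_mul_of_nonneg_left h2 hδ.le
      have h4 : δ * (1 + 2 / δ) = δ + 2 := by field_simp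
      linarith)
  simp only at hψ1
  have h5 := mul_lt_mul_of_pos_right hψ1 hf0
  have h6 : ((yy (j + 2) K κ' D1 (1 / 2) ε (1 / fr A (ρ ^ 2))) ^ 2 +
      ((j + 1 : ℕ) : ℝ) * (C + C') * (1 / fr A (ρ ^ 2)) +
      ((j + 1 : ℕ) : ℝ) * (2 * M) * ε ^ (1 / ((j : ℝ) + 2))) * fr A (ρ ^ 2) =
      (yy (j + 2) K κ' D1 (1 / 2) ε (1 / fr A (ρ ^ 2))) ^ 2 * fr A (ρ ^ 2) +
      ((j + 1 : ℕ) : ℝ) * (C + C') +
      ((j + 1 : ℕ) : ℝ) * (2 * (M * ε ^ (1 / ((j : ℝ) + 2))) * fr A (ρ ^ 2)) := by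
    field_simp
  rw [h6] at h5
  linarith

end Pool.Agent.H303R3.ET
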