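import Pool.Agent.H303R3.ET.HCore

set_option autoImplicit false

/-!
# Bases of any order and functions with concentrated generating function: the final argument
-/

open Filter Topology MeasureTheory
open scoped ENNReal

namespace Pool.Agent.H303R3.ET

theorem Rr_up {k : ℕ} (A : Set ℕ) {q : ℝ} (h0 : 0 ≤ q) (h1 : q < 1) (hf : 1 ≤ fr A q) :
    k.factorial * Rr A (Mo (k := k)) q ≤ fr A q ^ k + k.factorial * fr A q ^ (k - 1) := by
  classical
  have hs : ∀ σ : Equiv.Perm (Fin k), Summable fun n => ‖PowerSeries.coeff n (Fs A σ)‖ * q ^ n :=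
    fun σ => conv_Fs A σ q h0 h1
  have hsum : HasSum (fun n => ∑ σ : Equiv.Perm (Fin k), ‖PowerSeries.coeff n (Fs A σ)‖ * q ^ n)
      (∑ σ : Equiv.Perm (Fin k), ∑' n, ‖PowerSeries.coeff n (Fs A σ)‖ * q ^ n) :=
    hasSum_sum fun σ _ => (hs σ).hasSum
  have hpt : ∀ n, (k.factorial : ℝ) * ((Rn A (Mo (k := k)) n : ℝ) * q ^ n) =
      ∑ σ : Equiv.Perm (Fin k), ‖PowerSeries.coeff n (Fs A σ)‖ * q ^ n := by
    intro n
    have hb := burnside A n (Mo (k := k)) (fun _ => 1) hstab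
    have hb' : (k.factorial : ℝ) * (Rn A (Mo (k := k)) n : ℝ) =
        ∑ σ : Equiv.Perm (Fin k), ‖PowerSeries.coeff n (Fs A σ)‖ := by
      simp only [Fs_coeff_card]
      unfold Rn
      simp only [one_mul] at hb
      exact_mod_cast hb
    rw [← Finset.sum_mul, ← hb', mul_assoc]
  have h2 : (k.factorial : ℝ) * Rr A (Mo (k := k)) q =
      ∑ σ : Equiv.Perm (Fin k), ∑' n, ‖PowerSeries.coeff n (Fs A σ)‖ * q ^ n := by
    unfold Rr
    rw [← tsum_mul_left, tsum_congr hpt, hsum.tsum_eq]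
  rw [h2, ← Finset.add_sum_erase Finset.univ _ (Finset.mem_univ (1 : Equiv.Perm (Fin k)))]
  apply add_le_add
  · refine le_of_eq ?_
    rw [← fr_pow (k := k) A h0 h1]
    refine tsum_congr fun n => ?_
    rw [coeff_Fs_one, Complex.norm_natCast]
  · calc ∑ σ ∈ Finset.univ.erase (1 : Equiv.Perm (Fin k)),
          ∑' n, ‖PowerSeries.coeff n (Fs A σ)‖ * q ^ n
        ≤ ∑ _σ ∈ Finset.univ.erase (1 : Equiv.Perm (Fin k)), fr A q ^ (k - 1) := by
          apply Finset.sum_le_sum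
          intro σ hσ
          exact tsum_Fs A σ (Finset.ne_of_mem_erase hσ) h0 h1 hf
      _ = (Finset.univ.erase (1 : Equiv.Perm (Fin k))).card * fr A q ^ (k - 1) := by
          rw [Finset.sum_const, nsmul_eq_mul]
      _ ≤ k.factorial * fr A q ^ (k - 1) := by
          apply mul_le_mul_of_nonneg_right _ (pow_nonneg (fr_nonneg A h0) _)
          have : (Finset.univ.erase (1 : Equiv.Perm (Fin k))).card ≤ k.factorial := by
            refine (Finset.card_erase_le).trans (le_of_eq ?_)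
            rw [Finset.card_univ, Fintype.card_perm, Fintype.card_fin]
          exact_mod_cast this

theorem growthK {r : ℕ → ℕ} {K : ℕ} (hr : ∀ n, r n ≤ K) {P : ℕ → ℝ} {κ D : ℝ} (hκ1 : κ ≤ 1)
    (hD : 0 ≤ D) (h : ∀ N : ℕ, ∑ n ∈ Finset.range N, (((r n : ℝ) - P n) ^ 2 - κ * r n) ≤ D) (n : ℕ) :
    |(r n : ℝ) - P n| ≤ (D + K + 1) * ((n : ℝ) + 1) ^ 2 ∧
      |P n| ≤ (D + 2 * K + 1) * ((n : ℝ) + 1) ^ 2 := by
  have hrK : ∀ m, (r m : ℝ) ≤ K := fun m => by exact_mod_cast hr m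
  have hn0 : (0 : ℝ) ≤ n := Nat.cast_nonneg n
  have h1 := h (n + 1)
  rw [Finset.sum_sub_distrib] at h1
  have h2 : ((r n : ℝ) - P n) ^ 2 ≤ ∑ m ∈ Finset.range (n + 1), ((r m : ℝ) - P m) ^ 2 :=
    Finset.single_le_sum (f := fun m => ((r m : ℝ) - P m) ^ 2) (fun _ _ => sq_nonneg _)
      (Finset.mem_range.mpr (Nat.lt_succ_self n))
  have h3 : ∑ m ∈ Finset.range (n + 1), κ * (r m : ℝ) ≤ K * ((n : ℝ) + 1) := by
    calc ∑ m ∈ Finset.range (n + 1), κ * (r m : ℝ) ≤ ∑ m ∈ Finset.range (n + 1), (K : ℝ) := by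
          apply Finset.sum_le_sum
          intro m _
          have h5 : (0 : ℝ) ≤ r m := Nat.cast_nonneg _
          have := hrK m
          nlinarith
      _ = K * ((n : ℝ) + 1) := by
          rw [Finset.sum_const, Finset.card_range, nsmul_eq_mul]
          push_cast
          ring
  have hK0 : (0 : ℝ) ≤ K := Nat.cast_nonneg K
  have hn1 : (n : ℝ) + 1 ≤ ((n : ℝ) + 1) ^ 2 := by nlinarith
  have hn2 : (1 : ℝ) ≤ ((n : ℝ) + 1) ^ 2 := by nlinarith
  have h4 : ((r n : ℝ) - P n) ^ 2 ≤ K * ((n : ℝ) + 1) + D := by linarith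
  have h5 : |(r n : ℝ) - P n| ≤ 1 + ((r n : ℝ) - P n) ^ 2 := by
    have := sq_abs ((r n : ℝ) - P n)
    nlinarith [sq_nonneg (|(r n : ℝ) - P n| - 1), abs_nonneg ((r n : ℝ) - P n)]
  have h6 : D ≤ D * ((n : ℝ) + 1) ^ 2 := by nlinarith
  have h6' : K * ((n : ℝ) + 1) ≤ K * ((n : ℝ) + 1) ^ 2 := mul_le_mul_of_nonneg_left hn1 hK0
  have h7 : |(r n : ℝ) - P n| ≤ (D + K + 1) * ((n : ℝ) + 1) ^ 2 := by
    have : (D + K + 1) * ((n : ℝ) + 1) ^ 2 = D * ((n : ℝ) + 1) ^ 2 + K * ((n : ℝ) + 1) ^ 2 +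
      ((n : ℝ) + 1) ^ 2 := by ring
    linarith
  refine ⟨h7, ?_⟩
  have h8 : |P n| ≤ |(r n : ℝ) - P n| + |(r n : ℝ)| := by
    have := abs_sub_abs_le_abs_sub (P n) (r n : ℝ)
    rw [abs_sub_comm] at this
    linarith
  have h9 : |(r n : ℝ)| ≤ K * ((n : ℝ) + 1) ^ 2 := by
    rw [abs_of_nonneg (Nat.cast_nonneg _)]
    have := hrK n
    nlinarith
  have : (D + 2 * K + 1) * ((n : ℝ) + 1) ^ 2 = (D + K + 1) * ((n : ℝ) + 1) ^ 2 +
    K * ((n : ℝ) + 1) ^ 2 := by ring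
  linarith

theorem alg_h {g : ℕ} {f u m1 m0 x s C C' Y G : ℝ} (hf : 1 ≤ f) (hu : 0 < u)
    (hm0 : 0 ≤ m0) (hs : 0 ≤ s) (hC : 0 ≤ C) (hY : 0 ≤ Y)
    (H1 : m1 ≤ s * (f * u) + x * Real.sqrt m0)
    (H2 : (g : ℝ) * (f * m0) ≤ m1 + C * u) (H3 : G * (f * u) ≤ m1 + C' * u)
    (H4 : x ^ 2 ≤ Y * (f ^ 2 * u)) :
    (g : ℝ) * (G * f - (C + C') - 2 * s * f) ≤ Y * f := by
  have hg : (0 : ℝ) ≤ g := Nat.cast_nonneg g
  have hf0 : 0 < f := by linarith
  have hfu : 0 < f * u := by positivity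
  by_cases hm : m1 ≤ s * (f * u)
  · have h2 : (G * f) * u ≤ (s * f + C') * u := by
      have : (G * f) * u = G * (f * u) := by ring
      rw [this]
      have : (s * f + C') * u = s * (f * u) + C' * u := by ring
      rw [this]
      linarith
    have h3 : G * f ≤ s * f + C' := le_of_mul_le_mul_right h2 hu
    have h4 : G * f - (C + C') - 2 * s * f ≤ 0 := by
      have : 0 ≤ s * f := by positivity
      linarith
    have h5 : (g : ℝ) * (G * f - (C + C') - 2 * s * f) ≤ 0 := mul_nonpos_of_nonneg_of_nonpos hg h4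
    have h6 : 0 ≤ Y * f := by positivity
    linarith
  · push Not at hm
    obtain ⟨d, hd⟩ : ∃ d : ℝ, d = m1 - s * (f * u) := ⟨_, rfl⟩
    have hd0 : 0 < d := by rw [hd]; linarith
    have hdx : d ≤ x * Real.sqrt m0 := by rw [hd]; linarith
    have hd2 : d ^ 2 ≤ x ^ 2 * m0 := by
      calc d ^ 2 ≤ (x * Real.sqrt m0) ^ 2 := pow_le_pow_left₀ hd0.le hdx 2
        _ = x ^ 2 * m0 := by rw [mul_pow, Real.sq_sqrt hm0]
    have hd3 : d ^ 2 ≤ Y * (f ^ 2 * u) * m0 := hd2.trans (mul_le_mul_of_nonneg_right H4 hm0)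
    have hd4 : (g : ℝ) * d ^ 2 ≤ Y * (f * u) * (m1 + C * u) := by
      calc (g : ℝ) * d ^ 2 ≤ g * (Y * (f ^ 2 * u) * m0) := mul_le_mul_of_nonneg_left hd3 hg
        _ = Y * (f * u) * (g * (f * m0)) := by ring
        _ ≤ Y * (f * u) * (m1 + C * u) := mul_le_mul_of_nonneg_left H2 (by positivity)
    have hpos : 0 < m1 + C * u := by
      have : 0 ≤ s * (f * u) := by positivity
      have : 0 ≤ C * u := by positivity
      linarith
    have hd5 : (m1 - 2 * (s * (f * u)) - C * u) * (m1 + C * u) ≤ d ^ 2 := by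
      rw [hd]
      nlinarith [sq_nonneg (s * (f * u) + C * u)]
    have hd6 : (g * (m1 - 2 * (s * (f * u)) - C * u)) * (m1 + C * u) ≤
        (Y * (f * u)) * (m1 + C * u) := by
      calc (g * (m1 - 2 * (s * (f * u)) - C * u)) * (m1 + C * u) =
            g * ((m1 - 2 * (s * (f * u)) - C * u) * (m1 + C * u)) := by ring
        _ ≤ g * d ^ 2 := mul_le_mul_of_nonneg_left hd5 hg
        _ ≤ _ := hd4
    have hd7 := le_of_mul_le_mul_right hd6 hpos
    have hd8 : (g : ℝ) * (G * (f * u) - C' * u - 2 * (s * (f * u)) - C * u) ≤ Y * (f * u) := by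
      refine le_trans (mul_le_mul_of_nonneg_left ?_ hg) hd7
      linarith
    have hd9 : ((g : ℝ) * (G * f - (C + C') - 2 * s * f)) * u ≤ (Y * f) * u := by
      calc _ = (g : ℝ) * (G * (f * u) - C' * u - 2 * (s * (f * u)) - C * u) := by ring
        _ ≤ Y * (f * u) := hd8
        _ = _ := by ring
    exact le_of_mul_le_mul_right hd9 hu

end Pool.Agent.H303R3.ET
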