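import Pool.Agent.H303R3.ET.Shift

set_option autoImplicit false

/-!
# Shifts of bounded representation functions: final form for two summands
-/

open Filter Topology MeasureTheory
open scoped ENNReal

namespace Pool.Agent.H303R3.ET

/-- all tuples -/
def Al : (Fin 2 → ℕ) → Prop := fun _ => True

theorem Rn_true (A : Set ℕ) (n : ℕ) : Rn A Al n = rep A n := by
  classical
  have h1 : Rn A Al n = (tup A 2 n).card := by
    unfold Rn
    congr 1
    rw [Finset.filter_eq_self]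
    intro _ _
    trivial
  rw [h1]
  have h2 := coeff_Fs_one (k := 2) A n
  rw [Fs_one, sq, coeff_ind_sq] at h2
  exact_mod_cast h2.symm

theorem all_chi (a : Fin 2 → ℕ) : ((open Classical in Finset.card
    {τ : Equiv.Perm (Fin 2) | Al (a ∘ τ)} : ℕ) : ℤ) =
      ∑ σ ∈ stab a, (fun σ : Equiv.Perm (Fin 2) => if σ = 1 then ((2 : ℕ).factorial : ℤ) else 0) σ := by
  classical
  have h1 : ({τ : Equiv.Perm (Fin 2) | Al (a ∘ τ)} : Finset _) = Finset.univ := by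
    rw [Finset.filter_eq_self]
    intro τ _
    trivial
  rw [h1, Finset.card_univ, Fintype.card_perm, Fintype.card_fin, Finset.sum_ite_eq']
  rw [if_pos]
  rw [mem_stab]
  rfl

theorem fr_ge_quad {A : Set ℕ} (hA : A.Infinite) {C : ℝ} (hC : 1 ≤ C)
    (h : ∀ n, (Nat.nth (· ∈ A) n : ℝ) ≤ C * ((n : ℝ) + 1) ^ 2) {q : ℝ} (h0 : 0 ≤ q) (h1 : q < 1)
    {M : ℕ} (hM : C * (M : ℝ) ^ 2 ≤ (1 - q)⁻¹ / 2) : (M : ℝ) / 2 ≤ fr A q := by
  classical
  have hinj : Function.Injective (Nat.nth (· ∈ A)) := Nat.nth_injective hA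
  have hq : 0 < 1 - q := by linarith
  have key : ∀ i ∈ Finset.range M, (1 / 2 : ℝ) ≤
      (if Nat.nth (· ∈ A) i ∈ A then (1 : ℝ) else 0) * q ^ Nat.nth (· ∈ A) i := by
    intro i hi
    have hmem : Nat.nth (· ∈ A) i ∈ A := Nat.nth_mem_of_infinite hA i
    rw [if_pos hmem, one_mul]
    obtain ⟨a, ha⟩ : ∃ a, a = Nat.nth (· ∈ A) i := ⟨_, rfl⟩
    have hai := h i
    rw [← ha] at hai ⊢
    have hiM : ((i : ℝ) + 1) ≤ M := by
      have := Finset.mem_range.mp hi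
      exact_mod_cast this
    have h2 : (a : ℝ) ≤ C * (M : ℝ) ^ 2 := hai.trans (by gcongr)
    have h3 : (a : ℝ) * (1 - q) ≤ 1 / 2 := by
      calc (a : ℝ) * (1 - q) ≤ ((1 - q)⁻¹ / 2) * (1 - q) := by
            apply mul_le_mul_of_nonneg_right (h2.trans hM) hq.le
        _ = 1 / 2 := by field_simp
    have h4 := one_add_mul_le_pow (a := q - 1) (by linarith) a
    have h5 : 1 + (q - 1) = q := by ring
    rw [h5] at h4
    linarith
  unfold fr
  calc (M : ℝ) / 2 = ∑ i ∈ Finset.range M, (1 / 2 : ℝ) := by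
        rw [Finset.sum_const, Finset.card_range, nsmul_eq_mul]; ring
    _ ≤ ∑ i ∈ Finset.range M, (if Nat.nth (· ∈ A) i ∈ A then (1 : ℝ) else 0) *
          q ^ Nat.nth (· ∈ A) i := Finset.sum_le_sum key
    _ = ∑ n ∈ (Finset.range M).image (Nat.nth (· ∈ A)), (if n ∈ A then (1 : ℝ) else 0) * q ^ n := by
        rw [Finset.sum_image (fun a _ b _ hab => hinj hab)]
    _ ≤ ∑' n, (if n ∈ A then (1 : ℝ) else 0) * q ^ n :=
        (summable_fr A h0 h1).sum_le_tsum _ (fun n _ => by positivity)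

theorem fr_sq_ge {A : Set ℕ} (hA : A.Infinite) {C : ℝ} (hC : 1 ≤ C)
    (h : ∀ n, (Nat.nth (· ∈ A) n : ℝ) ≤ C * ((n : ℝ) + 1) ^ 2) {q : ℝ} (h0 : 0 ≤ q) (h1 : q < 1)
    (hT : 8 * C ≤ (1 - q)⁻¹) : 1 / (32 * C) * (1 - q)⁻¹ ≤ fr A q ^ 2 := by
  obtain ⟨T, hTe⟩ : ∃ T : ℝ, T = (1 - q)⁻¹ := ⟨_, rfl⟩
  rw [← hTe] at hT ⊢
  have hC0 : 0 < C := by linarith
  have hT0 : 0 < T := by linarith
  obtain ⟨x, hx⟩ : ∃ x : ℝ, x = Real.sqrt (T / (2 * C)) := ⟨_, rfl⟩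
  have hx0 : 0 ≤ x := by rw [hx]; exact Real.sqrt_nonneg _
  have hx2 : x ^ 2 = T / (2 * C) := by rw [hx]; exact Real.sq_sqrt (by positivity)
  have hx4 : 2 ≤ x := by
    rw [hx]
    apply Real.le_sqrt_of_sq_le
    rw [le_div_iff₀ (by positivity)]
    linarith
  obtain ⟨M, hM⟩ : ∃ M : ℕ, M = ⌊x⌋₊ := ⟨_, rfl⟩
  have hM1 : (M : ℝ) ≤ x := by rw [hM]; exact Nat.floor_le hx0
  have hM2 : x < M + 1 := by rw [hM]; exact Nat.lt_floor_add_one x
  have hM3 : x / 2 ≤ M := by linarith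
  have hMC : C * (M : ℝ) ^ 2 ≤ (1 - q)⁻¹ / 2 := by
    rw [← hTe]
    calc C * (M : ℝ) ^ 2 ≤ C * x ^ 2 := by gcongr
      _ = T / 2 := by rw [hx2]; field_simp
  have h2 := fr_ge_quad hA hC h h0 h1 hMC
  have h3 : x / 4 ≤ fr A q := by linarith
  calc 1 / (32 * C) * T = (x / 4) ^ 2 := by rw [div_pow, hx2]; field_simp; ring
    _ ≤ fr A q ^ 2 := by gcongr

theorem tendsto_T : Tendsto (fun r : ℝ => (1 - r ^ 2)⁻¹) (𝓝[<] 1) atTop := by
  have hsq : Tendsto (fun r : ℝ => r ^ 2) (𝓝[<] 1) (𝓝 1) := by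
    have : Tendsto (fun r : ℝ => r ^ 2) (𝓝 1) (𝓝 (1 ^ 2)) := (continuous_pow 2).tendsto 1
    rw [one_pow] at this
    exact this.mono_left nhdsWithin_le_nhds
  apply tendsto_inv_nhdsGT_zero.comp
  apply tendsto_nhdsWithin_of_tendsto_nhds_of_eventually_within
  · have := (tendsto_const_nhds (x := (1 : ℝ))).sub hsq
    rw [sub_self] at this
    exact this
  · filter_upwards [self_mem_nhdsWithin, Ioo_mem_nhdsLT (show (0 : ℝ) < 1 by norm_num)] with r h1 h2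
    show (0 : ℝ) < 1 - r ^ 2
    have := h2.1
    have := h2.2
    nlinarith

theorem shift_main (C : ℝ) (K : ℕ) : ∃ δ : ℝ, 0 < δ ∧ ∀ A : Set ℕ, A.Infinite →
    (∀ n, (Nat.nth (· ∈ A) n : ℝ) ≤ C * ((n : ℝ) + 1) ^ 2) → (∀ n, rep A n ≤ K) →
    ∀ τ : ℕ, 1 ≤ τ → ∀ᶠ N : ℕ in atTop,
      δ * N ≤ ({n | n < N ∧ rep A (n + τ) ≠ rep A n}.ncard : ℝ) := by
  obtain ⟨C', hC'⟩ : ∃ C' : ℝ, C' = max C 1 := ⟨_, rfl⟩
  have hC1 : 1 ≤ C' := by rw [hC']; exact le_max_right _ _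
  have hCC : C ≤ C' := by rw [hC']; exact le_max_left _ _
  obtain ⟨δ, hδ0, hδ1, h⟩ := shift_abel (k := 2) le_rfl Al
    (fun σ : Equiv.Perm (Fin 2) => if σ = 1 then ((2 : ℕ).factorial : ℤ) else 0) all_chi
    (by simp only [if_true]; exact_mod_cast Nat.factorial_pos 2)
    (fun σ hσ => by simp only [if_neg hσ]; norm_num) K (c0 := 1 / (32 * C')) (by positivity)
  refine ⟨δ / (2 * Real.log (2 / δ)), ?_, ?_⟩
  · have : 0 < Real.log (2 / δ) := Real.log_pos (by rw [lt_div_iff₀ hδ0]; linarith)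
    positivity
  intro A hA hq hK τ hτ
  have h2 := h A (fun n => by rw [Rn_true]; exact hK n) (by
    filter_upwards [Ioo_mem_nhdsLT (show (0 : ℝ) < 1 by norm_num),
      tendsto_T.eventually_ge_atTop (8 * C')] with r hr hr2
    obtain ⟨h0, h1⟩ := hr
    exact fr_sq_ge hA hC1 (fun n => (hq n).trans (by gcongr)) (by positivity)
      (by nlinarith) hr2) τ hτ
  have h3 := abel_count hδ0 hδ1 h2
  filter_upwards [h3] with N hN
  refine hN.trans (le_of_eq ?_)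
  congr 2
  ext n
  simp only [Ch, Set.mem_ofPred_eq, Rn_true]

end Pool.Agent.H303R3.ET
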