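import Pool.Agent.H303R3.ET.HFin
import Pool.Agent.H303R3.ET.ShiftFin

set_option autoImplicit false

/-!
# Bases of any order and functions with concentrated generating function
-/

open Filter Topology MeasureTheory
open scoped ENNReal

namespace Pool.Agent.H303R3.ET

/-- the limiting upper bound -/
noncomputable def yy (k K : ℕ) (κ D1 c0 ε t : ℝ) : ℝ :=
  k.factorial * (Real.sqrt (κ * (1 + k.factorial * t) / k.factorial + D1 * t) +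
    Real.sqrt (2 * ε / c0)) + k.factorial * Real.sqrt (k.factorial * K * t)

/-- Real bounds for the three pieces. -/
theorem pieces {k K : ℕ} (hk : 1 ≤ k) {κ D1 c0 ε f E2 Q T : ℝ} (hf : 1 ≤ f) (hc0 : 0 < c0) (hD1 : 0 ≤ D1)
    (hκ : 0 ≤ κ) (hε : 0 ≤ ε)
    (hE2 : E2 ≤ κ * ((f ^ k + k.factorial * f ^ (k - 1)) / k.factorial) + D1)
    (hQ : Q ≤ 2 * ε * T) (hT : c0 * T ≤ f ^ k) :
    k.factorial * (Real.sqrt E2 + Real.sqrt Q) +
      k.factorial * Real.sqrt (k.factorial * K * f ^ (k - 1)) ≤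
      yy k K κ D1 c0 ε (1 / f) * Real.sqrt (f ^ k) := by
  have hf0 : 0 < f := by linarith
  have hfk : f ^ (k - 1) = f ^ k * (1 / f) := by
    obtain ⟨m, rfl⟩ : ∃ m, k = m + 1 := ⟨k - 1, by omega⟩
    rw [Nat.add_sub_cancel, pow_succ]
    field_simp
  have hfk1 : 1 ≤ f ^ (k - 1) := one_le_pow₀ hf
  have hkf : (0 : ℝ) < k.factorial := by exact_mod_cast Nat.factorial_pos k
  have hfk0 : 0 ≤ f ^ k := by positivity
  have a1 : Real.sqrt E2 ≤ Real.sqrt (κ * (1 + k.factorial * (1 / f)) / k.factorial + D1 * (1 / f)) *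
      Real.sqrt (f ^ k) := by
    rw [← Real.sqrt_mul' _ hfk0]
    apply Real.sqrt_le_sqrt
    refine hE2.trans ?_
    have b1 : D1 ≤ D1 * (f ^ k * (1 / f)) := by rw [← hfk]; nlinarith
    calc κ * ((f ^ k + k.factorial * f ^ (k - 1)) / k.factorial) + D1
        ≤ κ * ((f ^ k + k.factorial * f ^ (k - 1)) / k.factorial) + D1 * (f ^ k * (1 / f)) := by
          linarith
      _ = _ := by rw [hfk]; ring
  have a2 : Real.sqrt Q ≤ Real.sqrt (2 * ε / c0) * Real.sqrt (f ^ k) := by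
    rw [← Real.sqrt_mul' _ hfk0]
    apply Real.sqrt_le_sqrt
    refine hQ.trans ?_
    have b1 : T ≤ f ^ k / c0 := by rw [le_div_iff₀ hc0]; linarith
    calc 2 * ε * T ≤ 2 * ε * (f ^ k / c0) := by gcongr
      _ = 2 * ε / c0 * f ^ k := by ring
  have a3 : Real.sqrt (k.factorial * K * f ^ (k - 1)) =
      Real.sqrt (k.factorial * K * (1 / f)) * Real.sqrt (f ^ k) := by
    rw [← Real.sqrt_mul' _ hfk0, hfk]
    congr 1
    ring
  rw [a3]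
  unfold yy
  calc k.factorial * (Real.sqrt E2 + Real.sqrt Q) +
      k.factorial * (Real.sqrt (k.factorial * K * (1 / f)) * Real.sqrt (f ^ k))
      ≤ k.factorial * (Real.sqrt (κ * (1 + k.factorial * (1 / f)) / k.factorial + D1 * (1 / f)) *
        Real.sqrt (f ^ k) + Real.sqrt (2 * ε / c0) * Real.sqrt (f ^ k)) +
        k.factorial * (Real.sqrt (k.factorial * K * (1 / f)) * Real.sqrt (f ^ k)) := by
        gcongr
    _ = _ := by ring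

/-- The inequality at one radius. -/
theorem h_rad {j K : ℕ} {A : Set ℕ} (hK : ∀ n, Rn A (Mo (k := j + 2)) n ≤ K) {P : ℕ → ℝ}
    {κ D1 C C' ε c0 ρ : ℝ} (hκ0 : 0 ≤ κ) (hκ1 : κ ≤ 1) (hD1 : 0 ≤ D1)
    (h1 : ∀ N : ℕ, ∑ n ∈ Finset.range N, (((Rn A (Mo (k := j + 2)) n : ℝ) - P n) ^ 2 -
      κ * Rn A (Mo (k := j + 2)) n) ≤ D1)
    (hρ0 : 0 ≤ ρ) (hρ1 : ρ < 1) {V : Set ℝ} (hV : MeasurableSet V)
    (hV1 : volume V ≤ ENNReal.ofReal ε) (hε : 0 ≤ ε)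
    (hQ : (1 - ρ) * ∫ θ in Set.Ioc 0 (2 * Real.pi) \ V,
      ‖∑' n : ℕ, (P n : ℂ) * circleMap 0 ρ θ ^ n‖ ^ 2 ≤ ε)
    (hc0 : 0 < c0) (hlow : c0 * (1 - ρ ^ 2)⁻¹ ≤ fr A (ρ ^ 2) ^ (j + 2)) (hf : 1 ≤ fr A (ρ ^ 2))
    (hC : 0 ≤ C)
    (H2 : ((j + 1 : ℕ) : ℝ) * (fr A (ρ ^ 2) * mom A j (ρ ^ 2)) ≤ mom A (j + 1) (ρ ^ 2) +
      C * fr A (ρ ^ 2) ^ j)
    (H3 : ((j + 1).factorial : ℝ) * (fr A (ρ ^ 2) * fr A (ρ ^ 2) ^ j) ≤ mom A (j + 1) (ρ ^ 2) +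
      C' * fr A (ρ ^ 2) ^ j) :
    ((j + 1 : ℕ) : ℝ) * (((j + 1).factorial : ℝ) * fr A (ρ ^ 2) - (C + C') -
      2 * ((((j + 2).factorial * K : ℝ) ^ 2 / c0 + 1) * ε ^ (1 / ((j : ℝ) + 2))) * fr A (ρ ^ 2)) ≤
      (yy (j + 2) K κ D1 c0 ε (1 / fr A (ρ ^ 2))) ^ 2 * fr A (ρ ^ 2) := by
  classical
  have hgr := fun n => growthK (r := fun n => Rn A (Mo (k := j + 2)) n) hK hκ1 hD1 h1 n
  have hP : Conv (Pw P) := conv_Pw fun n => (hgr n).2
  have hE : Conv (Pw fun n => (Rn A (Mo (k := j + 2)) n : ℝ) - P n) := conv_Pw fun n => (hgr n).1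
  have hep : Rps A (Mo (k := j + 2)) = Pw (fun n => (Rn A (Mo (k := j + 2)) n : ℝ) - P n) + Pw P := by
    rw [Pw_add]
    unfold Rps Pw
    ext n
    simp only [PowerSeries.coeff_mk, sub_add_cancel]
    push_cast
    rfl
  have hq0 : 0 ≤ ρ ^ 2 := by positivity
  have hq1 : ρ ^ 2 < 1 := by nlinarith
  have hqq : 0 < 1 - ρ ^ 2 := by linarith
  obtain ⟨hEs, hEp⟩ := pars_Pw hE hρ0 hρ1
  have hup := core_up A hK hE hP hep hρ0 hρ1 V hf
  have hlo := core_low A j hρ0 hρ1 hV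
  have hQp := lint_compl hP hρ0 hρ1 hV
  have hev : ∀ θ : ℝ, ev (Pw P) (circleMap 0 ρ θ) = ∑' n : ℕ, (P n : ℂ) * circleMap 0 ρ θ ^ n := by
    intro θ
    unfold ev Pw
    simp only [PowerSeries.coeff_mk]
  simp_rw [← hev] at hQ
  rw [hEp] at hup
  obtain ⟨f, hfd⟩ : ∃ f : ℝ, f = fr A (ρ ^ 2) := ⟨_, rfl⟩
  obtain ⟨E2, hE2⟩ : ∃ x : ℝ, x = ∑' n, ((Rn A (Mo (k := j + 2)) n : ℝ) - P n) ^ 2 * (ρ ^ 2) ^ n :=
    ⟨_, rfl⟩
  obtain ⟨Q, hQd⟩ : ∃ x : ℝ, x = ∫ θ in Set.Ioc 0 (2 * Real.pi) \ V,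
    ‖ev (Pw P) (circleMap 0 ρ θ)‖ ^ 2 := ⟨_, rfl⟩
  obtain ⟨m0, hm0⟩ : ∃ x : ℝ, x = mom A j (ρ ^ 2) := ⟨_, rfl⟩
  obtain ⟨m1, hm1⟩ : ∃ x : ℝ, x = mom A (j + 1) (ρ ^ 2) := ⟨_, rfl⟩
  obtain ⟨mk, hmk⟩ : ∃ x : ℝ, x = mom A (j + 2) (ρ ^ 2) := ⟨_, rfl⟩
  have hm00 : 0 ≤ m0 := by rw [hm0]; exact mom_nonneg A j hq0
  have hmk0 : 0 ≤ mk := by rw [hmk]; exact mom_nonneg A (j + 2) hq0
  have hE20 : 0 ≤ E2 := by rw [hE2]; exact tsum_nonneg fun n => by positivity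
  have hQ0 : 0 ≤ Q := by
    rw [hQd]
    exact integral_nonneg fun θ => by positivity
  -- bounds for the pieces
  have b2 : mk ≤ (((j + 2).factorial * K : ℝ) ^ 2 / c0 + 1) * fr A (ρ ^ 2) ^ (j + 2) := by
    have c1 : mk ≤ ((j + 2).factorial * K : ℝ) ^ 2 * (1 - ρ ^ 2)⁻¹ := by
      rw [hmk, ← tsum_geometric_of_lt_one hq0 hq1, ← tsum_mul_left]
      have c2 : ∀ n, ((tup A (j + 2) n).card : ℝ) ^ 2 * (ρ ^ 2) ^ n ≤
          ((j + 2).factorial * K : ℝ) ^ 2 * (ρ ^ 2) ^ n := by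
        intro n
        have c3 : (tup A (j + 2) n).card ≤ (j + 2).factorial * K :=
          (tup_le (k := j + 2) A n).trans (Nat.mul_le_mul_left _ (hK n))
        have c4 : ((tup A (j + 2) n).card : ℝ) ≤ (j + 2).factorial * K := by exact_mod_cast c3
        gcongr
      have hs : Summable fun n : ℕ => ((j + 2).factorial * K : ℝ) ^ 2 * (ρ ^ 2) ^ n :=
        (summable_geometric_of_lt_one hq0 hq1).mul_left _
      exact Summable.tsum_le_tsum c2 (Summable.of_nonneg_of_le (fun n => by positivity) c2 hs) hs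
    have c5 : (1 - ρ ^ 2)⁻¹ ≤ fr A (ρ ^ 2) ^ (j + 2) / c0 := by
      rw [le_div_iff₀ hc0]; linarith
    have c6 : 0 ≤ fr A (ρ ^ 2) ^ (j + 2) := by positivity
    calc mk ≤ ((j + 2).factorial * K : ℝ) ^ 2 * (1 - ρ ^ 2)⁻¹ := c1
      _ ≤ ((j + 2).factorial * K : ℝ) ^ 2 * (fr A (ρ ^ 2) ^ (j + 2) / c0) := by gcongr
      _ = ((j + 2).factorial * K : ℝ) ^ 2 / c0 * fr A (ρ ^ 2) ^ (j + 2) := by ring
      _ ≤ _ := by nlinarith
  have b3 : E2 ≤ κ * ((fr A (ρ ^ 2) ^ (j + 2) + (j + 2).factorial * fr A (ρ ^ 2) ^ (j + 2 - 1)) /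
      (j + 2).factorial) + D1 := by
    have hs' := (summable_Rr A (Mo (k := j + 2)) hq0 hq1).mul_left κ
    have h3 := abel_le (c := fun n => ((Rn A (Mo (k := j + 2)) n : ℝ) - P n) ^ 2 -
      κ * Rn A (Mo (k := j + 2)) n) (B := 0) (D := D1) hq0 hq1 (by
        simp_rw [sub_mul, mul_assoc]
        exact hEs.sub hs') (fun N => by rw [zero_mul, zero_add]; exact h1 N)
    simp_rw [sub_mul, mul_assoc] at h3
    rw [hEs.tsum_sub hs', tsum_mul_left, ← hE2] at h3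
    have h4 := Rr_up (k := j + 2) A hq0 hq1 hf
    have hkf : (0 : ℝ) < (j + 2).factorial := by exact_mod_cast Nat.factorial_pos (j + 2)
    have h5 : ∑' n, (Rn A (Mo (k := j + 2)) n : ℝ) * (ρ ^ 2) ^ n ≤
        (fr A (ρ ^ 2) ^ (j + 2) + (j + 2).factorial * fr A (ρ ^ 2) ^ (j + 2 - 1)) /
          (j + 2).factorial := by
      rw [le_div_iff₀ hkf, mul_comm]
      exact h4
    have h6 := mul_le_mul_of_nonneg_left h5 hκ0
    linarith
  have b4 : Q ≤ 2 * ε * (1 - ρ ^ 2)⁻¹ := by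
    rw [← hQd] at hQ
    have h4 : Q * (1 - ρ ^ 2) ≤ 2 * ε := by
      have h5 : Q * (1 - ρ ^ 2) = ((1 - ρ) * Q) * (1 + ρ) := by ring
      rw [h5]
      have h6 : 0 ≤ (1 - ρ) * Q := mul_nonneg (by linarith) hQ0
      nlinarith
    rw [← div_eq_mul_inv, le_div_iff₀ hqq]
    exact h4
  have hpieces := pieces (k := j + 2) (K := K) (by omega) hf hc0 hD1 hκ0 hε b3 b4 hlow
  obtain ⟨x, hx⟩ : ∃ x : ℝ, x = (j + 2).factorial * (Real.sqrt E2 + Real.sqrt Q) +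
    (j + 2).factorial * Real.sqrt ((j + 2).factorial * K * fr A (ρ ^ 2) ^ (j + 2 - 1)) := ⟨_, rfl⟩
  rw [← hx] at hpieces
  have hx0 : 0 ≤ x := by rw [hx]; positivity
  have c1 : ∀ y : ℝ, 0 ≤ y → (ENNReal.ofReal y) ^ (1 / 2 : ℝ) = ENNReal.ofReal (Real.sqrt y) := by
    intro y hy
    rw [ENNReal.ofReal_rpow_of_nonneg hy (by norm_num), Real.sqrt_eq_rpow]
  have hup2 : (∫⁻ θ in Vᶜ, (‖ev (ind A) (circleMap 0 ρ θ)‖ₑ ^ (j + 2)) ^ (2 : ℝ) ∂mu) ^ (1 / 2 : ℝ) ≤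
      ENNReal.ofReal x := by
    rw [← hE2, c1 E2 hE20, c1 _ (by positivity)] at hup
    rw [← hQd] at hQp
    have c3 : (∫⁻ θ in Vᶜ, ‖ev (Pw P) (circleMap 0 ρ θ)‖ₑ ^ (2 : ℝ) ∂mu) ^ (1 / 2 : ℝ) ≤
        ENNReal.ofReal (Real.sqrt Q) := by
      rw [← c1 Q hQ0]
      exact ENNReal.rpow_le_rpow hQp (by norm_num)
    refine hup.trans ((add_le_add (mul_le_mul' le_rfl (add_le_add le_rfl c3)) le_rfl).trans
      (le_of_eq ?_))
    rw [hx, ENNReal.ofReal_add (by positivity) (by positivity), ENNReal.ofReal_mul (by positivity),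
      ENNReal.ofReal_mul (by positivity), ENNReal.ofReal_add (by positivity) (by positivity),
      ENNReal.ofReal_natCast]
  have hjr : (0 : ℝ) ≤ j := Nat.cast_nonneg j
  have H1 : m1 ≤ ((((j + 2).factorial * K : ℝ) ^ 2 / c0 + 1) * ε ^ (1 / ((j : ℝ) + 2))) *
      (fr A (ρ ^ 2) * fr A (ρ ^ 2) ^ j) + x * Real.sqrt m0 := by
    have d1 : (ENNReal.ofReal mk) ^ (((j : ℝ) + 1) / (j + 2)) =
        ENNReal.ofReal (mk ^ (((j : ℝ) + 1) / (j + 2))) :=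
      ENNReal.ofReal_rpow_of_nonneg hmk0 (by positivity)
    have d2 : (mu V) ^ (1 / ((j : ℝ) + 2)) ≤ ENNReal.ofReal (ε ^ (1 / ((j : ℝ) + 2))) := by
      rw [← ENNReal.ofReal_rpow_of_nonneg hε (by positivity)]
      exact ENNReal.rpow_le_rpow ((mu_le V).trans hV1) (by positivity)
    rw [← hm1, ← hmk, ← hm0, c1 m0 hm00, d1] at hlo
    have d3 := hlo.trans (add_le_add (mul_le_mul' le_rfl d2) (mul_le_mul' hup2 le_rfl))
    have hmkp : 0 ≤ mk ^ (((j : ℝ) + 1) / (j + 2)) := Real.rpow_nonneg hmk0 _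
    have hεp : 0 ≤ ε ^ (1 / ((j : ℝ) + 2)) := Real.rpow_nonneg hε _
    rw [← ENNReal.ofReal_mul hmkp, ← ENNReal.ofReal_mul hx0,
      ← ENNReal.ofReal_add (by positivity) (by positivity)] at d3
    have d4 := (ENNReal.ofReal_le_ofReal_iff (by positivity)).mp d3
    refine d4.trans (add_le_add ?_ le_rfl)
    obtain ⟨M, hM⟩ : ∃ M : ℝ, M = ((j + 2).factorial * K : ℝ) ^ 2 / c0 + 1 := ⟨_, rfl⟩
    rw [← hM] at b2 ⊢
    have hM1 : 1 ≤ M := by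
      have : 0 ≤ ((j + 2).factorial * K : ℝ) ^ 2 / c0 := by positivity
      rw [hM]; linarith
    have hf0 : 0 < fr A (ρ ^ 2) := by linarith
    have d5 : mk ^ (((j : ℝ) + 1) / (j + 2)) ≤ M * (fr A (ρ ^ 2) * fr A (ρ ^ 2) ^ j) := by
      calc mk ^ (((j : ℝ) + 1) / (j + 2)) ≤ (M * fr A (ρ ^ 2) ^ (j + 2)) ^ (((j : ℝ) + 1) / (j + 2)) :=
            Real.rpow_le_rpow hmk0 b2 (by positivity)
        _ = M ^ (((j : ℝ) + 1) / (j + 2)) * (fr A (ρ ^ 2) ^ (j + 2)) ^ (((j : ℝ) + 1) / (j + 2)) :=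
            Real.mul_rpow (by linarith) (by positivity)
        _ ≤ M * (fr A (ρ ^ 2) * fr A (ρ ^ 2) ^ j) := by
            apply mul_le_mul _ (le_of_eq _) (by positivity) (by linarith)
            · calc M ^ (((j : ℝ) + 1) / (j + 2)) ≤ M ^ (1 : ℝ) := by
                    apply Real.rpow_le_rpow_of_exponent_le hM1
                    rw [div_le_one (by positivity)]; linarith
                _ = M := Real.rpow_one M
            · rw [← Real.rpow_natCast (fr A (ρ ^ 2)) (j + 2), ← Real.rpow_mul hf0.le, ← pow_succ',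
                ← Real.rpow_natCast (fr A (ρ ^ 2)) (j + 1)]
              congr 1
              push_cast
              field_simp
    calc mk ^ (((j : ℝ) + 1) / (j + 2)) * ε ^ (1 / ((j : ℝ) + 2))
        ≤ (M * (fr A (ρ ^ 2) * fr A (ρ ^ 2) ^ j)) * ε ^ (1 / ((j : ℝ) + 2)) :=
          mul_le_mul_of_nonneg_right d5 hεp
      _ = _ := by ring
  have H4 : x ^ 2 ≤ (yy (j + 2) K κ D1 c0 ε (1 / fr A (ρ ^ 2))) ^ 2 *
      (fr A (ρ ^ 2) ^ 2 * fr A (ρ ^ 2) ^ j) := by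
    calc x ^ 2 ≤ (yy (j + 2) K κ D1 c0 ε (1 / fr A (ρ ^ 2)) * Real.sqrt (fr A (ρ ^ 2) ^ (j + 2))) ^ 2 :=
          pow_le_pow_left₀ hx0 hpieces 2
      _ = _ := by
          rw [mul_pow, Real.sq_sqrt (by positivity), ← pow_add, add_comm 2 j]
  rw [← hm1, ← hm0] at H2
  rw [← hm1] at H3
  exact alg_h (g := j + 1) hf (by positivity) hm00 (by positivity) hC (sq_nonneg _) H1 H2 H3 H4

end Pool.Agent.H303R3.ET
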