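import Pool.Agent.H303R3.ET.Energy

set_option autoImplicit false

/-!
# The main theorem: every arc carries energy
-/

open Polynomial Filter Topology MeasureTheory
open scoped ENNReal

namespace Pool.Agent.H303R3.ET

/-- The final numerical step. -/
theorem fin_real {k : ℕ} (hk : 2 ≤ k) {kf K N T f : ℝ} (hkf : 1 ≤ kf) (hK : 1 ≤ K)
    (hN : N = kf ^ 2 * K ^ 2 * 16 ^ k) (hT : 0 < T) (hf : 1 ≤ f) (h1 : T / 2 ≤ f ^ k)
    (h : f ≤ kf ^ (2 / k : ℝ) * (K ^ 2 * T / N) ^ (1 / k : ℝ) +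
      kf ^ (2 / k : ℝ) * ((1 / N) ^ (1 / k : ℝ) * (K ^ 2 * T) ^ (1 / k : ℝ)) +
      kf * f ^ (((k : ℝ) - 1) / k)) : f ≤ (2 * kf) ^ k := by
  have hk0 : (0 : ℝ) < k := by exact_mod_cast (by omega : 0 < k)
  have hkn : k ≠ 0 := by omega
  have hN0 : 0 < N := by rw [hN]; positivity
  have e0 : kf ^ (2 / k : ℝ) = (kf ^ 2) ^ (1 / k : ℝ) := by
    rw [← Real.rpow_natCast kf 2, ← Real.rpow_mul (by linarith)]
    congr 1
    push_cast
    ring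
  have e1 : (T / 16 ^ k) ^ (1 / k : ℝ) = T ^ (1 / k : ℝ) / 16 := by
    rw [Real.div_rpow hT.le (by positivity), ← Real.rpow_natCast (16 : ℝ) k,
      ← Real.rpow_mul (by norm_num)]
    have : (k : ℝ) * (1 / k) = 1 := by field_simp
    rw [this, Real.rpow_one]
  have e2 : kf ^ (2 / k : ℝ) * (K ^ 2 * T / N) ^ (1 / k : ℝ) = T ^ (1 / k : ℝ) / 16 := by
    rw [e0, ← Real.mul_rpow (by positivity) (by positivity), ← e1]
    congr 1
    rw [hN]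
    field_simp
  have e3 : kf ^ (2 / k : ℝ) * ((1 / N) ^ (1 / k : ℝ) * (K ^ 2 * T) ^ (1 / k : ℝ)) =
      T ^ (1 / k : ℝ) / 16 := by
    rw [← Real.mul_rpow (by positivity) (by positivity), ← e2]
    congr 2
    ring
  rw [e2, e3] at h
  -- `T^(1/k) ≤ 2 f`
  have e4 : T ^ (1 / k : ℝ) ≤ 2 * f := by
    have h2 : T ≤ (2 * f) ^ k := by
      rw [mul_pow]
      have h3 : (2 : ℝ) ≤ 2 ^ k := by
        calc (2 : ℝ) = 2 ^ 1 := by norm_num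
          _ ≤ 2 ^ k := pow_le_pow_right₀ (by norm_num) (by omega)
      have h4 : 0 ≤ f ^ k := by positivity
      nlinarith
    calc T ^ (1 / k : ℝ) ≤ ((2 * f) ^ k) ^ (1 / k : ℝ) := by
          apply Real.rpow_le_rpow hT.le h2 (by positivity)
      _ = 2 * f := by
          rw [← Real.rpow_natCast, ← Real.rpow_mul (by positivity)]
          have : (k : ℝ) * (1 / k) = 1 := by field_simp
          rw [this, Real.rpow_one]
  have e5 : f ≤ 2 * kf * f ^ (((k : ℝ) - 1) / k) := by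
    have : 0 ≤ kf * f ^ (((k : ℝ) - 1) / k) := by positivity
    linarith
  have e6 : f ^ (1 / k : ℝ) ≤ 2 * kf := by
    have h2 : f = f ^ (1 / k : ℝ) * f ^ (((k : ℝ) - 1) / k) := by
      rw [← Real.rpow_add (by linarith)]
      have : (1 / k : ℝ) + ((k : ℝ) - 1) / k = 1 := by field_simp; ring
      rw [this, Real.rpow_one]
    have h3 : f ^ (1 / k : ℝ) * f ^ (((k : ℝ) - 1) / k) ≤ 2 * kf * f ^ (((k : ℝ) - 1) / k) := by
      rw [← h2]; exact e5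
    exact le_of_mul_le_mul_right h3 (Real.rpow_pos_of_pos (by linarith) _)
  calc f = (f ^ (1 / k : ℝ)) ^ k := by
        rw [← Real.rpow_natCast, ← Real.rpow_mul (by linarith)]
        have : (1 / k : ℝ) * k = 1 := by field_simp
        rw [this, Real.rpow_one]
    _ ≤ (2 * kf) ^ k := by
        apply pow_le_pow_left₀ (Real.rpow_nonneg (by linarith) _) e6

theorem T_eq {r : ℝ} (h0 : 0 ≤ r) (h1 : r < 1) :
    (1 - ENNReal.ofReal (r ^ 2))⁻¹ = ENNReal.ofReal ((1 - r ^ 2)⁻¹) := by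
  have : (0 : ℝ) < 1 - r ^ 2 := by nlinarith
  rw [ENNReal.ofReal_inv_of_pos this, ENNReal.ofReal_sub _ (by positivity), ENNReal.ofReal_one]

/-- The energy of the representation function on the arc. -/
theorem arcR {k : ℕ} (A : Set ℕ) {K : ℕ} (hK : ∀ n, Rn A (Mo (k := k)) n ≤ K) (ζ : ℂ) (δ : ℝ)
    {r : ℝ} (h0 : 0 ≤ r) (h1 : r < 1) (hf : 1 ≤ fr A (r ^ 2)) :
    ∫⁻ θ in Arc ζ δ, ‖ev (Sc (fun n => Rn A (Mo (k := k)) n)) (circleMap 0 r θ)‖ₑ ^ (2 : ℝ) ∂mu ≤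
      (∫⁻ θ in Arc ζ δ, ‖ev (ind A) (circleMap 0 r θ)‖ₑ ^ (2 * k : ℝ) ∂mu) +
        ENNReal.ofReal (k.factorial * (k.factorial * K * fr A (r ^ 2) ^ (k - 1))) := by
  classical
  have hcirc : ∀ θ : ℝ, ‖circleMap 0 r θ‖ < 1 := by
    intro θ
    rw [norm_circleMap_zero, abs_of_nonneg h0]; exact h1
  have hm : Measurable fun θ : ℝ => ‖ev (ind A) (circleMap 0 r θ)‖ₑ ^ (2 * k : ℝ) :=
    (ev_cont (conv_ind A) h0 h1).measurable.enorm.pow_const _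
  have hfr0 : 0 ≤ fr A (r ^ 2) := by linarith
  calc ∫⁻ θ in Arc ζ δ, ‖ev (Sc (fun n => Rn A (Mo (k := k)) n)) (circleMap 0 r θ)‖ₑ ^ (2 : ℝ) ∂mu
      ≤ ∫⁻ θ in Arc ζ δ, (‖ev (ind A) (circleMap 0 r θ)‖ₑ ^ (2 * k : ℝ) +
        ∑ σ ∈ Finset.univ.erase (1 : Equiv.Perm (Fin k)), ‖ev (Fs A σ) (circleMap 0 r θ)‖ₑ ^ (2 : ℝ)) ∂mu :=
        lintegral_mono fun θ => point_R (k := k) A (hcirc θ)
    _ = (∫⁻ θ in Arc ζ δ, ‖ev (ind A) (circleMap 0 r θ)‖ₑ ^ (2 * k : ℝ) ∂mu) +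
        ∑ σ ∈ Finset.univ.erase (1 : Equiv.Perm (Fin k)), ∫⁻ θ in Arc ζ δ,
          ‖ev (Fs A σ) (circleMap 0 r θ)‖ₑ ^ (2 : ℝ) ∂mu := by
        rw [lintegral_add_left hm, lintegral_finsetSum]
        intro σ _
        exact (ev_cont (conv_Fs A σ) h0 h1).measurable.enorm.pow_const _
    _ ≤ _ := by
        apply add_le_add le_rfl
        calc ∑ σ ∈ Finset.univ.erase (1 : Equiv.Perm (Fin k)), ∫⁻ θ in Arc ζ δ,
              ‖ev (Fs A σ) (circleMap 0 r θ)‖ₑ ^ (2 : ℝ) ∂mu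
            ≤ ∑ _σ ∈ Finset.univ.erase (1 : Equiv.Perm (Fin k)),
              ENNReal.ofReal (k.factorial * K * fr A (r ^ 2) ^ (k - 1)) := by
              apply Finset.sum_le_sum
              intro σ hσ
              exact (setLIntegral_le_lintegral _ _).trans
                (lint_Fs A hK σ (Finset.ne_of_mem_erase hσ) h0 h1 hf)
          _ ≤ _ := by
              rw [Finset.sum_const, nsmul_eq_mul, ENNReal.ofReal_mul (p := (k.factorial : ℝ)) (by positivity),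
                ENNReal.ofReal_natCast]
              apply mul_le_mul' _ le_rfl
              have : (Finset.univ.erase (1 : Equiv.Perm (Fin k))).card ≤ k.factorial := by
                refine (Finset.card_le_univ _).trans ?_
                rw [Fintype.card_perm, Fintype.card_fin]
              exact_mod_cast this

/-- The weight of the bad set. -/
theorem bad_le {c : ℕ → ℕ} {K : ℕ} (hc : ∀ n, c n ≤ K) {g : ℂ[X]} {ζ : ℂ} {δ lam B r ε1 CB E : ℝ}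
    (hlam : 0 ≤ lam) (hB : ∀ z : ℂ, ‖z‖ ≤ 1 → ‖g.eval z‖ ≤ B) (h0 : 0 ≤ r) (h1 : r < 1)
    (hg : ∀ u : ℂ, ‖u‖ = 1 → δ ≤ ‖u - ζ‖ → ‖g.eval (r * u)‖ ≤ lam) {D n₀ L V M : ℕ}
    (hM : M = 2 * V + 2) (hq : 1 / 2 ≤ (r ^ 2) ^ (M + L))
    (hε : ∑ n ∈ Finset.Ico n₀ L, lam ^ (2 * (n / D)) ≤ ε1)
    (hCB : ∑ n ∈ Finset.Ico n₀ L, B ^ (2 * (n / D)) ≤ CB) (hE0 : 0 ≤ E)
    (hE : ∫⁻ θ in Arc ζ δ, ‖ev (Sc c) (circleMap 0 r θ)‖ₑ ^ (2 : ℝ) ∂mu ≤ ENNReal.ofReal E) :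
    w (ENNReal.ofReal (r ^ 2)) (Bad (Gd c g) D n₀ L V M) ≤
      ENNReal.ofReal (16 * (ε1 * (K ^ 2 * (1 - r ^ 2)⁻¹) + CB * E)) := by
  have hB0 : 0 ≤ B := (norm_nonneg _).trans (hB 0 (by simp))
  have hT0 : (0 : ℝ) < (1 - r ^ 2)⁻¹ := by
    have : (0 : ℝ) < 1 - r ^ 2 := by nlinarith
    positivity
  have hqE : ENNReal.ofReal (r ^ 2) ≤ 1 := by
    rw [← ENNReal.ofReal_one]
    exact ENNReal.ofReal_le_ofReal (by nlinarith)
  have hqL : 1 / 2 ≤ ENNReal.ofReal (r ^ 2) ^ (M + L) := by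
    rw [← ENNReal.ofReal_pow (by positivity)]
    have : (1 / 2 : ℝ≥0∞) = ENNReal.ofReal (1 / 2) := by
      rw [ENNReal.ofReal_div_of_pos (by norm_num)]
      norm_num
    rw [this]
    exact ENNReal.ofReal_le_ofReal hq
  refine (w_bad hqE (Gd c g) hM hqL).trans ?_
  have hR := lint_Sc hc h0 h1
  rw [T_eq h0 h1] at hR
  have h2 : ∀ n ∈ Finset.Ico n₀ L, w (ENNReal.ofReal (r ^ 2)) (Gd c g (n / D))ᶜ ≤
      ENNReal.ofReal (4 * (lam ^ (2 * (n / D)) * (K ^ 2 * (1 - r ^ 2)⁻¹) + B ^ (2 * (n / D)) * E)) := by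
    intro n _
    refine (w_Gd hc g (n / D) h0 h1).trans ?_
    have h3 := split hc (ζ := ζ) (δ := δ) hlam hB h0 h1 hg (n / D)
    have h4 : ENNReal.ofReal (lam ^ (2 * (n / D))) *
        ∫⁻ θ, ‖ev (Sc c) (circleMap 0 r θ)‖ₑ ^ (2 : ℝ) ∂mu ≤
        ENNReal.ofReal (lam ^ (2 * (n / D)) * (K ^ 2 * (1 - r ^ 2)⁻¹)) := by
      rw [ENNReal.ofReal_mul (by positivity)]
      apply mul_le_mul' le_rfl
      refine hR.trans (le_of_eq ?_)
      rw [ENNReal.ofReal_mul (by positivity), ENNReal.ofReal_pow (by positivity), ENNReal.ofReal_natCast]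
    have h5 : ENNReal.ofReal (B ^ (2 * (n / D))) *
        ∫⁻ θ in Arc ζ δ, ‖ev (Sc c) (circleMap 0 r θ)‖ₑ ^ (2 : ℝ) ∂mu ≤
        ENNReal.ofReal (B ^ (2 * (n / D)) * E) := by
      rw [ENNReal.ofReal_mul (by positivity)]
      exact mul_le_mul' le_rfl hE
    rw [ENNReal.ofReal_mul (by norm_num), ENNReal.ofReal_add (by positivity) (by positivity)]
    have e4 : ENNReal.ofReal 4 = 4 := by norm_num
    rw [e4]
    exact mul_le_mul' le_rfl (h3.trans (add_le_add h4 h5))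
  have h3 := Finset.sum_le_sum h2
  rw [← ENNReal.ofReal_sum_of_nonneg (fun n _ => by positivity)] at h3
  refine (mul_le_mul' le_rfl h3).trans ?_
  have e4 : (4 : ℝ≥0∞) = ENNReal.ofReal 4 := by norm_num
  rw [e4, ← ENNReal.ofReal_mul (by norm_num)]
  apply ENNReal.ofReal_le_ofReal
  have h4 : ∑ n ∈ Finset.Ico n₀ L, 4 * (lam ^ (2 * (n / D)) * (K ^ 2 * (1 - r ^ 2)⁻¹) +
      B ^ (2 * (n / D)) * E) = 4 * ((∑ n ∈ Finset.Ico n₀ L, lam ^ (2 * (n / D))) *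
        (K ^ 2 * (1 - r ^ 2)⁻¹) + (∑ n ∈ Finset.Ico n₀ L, B ^ (2 * (n / D))) * E) := by
    rw [← Finset.mul_sum, Finset.sum_add_distrib, Finset.sum_mul, Finset.sum_mul]
  rw [h4]
  have h5 : (∑ n ∈ Finset.Ico n₀ L, lam ^ (2 * (n / D))) * (K ^ 2 * (1 - r ^ 2)⁻¹) ≤
      ε1 * (K ^ 2 * (1 - r ^ 2)⁻¹) := by gcongr
  have h6 : (∑ n ∈ Finset.Ico n₀ L, B ^ (2 * (n / D))) * E ≤ CB * E := by gcongr
  linarith

/-- The difference has little energy. -/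
theorem diff_le {c : ℕ → ℕ} {K : ℕ} (hc : ∀ n, c n ≤ K) {g : ℂ[X]} (hg0 : g.coeff 0 = 1) {r W : ℝ}
    (h0 : 0 ≤ r) (h1 : r < 1) {D n₀ L V M Q m Y : ℕ} (hD : g.natDegree ≤ D)
    (hV : V = (K + 1) ^ n₀) (hQ : Q = M.factorial) (hm : 0 < m) (hL : L = M + m * Q + 1)
    (hY : Y = M + m * Q) (hW0 : 0 ≤ W)
    (hW : w (ENNReal.ofReal (r ^ 2)) (Bad (Gd c g) D n₀ L V M) ≤ ENNReal.ofReal W) :
    ∫⁻ θ, ‖ev (((1 - Bp Q m : ℂ[X]) : PowerSeries ℂ) * Sc c) (circleMap 0 r θ)‖ₑ ^ (2 : ℝ) ∂mu ≤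
      ENNReal.ofReal (K ^ 2 * (Y + W)) := by
  have hqE : ENNReal.ofReal (r ^ 2) ≤ 1 := by
    rw [← ENNReal.ofReal_one]
    exact ENNReal.ofReal_le_ofReal (by nlinarith)
  rw [← pars ((conv_poly _).mul (conv_Sc hc)) h0 h1]
  refine (sum_vanish hqE (B := (K : ℝ≥0∞) ^ 2) (Y := Y) (Bd := Bad (Gd c g) D n₀ L V M)
    (fun y => diff_bound hc hm y) ?_).trans ?_
  · intro x hx
    have hx' : ∃ S : Finset ℕ, S ⊆ Finset.range M ∧ V < S.card ∧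
        ∀ i ∈ S, Nice (Gd c g) D n₀ L (x + i) := by
      by_contra h
      exact hx h
    rw [hV] at hx'
    have h2 := periodic hc (hdet c hg0 hD) hQ hL hx'
    apply diff_zero hm
    · rw [hY]; omega
    · intro t ht
      have h3 := h2 t ht
      have e1 : Y + x = x + M + m * Q := by rw [hY]; ring
      rw [e1]
      exact h3
  · have e1 : ENNReal.ofReal ((K : ℝ) ^ 2 * (Y + W)) =
        (K : ℝ≥0∞) ^ 2 * ((Y : ℝ≥0∞) + ENNReal.ofReal W) := by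
      rw [ENNReal.ofReal_mul (by positivity), ENNReal.ofReal_pow (by positivity), ENNReal.ofReal_natCast,
        ENNReal.ofReal_add (by positivity) hW0, ENNReal.ofReal_natCast]
    rw [e1]
    gcongr

/-- The upper bound for the generating function at one point, when the arc carries little energy. -/
theorem one_r {k : ℕ} (hk : 2 ≤ k) (A : Set ℕ) {K : ℕ} (hK1 : 1 ≤ K)
    (hK : ∀ n, Rn A (Mo (k := k)) n ≤ K) {g : ℂ[X]} (hg0 : g.coeff 0 = 1) {ζ : ℂ}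
    {δ lam B r ε1 CB c N : ℝ} (hlam : 0 ≤ lam) (hB : ∀ z : ℂ, ‖z‖ ≤ 1 → ‖g.eval z‖ ≤ B)
    (h0 : 0 ≤ r) (h1 : r < 1) (hg : ∀ u : ℂ, ‖u‖ = 1 → δ ≤ ‖u - ζ‖ → ‖g.eval (r * u)‖ ≤ lam)
    {D n₀ L V M Q m Y : ℕ} (hD : g.natDegree ≤ D) (hV : V = (K + 1) ^ n₀) (hM : M = 2 * V + 2)
    (hQ : Q = M.factorial) (hm : 0 < m) (hmN : (m : ℝ) = N) (hL : L = M + m * Q + 1)
    (hY : Y = M + m * Q) (hq : 1 / 2 ≤ (r ^ 2) ^ (M + L))
    (hN : N = (k.factorial : ℝ) ^ 2 * (K : ℝ) ^ 2 * 16 ^ k)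
    (hε1 : ε1 = 1 / (64 * K ^ 2 * N)) (hCB0 : 0 ≤ CB) (hc : c = 1 / (128 * (CB + 1) * N))
    (hε : ∑ n ∈ Finset.Ico n₀ L, lam ^ (2 * (n / D)) ≤ ε1)
    (hCB : ∑ n ∈ Finset.Ico n₀ L, B ^ (2 * (n / D)) ≤ CB)
    (hf : 1 ≤ fr A (r ^ 2)) (hlow : (1 - r ^ 2)⁻¹ / 2 ≤ fr A (r ^ 2) ^ k)
    (hFs : k.factorial * (k.factorial * K * fr A (r ^ 2) ^ (k - 1)) ≤ c * (1 - r ^ 2)⁻¹)
    (hYT : (Y : ℝ) ≤ (1 - r ^ 2)⁻¹ / (2 * N))
    (harc : ∫⁻ θ in Arc ζ δ, ‖ev (ind A) (circleMap 0 r θ)‖ₑ ^ (2 * k : ℝ) ∂mu ≤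
      ENNReal.ofReal (c * (1 - r ^ 2)⁻¹)) :
    fr A (r ^ 2) ≤ (2 * k.factorial) ^ k := by
  obtain ⟨T, hT⟩ : ∃ T : ℝ, T = (1 - r ^ 2)⁻¹ := ⟨_, rfl⟩
  have hT0 : 0 < T := by
    have : (0 : ℝ) < 1 - r ^ 2 := by nlinarith
    rw [hT]; positivity
  have hkf : (1 : ℝ) ≤ k.factorial := by
    exact_mod_cast Nat.one_le_iff_ne_zero.2 (Nat.factorial_ne_zero k)
  have hKr : (1 : ℝ) ≤ K := by exact_mod_cast hK1
  have hN0 : 0 < N := by rw [hN]; positivity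
  have hc0 : 0 < c := by rw [hc]; positivity
  rw [← hT] at hlow hFs hYT harc
  obtain ⟨cc, hcc⟩ : ∃ cc : ℕ → ℕ, cc = fun n => Rn A (Mo (k := k)) n := ⟨_, rfl⟩
  have hcK : ∀ n, cc n ≤ K := by rw [hcc]; exact hK
  have hER : ∫⁻ θ in Arc ζ δ, ‖ev (Sc cc) (circleMap 0 r θ)‖ₑ ^ (2 : ℝ) ∂mu ≤
      ENNReal.ofReal (2 * c * T) := by
    rw [hcc]
    refine (arcR A hK ζ δ h0 h1 hf).trans ?_
    have e1 : 2 * c * T = c * T + c * T := by ring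
    rw [e1, ENNReal.ofReal_add (by positivity) (by positivity)]
    exact add_le_add harc (ENNReal.ofReal_le_ofReal hFs)
  have hbad := bad_le hcK hlam hB h0 h1 hg (V := V) hM hq hε hCB (by positivity) hER
  rw [← hT] at hbad
  have hW : 16 * (ε1 * (K ^ 2 * T) + CB * (2 * c * T)) ≤ T / (2 * N) := by
    have e1 : 16 * (ε1 * (K ^ 2 * T)) = T / (4 * N) := by
      have hK0 : (K : ℝ) ≠ 0 := by linarith
      rw [hε1, div_mul_eq_mul_div, mul_div_assoc', div_eq_div_iff (by positivity) (by positivity)]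
      ring
    have e2 : 16 * (CB * (2 * c * T)) = (CB / (CB + 1)) * (T / (4 * N)) := by
      have h1 : CB + 1 ≠ 0 := by positivity
      have h2 : N ≠ 0 := hN0.ne'
      rw [hc]
      field_simp
      ring
    have e3 : CB / (CB + 1) ≤ 1 := by rw [div_le_one (by linarith)]; linarith
    have e4 : (CB / (CB + 1)) * (T / (4 * N)) ≤ 1 * (T / (4 * N)) := by gcongr
    have e5 : T / (4 * N) + 1 * (T / (4 * N)) = T / (2 * N) := by field_simp; norm_num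
    rw [mul_add, e1, e2]
    linarith
  have hbad2 := hbad.trans (ENNReal.ofReal_le_ofReal hW)
  have hdiff := diff_le hcK hg0 h0 h1 hD hV hQ hm hL hY (by positivity) hbad2
  have hdiff2 : ∫⁻ θ, ‖ev (((1 - Bp Q m : ℂ[X]) : PowerSeries ℂ) * Sc cc) (circleMap 0 r θ)‖ₑ ^ (2 : ℝ) ∂mu ≤
      ENNReal.ofReal (K ^ 2 * T / N) := by
    refine hdiff.trans (ENNReal.ofReal_le_ofReal ?_)
    have e1 : (K : ℝ) ^ 2 * T / N = K ^ 2 * (T / (2 * N) + T / (2 * N)) := by field_simp; norm_num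
    rw [e1]
    gcongr
  have hBl := Bp_l2 (Q := Q) (m := m) (by rw [hQ]; exact Nat.factorial_pos M) hm h0 h1
  have hR := lint_Sc hcK h0 h1
  rw [T_eq h0 h1, ← hT] at hR
  have hR2 : ∫⁻ θ, ‖ev (Sc cc) (circleMap 0 r θ)‖ₑ ^ (2 : ℝ) ∂mu ≤ ENNReal.ofReal (K ^ 2 * T) := by
    refine hR.trans (le_of_eq ?_)
    rw [ENNReal.ofReal_mul (by positivity), ENNReal.ofReal_pow (by positivity), ENNReal.ofReal_natCast]
  have hB2 : ∫⁻ θ, ‖(Bp Q m).eval (circleMap 0 r θ)‖ₑ ^ (2 : ℝ) ∂mu ≤ ENNReal.ofReal (1 / N) := by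
    refine hBl.trans (le_of_eq ?_)
    rw [one_div, ENNReal.ofReal_inv_of_pos hN0, ← hmN, ENNReal.ofReal_natCast]
  have hen := energy hk A hK h0 h1 hf (Bp Q m)
  rw [← hcc] at hen
  have hk0 : (0 : ℝ) < k := by exact_mod_cast (by omega : 0 < k)
  have h1k : (0 : ℝ) ≤ 1 / k := by positivity
  have hk2 : (2 : ℝ) ≤ k := by exact_mod_cast hk
  have hfin : ENNReal.ofReal (fr A (r ^ 2)) ≤ ENNReal.ofReal
      ((k.factorial : ℝ) ^ (2 / k : ℝ) * (K ^ 2 * T / N) ^ (1 / k : ℝ) +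
        (k.factorial : ℝ) ^ (2 / k : ℝ) * ((1 / N) ^ (1 / k : ℝ) * (K ^ 2 * T) ^ (1 / k : ℝ)) +
        k.factorial * fr A (r ^ 2) ^ (((k : ℝ) - 1) / k)) := by
    rw [ENNReal.ofReal_add (by positivity) (by positivity),
      ENNReal.ofReal_add (by positivity) (by positivity), ENNReal.ofReal_mul (by positivity),
      ENNReal.ofReal_mul (by positivity), ENNReal.ofReal_mul (by positivity),
      ENNReal.ofReal_mul (by positivity),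
      ← ENNReal.ofReal_rpow_of_nonneg (by positivity) (by positivity),
      ← ENNReal.ofReal_rpow_of_nonneg (x := (K : ℝ) ^ 2 * T / N) (by positivity) h1k,
      ← ENNReal.ofReal_rpow_of_nonneg (x := 1 / N) (by positivity) h1k,
      ← ENNReal.ofReal_rpow_of_nonneg (x := (K : ℝ) ^ 2 * T) (by positivity) h1k,
      ← ENNReal.ofReal_rpow_of_nonneg (x := fr A (r ^ 2)) (by linarith)
        (div_nonneg (by linarith) hk0.le), ENNReal.ofReal_natCast]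
    refine hen.trans ?_
    gcongr
  rw [ENNReal.ofReal_le_ofReal_iff (by positivity)] at hfin
  exact fin_real hk hkf hKr hN hT0 hf hlow hfin

/-- Every arc carries energy. -/
theorem main_arc {k : ℕ} (hk : 2 ≤ k) {K : ℕ} (hK1 : 1 ≤ K) {ζ : ℂ} (hζ : ‖ζ‖ = 1) {δ : ℝ}
    (hδ : 0 < δ) : ∃ c : ℝ, 0 < c ∧ ∀ A : Set ℕ, (∃ n1, ∀ n, n1 ≤ n → 1 ≤ Rn A (Mo (k := k)) n) →
      (∀ n, Rn A (Mo (k := k)) n ≤ K) → ∀ᶠ r : ℝ in 𝓝[<] 1,
        ENNReal.ofReal (c * (1 - r ^ 2)⁻¹) ≤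
          ∫⁻ θ in Arc ζ δ, ‖ev (ind A) (circleMap 0 r θ)‖ₑ ^ (2 * k : ℝ) ∂mu := by
  obtain ⟨g, lam, ρ1, hg0, hl0, hl1, hρ0, hρ1, hg⟩ := exists_g hζ hδ
  obtain ⟨B, hB⟩ := (isCompact_closedBall (0 : ℂ) 1).exists_bound_of_continuousOn
    (f := fun z => g.eval z) g.continuous.continuousOn
  have hB' : ∀ z : ℂ, ‖z‖ ≤ 1 → ‖g.eval z‖ ≤ B := fun z hz => hB z (by simpa using hz)
  have hB0 : 0 ≤ B := (norm_nonneg _).trans (hB' 0 (by simp))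
  obtain ⟨D, hDd⟩ : ∃ D : ℕ, D = g.natDegree + 1 := ⟨_, rfl⟩
  obtain ⟨m, hmd⟩ : ∃ m : ℕ, m = k.factorial ^ 2 * K ^ 2 * 16 ^ k := ⟨_, rfl⟩
  obtain ⟨N, hN⟩ : ∃ N : ℝ, N = (k.factorial : ℝ) ^ 2 * (K : ℝ) ^ 2 * 16 ^ k := ⟨_, rfl⟩
  have hkf0 := Nat.factorial_pos k
  have hm0 : 0 < m := by rw [hmd]; positivity
  have hmN : (m : ℝ) = N := by rw [hmd, hN]; push_cast; ring
  have hKr : (0 : ℝ) < K := by exact_mod_cast hK1
  have hN0 : 0 < N := by rw [← hmN]; exact_mod_cast hm0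
  obtain ⟨ε1, hε1⟩ : ∃ ε1 : ℝ, ε1 = 1 / (64 * K ^ 2 * N) := ⟨_, rfl⟩
  obtain ⟨j, hj⟩ := tail hl0 hl1 (D := D) (by omega) (ε := ε1) (by rw [hε1]; positivity)
  obtain ⟨V, hV⟩ : ∃ V : ℕ, V = (K + 1) ^ (j * D) := ⟨_, rfl⟩
  obtain ⟨M, hM⟩ : ∃ M : ℕ, M = 2 * V + 2 := ⟨_, rfl⟩
  obtain ⟨Q, hQ⟩ : ∃ Q : ℕ, Q = M.factorial := ⟨_, rfl⟩
  obtain ⟨L, hL⟩ : ∃ L : ℕ, L = M + m * Q + 1 := ⟨_, rfl⟩
  obtain ⟨Y, hY⟩ : ∃ Y : ℕ, Y = M + m * Q := ⟨_, rfl⟩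
  obtain ⟨CB, hCB⟩ : ∃ CB : ℝ, CB = ∑ n ∈ Finset.Ico (j * D) L, B ^ (2 * (n / D)) := ⟨_, rfl⟩
  have hCB0 : 0 ≤ CB := by rw [hCB]; exact Finset.sum_nonneg fun n _ => by positivity
  obtain ⟨c, hc⟩ : ∃ c : ℝ, c = 1 / (128 * (CB + 1) * N) := ⟨_, rfl⟩
  have hc0 : 0 < c := by rw [hc]; positivity
  refine ⟨c, hc0, fun A hA hK => ?_⟩
  obtain ⟨n1, hn1⟩ := hA
  -- the size needed
  obtain ⟨F1, hF1⟩ : ∃ F1 : ℝ, F1 = 1 + (2 * (k.factorial : ℝ)) ^ k + (k.factorial : ℝ) ^ 3 * K ^ 2 / c :=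
    ⟨_, rfl⟩
  have hF0 : 0 < F1 := by rw [hF1]; positivity
  have hsq : Tendsto (fun r : ℝ => r ^ 2) (𝓝[<] 1) (𝓝 1) := by
    have : Tendsto (fun r : ℝ => r ^ 2) (𝓝 1) (𝓝 (1 ^ 2)) := (continuous_pow 2).tendsto 1
    rw [one_pow] at this
    exact this.mono_left nhdsWithin_le_nhds
  have hpow : ∀ a : ℕ, ∀ᶠ r : ℝ in 𝓝[<] 1, 1 / 2 ≤ (r ^ 2) ^ a := by
    intro a
    have h2 : Tendsto (fun r : ℝ => (r ^ 2) ^ a) (𝓝[<] 1) (𝓝 (1 ^ a)) := hsq.pow a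
    rw [one_pow] at h2
    exact (h2.eventually (lt_mem_nhds (show (1 / 2 : ℝ) < 1 by norm_num))).mono fun _ h => h.le
  have hT : Tendsto (fun r : ℝ => (1 - r ^ 2)⁻¹) (𝓝[<] 1) atTop := by
    apply tendsto_inv_nhdsGT_zero.comp
    apply tendsto_nhdsWithin_of_tendsto_nhds_of_eventually_within
    · have := (tendsto_const_nhds (x := (1 : ℝ))).sub hsq
      rw [sub_self] at this
      exact this
    · filter_upwards [self_mem_nhdsWithin, Ioo_mem_nhdsLT (show (0 : ℝ) < 1 by norm_num)] with r h1 h2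
      show (0 : ℝ) < 1 - r ^ 2
      have := h2.1
      have := h2.2
      nlinarith
  filter_upwards [Ioo_mem_nhdsLT hρ1, hpow (M + L), hpow n1,
    hT.eventually_ge_atTop (2 * F1 ^ k), hT.eventually_ge_atTop (Y * (2 * N))] with r hr1 hr2 hr3 hr4 hr5
  obtain ⟨hr1a, h1⟩ := hr1
  have h0 : 0 ≤ r := hρ0.trans hr1a.le
  by_contra hcon
  push Not at hcon
  have hq1 : r ^ 2 < 1 := by nlinarith
  have hfk := fr_lower (k := k) A hn1 (q := r ^ 2) (by positivity) hq1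
  have hT0 : (0 : ℝ) < (1 - r ^ 2)⁻¹ := by
    have : (0 : ℝ) < 1 - r ^ 2 := by linarith
    positivity
  have hlow : (1 - r ^ 2)⁻¹ / 2 ≤ fr A (r ^ 2) ^ k := by
    refine le_trans ?_ hfk
    have : 1 / 2 * (1 - r ^ 2)⁻¹ ≤ (r ^ 2) ^ n1 * (1 - r ^ 2)⁻¹ := by gcongr
    linarith
  have hfr0 := fr_nonneg A (q := r ^ 2) (by positivity)
  have hF : F1 ≤ fr A (r ^ 2) := by
    have : F1 ^ k ≤ fr A (r ^ 2) ^ k := by linarith
    exact le_of_pow_le_pow_left₀ (by omega) hfr0 this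
  have hf1 : 1 ≤ fr A (r ^ 2) := by
    refine le_trans ?_ hF
    have h3 : 0 ≤ (2 * (k.factorial : ℝ)) ^ k := by positivity
    have h4 : 0 ≤ (k.factorial : ℝ) ^ 3 * K ^ 2 / c := by positivity
    rw [hF1]; linarith
  have hup := fr_upper (k := k) A hK (q := r ^ 2) (by positivity) hq1
  have hFs : k.factorial * (k.factorial * K * fr A (r ^ 2) ^ (k - 1)) ≤ c * (1 - r ^ 2)⁻¹ := by
    have h3 : (k.factorial : ℝ) ^ 3 * K ^ 2 / c ≤ fr A (r ^ 2) := by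
      have h3 : 0 ≤ (2 * (k.factorial : ℝ)) ^ k := by positivity
      rw [hF1] at hF; linarith
    rw [div_le_iff₀ hc0] at h3
    have h4 : fr A (r ^ 2) ^ k = fr A (r ^ 2) ^ (k - 1) * fr A (r ^ 2) := by
      rw [← pow_succ]; congr 1; omega
    rw [h4] at hup
    have hP0 : 0 ≤ fr A (r ^ 2) ^ (k - 1) := by positivity
    have hfpos : 0 < fr A (r ^ 2) := by linarith
    have h5 : (k.factorial * (k.factorial * K * fr A (r ^ 2) ^ (k - 1))) * fr A (r ^ 2) ≤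
        (c * (1 - r ^ 2)⁻¹) * fr A (r ^ 2) := by
      calc (k.factorial * (k.factorial * K * fr A (r ^ 2) ^ (k - 1))) * fr A (r ^ 2)
          = (k.factorial * k.factorial * K : ℝ) * (fr A (r ^ 2) ^ (k - 1) * fr A (r ^ 2)) := by ring
        _ ≤ (k.factorial * k.factorial * K : ℝ) * (k.factorial * K * (1 - r ^ 2)⁻¹) := by gcongr
        _ = ((k.factorial : ℝ) ^ 3 * K ^ 2) * (1 - r ^ 2)⁻¹ := by ring
        _ ≤ (fr A (r ^ 2) * c) * (1 - r ^ 2)⁻¹ := by gcongr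
        _ = _ := by ring
    exact le_of_mul_le_mul_right h5 hfpos
  have hYT : (Y : ℝ) ≤ (1 - r ^ 2)⁻¹ / (2 * N) := by
    rw [le_div_iff₀ (by positivity)]; exact hr5
  have hres := one_r hk A hK1 hK hg0 (ζ := ζ) (δ := δ) (N := N) (c := c) (CB := CB) (ε1 := ε1) hl0 hB'
    h0 h1 (fun u hu1 hu2 => hg r u hr1a.le h1.le hu1 hu2) (D := D) (n₀ := j * D) (L := L) (V := V)
    (M := M) (Q := Q) (m := m) (Y := Y) (by omega) hV hM hQ hm0 hmN hL hY hr2 hN hε1 hCB0 hc (hj L)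
    (le_of_eq hCB.symm) hf1 hlow hFs hYT hcon.le
  have h6 : 0 ≤ (k.factorial : ℝ) ^ 3 * K ^ 2 / c := by positivity
  rw [hF1] at hF
  linarith

end Pool.Agent.H303R3.ET
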