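import Pool.Agent.H303R3.ET.Rep

set_option autoImplicit false

/-!
# Moments of the generating function: the recursive lower bound, combinatorial part
-/

open Filter Topology MeasureTheory
open scoped ENNReal

namespace Pool.Agent.H303R3.ET

open Classical in
theorem slice (A : Set ℕ) (j n a : ℕ) :
    ((tup A (j + 1) n).filter (fun x => x 0 = a)).card =
      if a ∈ A ∧ a ≤ n then (tup A j (n - a)).card else 0 := by
  split_ifs with h
  · obtain ⟨ha, han⟩ := h
    refine Finset.card_nbij' (fun x => Fin.tail x) (fun x => (Fin.cons a x : Fin (j + 1) → ℕ))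
      ?_ ?_ ?_ ?_
    · intro x hx
      rw [Finset.mem_coe, Finset.mem_filter, mem_tup] at hx
      obtain ⟨⟨h1, h2⟩, h3⟩ := hx
      rw [Finset.mem_coe, mem_tup]
      refine ⟨fun i => h1 i.succ, ?_⟩
      rw [Fin.sum_univ_succ, h3] at h2
      have : ∑ i : Fin j, Fin.tail x i = ∑ i : Fin j, x i.succ := rfl
      rw [this]
      omega
    · intro x hx
      rw [Finset.mem_coe, mem_tup] at hx
      obtain ⟨h1, h2⟩ := hx
      rw [Finset.mem_coe, Finset.mem_filter, mem_tup]
      refine ⟨⟨fun i => ?_, ?_⟩, ?_⟩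
      · refine Fin.cases ?_ (fun i => ?_) i
        · simpa using ha
        · simpa using h1 i
      · rw [Fin.sum_univ_succ]
        simp only [Fin.cons_zero, Fin.cons_succ]
        omega
      · simp
    · intro x hx
      rw [Finset.mem_coe, Finset.mem_filter] at hx
      have : a = x 0 := hx.2.symm
      rw [this]
      exact Fin.cons_self_tail x
    · intro x _
      exact Fin.tail_cons _ _
  · rw [Finset.card_eq_zero, Finset.filter_eq_empty_iff]
    intro x hx h3
    apply h
    rw [mem_tup] at hx
    obtain ⟨h1, h2⟩ := hx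
    refine ⟨h3 ▸ h1 0, ?_⟩
    rw [← h2, ← h3]
    exact Finset.single_le_sum (f := fun i => x i) (fun _ _ => Nat.zero_le _) (Finset.mem_univ 0)

open Classical in
theorem slice_i (A : Set ℕ) (j n a : ℕ) (i : Fin (j + 1)) :
    ((tup A (j + 1) n).filter (fun x => x i = a)).card =
      ((tup A (j + 1) n).filter (fun x => x 0 = a)).card := by
  refine Finset.card_nbij' (fun x => x ∘ Equiv.swap 0 i) (fun x => x ∘ Equiv.swap 0 i) ?_ ?_ ?_ ?_
  · intro x hx
    rw [Finset.mem_coe, Finset.mem_filter] at hx ⊢
    refine ⟨(comp_mem_tup _).mpr hx.1, ?_⟩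
    simp [hx.2]
  · intro x hx
    rw [Finset.mem_coe, Finset.mem_filter] at hx ⊢
    refine ⟨(comp_mem_tup _).mpr hx.1, ?_⟩
    simp [hx.2]
  · intro x _
    funext l
    simp
  · intro x _
    funext l
    simp

open Classical in
/-- Double counting of coincidences. -/
theorem double_count (A : Set ℕ) (j n : ℕ) :
    (j + 1) * ∑ a ∈ Finset.range (n + 1), (if a ∈ A then (tup A j (n - a)).card else 0) ^ 2 ≤
      (tup A (j + 1) n).card ^ 2 + (j + 1) * ((tup A (j + 1) n).card *
        ((tup A (j + 1) n).filter (fun x => ¬ Function.Injective x)).card) := by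
  obtain ⟨T, hT⟩ : ∃ T, T = tup A (j + 1) n := ⟨_, rfl⟩
  obtain ⟨u, hu⟩ : ∃ u : ℕ → ℕ, u = fun a => if a ∈ A then (tup A j (n - a)).card else 0 := ⟨_, rfl⟩
  have hslice : ∀ (i : Fin (j + 1)) (a : ℕ), a ≤ n → (T.filter (fun x => x i = a)).card = u a := by
    intro i a ha
    rw [hT, slice_i, slice, hu]
    simp only [ha, and_true]
  have hle : ∀ x ∈ T, ∀ i, x i ∈ Finset.range (n + 1) := by
    intro x hx i
    rw [hT, mem_tup] at hx
    rw [Finset.mem_range, Nat.lt_succ_iff, ← hx.2]
    exact Finset.single_le_sum (f := fun i => x i) (fun _ _ => Nat.zero_le _) (Finset.mem_univ i)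
  -- for fixed positions
  have hpos : ∀ i l : Fin (j + 1), ∑ x ∈ T, ∑ y ∈ T, (if x i = y l then 1 else 0) =
      ∑ a ∈ Finset.range (n + 1), u a ^ 2 := by
    intro i l
    have h1 : ∀ x ∈ T, ∑ y ∈ T, (if x i = y l then 1 else 0) = u (x i) := by
      intro x hx
      rw [← hslice l (x i) (Nat.lt_succ_iff.mp (Finset.mem_range.mp (hle x hx i))), Finset.card_filter]
      refine Finset.sum_congr rfl fun y _ => ?_
      simp only [eq_comm]
    rw [Finset.sum_congr rfl h1, ← Finset.sum_fiberwise_of_maps_to (s := T)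
      (t := Finset.range (n + 1)) (g := fun x => x i) (fun x hx => hle x hx i)]
    refine Finset.sum_congr rfl fun a ha => ?_
    have h2 : ∀ x ∈ T.filter (fun x => x i = a), u (x i) = u a := by
      intro x hx
      rw [(Finset.mem_filter.mp hx).2]
    rw [Finset.sum_congr rfl h2, Finset.sum_const,
      hslice i a (Nat.lt_succ_iff.mp (Finset.mem_range.mp ha)), smul_eq_mul, sq]
  have hall : (j + 1) * ((j + 1) * ∑ a ∈ Finset.range (n + 1), u a ^ 2) =
      ∑ x ∈ T, ∑ y ∈ T, ∑ i : Fin (j + 1), ∑ l : Fin (j + 1), (if x i = y l then 1 else 0) := by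
    have h1 : ∑ x ∈ T, ∑ y ∈ T, ∑ i : Fin (j + 1), ∑ l : Fin (j + 1), (if x i = y l then 1 else 0) =
        ∑ i : Fin (j + 1), ∑ l : Fin (j + 1), ∑ x ∈ T, ∑ y ∈ T, (if x i = y l then 1 else 0) := by
      have e1 : ∀ x ∈ T, ∑ y ∈ T, ∑ i : Fin (j + 1), ∑ l : Fin (j + 1),
          (if x i = y l then 1 else 0) =
          ∑ i : Fin (j + 1), ∑ l : Fin (j + 1), ∑ y ∈ T, (if x i = y l then 1 else 0) := by
        intro x _
        rw [Finset.sum_comm]
        exact Finset.sum_congr rfl fun i _ => Finset.sum_comm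
      rw [Finset.sum_congr rfl e1, Finset.sum_comm]
      exact Finset.sum_congr rfl fun i _ => Finset.sum_comm
    rw [h1]
    simp only [hpos, Finset.sum_const, Finset.card_univ, Fintype.card_fin, smul_eq_mul]
  have hbd : ∀ x ∈ T, ∀ y ∈ T, ∑ i : Fin (j + 1), ∑ l : Fin (j + 1), (if x i = y l then 1 else 0) ≤
      (j + 1) + (if ¬ Function.Injective x then (j + 1) * (j + 1) else 0) := by
    intro x _ y _
    by_cases hx : Function.Injective x
    · rw [if_neg (not_not.mpr hx), add_zero, Finset.sum_comm]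
      calc ∑ l : Fin (j + 1), ∑ i : Fin (j + 1), (if x i = y l then 1 else 0)
          ≤ ∑ _l : Fin (j + 1), 1 := by
            apply Finset.sum_le_sum
            intro l _
            rw [← Finset.card_filter]
            apply Finset.card_le_one.mpr
            intro i1 h1 i2 h2
            apply hx
            rw [(Finset.mem_filter.mp h1).2, (Finset.mem_filter.mp h2).2]
        _ = j + 1 := by simp
    · rw [if_pos hx]
      calc ∑ i : Fin (j + 1), ∑ l : Fin (j + 1), (if x i = y l then 1 else 0)
          ≤ ∑ _i : Fin (j + 1), ∑ _l : Fin (j + 1), 1 := by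
            apply Finset.sum_le_sum
            intro i _
            apply Finset.sum_le_sum
            intro l _
            split_ifs <;> omega
        _ = (j + 1) * (j + 1) := by simp
        _ ≤ _ := Nat.le_add_left _ _
  have hfin : (j + 1) * ((j + 1) * ∑ a ∈ Finset.range (n + 1), u a ^ 2) ≤
      (j + 1) * (T.card ^ 2 + (j + 1) * (T.card *
        (T.filter (fun x => ¬ Function.Injective x)).card)) := by
    rw [hall]
    calc ∑ x ∈ T, ∑ y ∈ T, ∑ i : Fin (j + 1), ∑ l : Fin (j + 1), (if x i = y l then 1 else 0)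
        ≤ ∑ x ∈ T, ∑ _y ∈ T, ((j + 1) + (if ¬ Function.Injective x then (j + 1) * (j + 1) else 0)) :=
          Finset.sum_le_sum fun x hx => Finset.sum_le_sum fun y hy => hbd x hx y hy
      _ = (j + 1) * (T.card ^ 2 + (j + 1) * (T.card *
          (T.filter (fun x => ¬ Function.Injective x)).card)) := by
          simp only [Finset.sum_const, smul_eq_mul, mul_add, Finset.sum_add_distrib, ← Finset.mul_sum]
          rw [← Finset.sum_filter, Finset.sum_const, smul_eq_mul]
          ring
  have := Nat.le_of_mul_le_mul_left hfin (Nat.succ_pos j)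
  rw [← hT]
  rw [hu] at this
  exact this

open Classical in
theorem noninj_le (A : Set ℕ) (k n : ℕ) :
    ((tup A k n).filter (fun x => ¬ Function.Injective x)).card ≤
      ∑ σ ∈ Finset.univ.erase (1 : Equiv.Perm (Fin k)),
        ((tup A k n).filter (fun x => x ∘ σ = x)).card := by
  have h1 : (tup A k n).filter (fun x => ¬ Function.Injective x) ⊆
      (Finset.univ.erase (1 : Equiv.Perm (Fin k))).biUnion
        (fun σ => (tup A k n).filter (fun x => x ∘ σ = x)) := by
    intro x hx
    obtain ⟨hx1, hx2⟩ := Finset.mem_filter.mp hx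
    rw [Finset.mem_biUnion]
    unfold Function.Injective at hx2
    push Not at hx2
    obtain ⟨i, l, h, hil⟩ := hx2
    refine ⟨Equiv.swap i l, ?_, Finset.mem_filter.mpr ⟨hx1, ?_⟩⟩
    · rw [Finset.mem_erase]
      refine ⟨?_, Finset.mem_univ _⟩
      intro hcon
      exact hil (Equiv.swap_eq_one_iff.mp hcon)
    · funext m
      rw [Function.comp_apply]
      by_cases hm1 : m = i
      · rw [hm1, Equiv.swap_apply_left, h]
      · by_cases hm2 : m = l
        · rw [hm2, Equiv.swap_apply_right, h]
        · rw [Equiv.swap_apply_of_ne_of_ne hm1 hm2]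
  exact (Finset.card_le_card h1).trans Finset.card_biUnion_le

end Pool.Agent.H303R3.ET
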