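import Pool.Agent.H303R3.ET.Mom

set_option autoImplicit false

/-!
# Moments of the generating function: the recursive lower bound
-/

open Filter Topology MeasureTheory
open scoped ENNReal

namespace Pool.Agent.H303R3.ET

/-- the moments -/
noncomputable def mom (A : Set ℕ) (j : ℕ) (q : ℝ) : ℝ := ∑' n, ((tup A j n).card : ℝ) ^ 2 * q ^ n

theorem tup_bd {A : Set ℕ} (hA : A.Nonempty) {k K' : ℕ} (h : ∀ n, (tup A k n).card ≤ K') :
    ∀ d j : ℕ, j + d = k → ∀ n, (tup A j n).card ≤ K' := by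
  classical
  obtain ⟨a, ha⟩ := hA
  intro d
  induction d with
  | zero => intro j hj n; rw [add_zero] at hj; rw [hj]; exact h n
  | succ d ih =>
    intro j hj n
    have h1 := ih (j + 1) (by omega) (n + a)
    have h2 := slice A j (n + a) a
    rw [if_pos ⟨ha, Nat.le_add_left a n⟩, Nat.add_sub_cancel] at h2
    rw [← h2]
    exact (Finset.card_filter_le _ _).trans h1

theorem mom_summable {A : Set ℕ} {j K' : ℕ} (h : ∀ n, (tup A j n).card ≤ K') {q : ℝ} (h0 : 0 ≤ q)
    (h1 : q < 1) : Summable fun n => ((tup A j n).card : ℝ) ^ 2 * q ^ n := by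
  refine Summable.of_nonneg_of_le (fun n => by positivity) (fun n => ?_)
    ((summable_geometric_of_lt_one h0 h1).mul_left ((K' : ℝ) ^ 2))
  have : ((tup A j n).card : ℝ) ≤ K' := by exact_mod_cast h n
  gcongr

theorem mom_nonneg (A : Set ℕ) (j : ℕ) {q : ℝ} (h0 : 0 ≤ q) : 0 ≤ mom A j q :=
  tsum_nonneg fun n => by positivity

open Classical in
theorem mom_conv {A : Set ℕ} {j K' : ℕ} (h : ∀ n, (tup A j n).card ≤ K') {q : ℝ} (h0 : 0 ≤ q)
    (h1 : q < 1) :
    HasSum (fun n => (∑ a ∈ Finset.range (n + 1),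
      (((if a ∈ A then (tup A j (n - a)).card else 0) ^ 2 : ℕ) : ℝ)) * q ^ n)
      (fr A q * mom A j q) := by
  have hz : ‖(q : ℂ)‖ < 1 := by rwa [Complex.norm_real, Real.norm_of_nonneg h0]
  obtain ⟨G, hG⟩ : ∃ G : PowerSeries ℂ, G = PowerSeries.mk fun n => (((tup A j n).card : ℂ)) ^ 2 :=
    ⟨_, rfl⟩
  have hGc : Conv G := by
    refine Conv.of_bdd (B := (K' : ℝ) ^ 2) fun n => ?_
    rw [hG, PowerSeries.coeff_mk, norm_pow, Complex.norm_natCast]
    have : ((tup A j n).card : ℝ) ≤ K' := by exact_mod_cast h n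
    gcongr
  have hev := ev_mul (conv_ind A) hGc hz
  have hs := ((conv_ind A).mul hGc).hasSum hz
  rw [hev, ev_ind_real] at hs
  have hG2 : ev G (q : ℂ) = (mom A j q : ℂ) := by
    unfold ev mom
    rw [Complex.ofReal_tsum, hG]
    refine tsum_congr fun n => ?_
    rw [PowerSeries.coeff_mk]
    push_cast
    ring
  rw [hG2] at hs
  have hre := Complex.hasSum_re hs
  have e1 : ((fr A q : ℂ) * (mom A j q : ℂ)).re = fr A q * mom A j q := by
    rw [← Complex.ofReal_mul, Complex.ofReal_re]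
  rw [e1] at hre
  have hcoef : ∀ n, PowerSeries.coeff n (ind A * G) = ((∑ a ∈ Finset.range (n + 1),
      (((if a ∈ A then (tup A j (n - a)).card else 0) ^ 2 : ℕ) : ℝ) : ℝ) : ℂ) := by
    intro n
    rw [PowerSeries.coeff_mul, Finset.Nat.sum_antidiagonal_eq_sum_range_succ
      (fun i m => PowerSeries.coeff i (ind A) * PowerSeries.coeff m G), hG]
    push_cast
    refine Finset.sum_congr rfl fun a _ => ?_
    unfold ind
    simp only [PowerSeries.coeff_mk]
    split_ifs <;> simp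
  have e2 : (fun n => (∑ a ∈ Finset.range (n + 1),
      (((if a ∈ A then (tup A j (n - a)).card else 0) ^ 2 : ℕ) : ℝ)) * q ^ n) =
      fun n => (PowerSeries.coeff n (ind A * G) * (q : ℂ) ^ n).re := by
    funext n
    rw [hcoef, ← Complex.ofReal_pow, ← Complex.ofReal_mul, Complex.ofReal_re]
  rw [e2]
  exact hre

theorem Fs_coeff_card (A : Set ℕ) {k : ℕ} (σ : Equiv.Perm (Fin k)) (n : ℕ) :
    ‖PowerSeries.coeff n (Fs A σ)‖ =
      ((open Classical in Finset.card ((tup A k n).filter (fun x => x ∘ σ = x)) : ℕ) : ℝ) := by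
  classical
  unfold Fs
  rw [PowerSeries.coeff_mk, Complex.norm_natCast]

theorem mom_rec {A : Set ℕ} {j K' : ℕ} (h : ∀ n, (tup A j n).card ≤ K')
    (h' : ∀ n, (tup A (j + 1) n).card ≤ K') {q : ℝ} (h0 : 0 ≤ q) (h1 : q < 1) (hf : 1 ≤ fr A q) :
    (j + 1) * (fr A q * mom A j q) ≤ mom A (j + 1) q +
      (j + 1) * K' * (j + 1).factorial * fr A q ^ j := by
  classical
  have hs1 := (mom_conv h h0 h1).mul_left ((j : ℝ) + 1)
  have hs2 := mom_summable h' h0 h1
  have hs3 : ∀ σ : Equiv.Perm (Fin (j + 1)), Summable fun n =>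
      ‖PowerSeries.coeff n (Fs A σ)‖ * q ^ n := fun σ => conv_Fs A σ q h0 h1
  have hs4 : HasSum (fun n => ∑ σ ∈ Finset.univ.erase (1 : Equiv.Perm (Fin (j + 1))),
      ‖PowerSeries.coeff n (Fs A σ)‖ * q ^ n) (∑ σ ∈ Finset.univ.erase (1 : Equiv.Perm (Fin (j + 1))),
      ∑' n, ‖PowerSeries.coeff n (Fs A σ)‖ * q ^ n) :=
    hasSum_sum fun σ _ => (hs3 σ).hasSum
  have hpt : ∀ n, ((j : ℝ) + 1) * ((∑ a ∈ Finset.range (n + 1),
      (((if a ∈ A then (tup A j (n - a)).card else 0) ^ 2 : ℕ) : ℝ)) * q ^ n) ≤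
      ((tup A (j + 1) n).card : ℝ) ^ 2 * q ^ n + ((j : ℝ) + 1) * K' *
        ∑ σ ∈ Finset.univ.erase (1 : Equiv.Perm (Fin (j + 1))),
          ‖PowerSeries.coeff n (Fs A σ)‖ * q ^ n := by
    intro n
    have h2 := double_count A j n
    have h3 := noninj_le A (j + 1) n
    have h4 : (tup A (j + 1) n).card * ((tup A (j + 1) n).filter
        (fun x => ¬ Function.Injective x)).card ≤ K' * ∑ σ ∈ Finset.univ.erase
          (1 : Equiv.Perm (Fin (j + 1))), ((tup A (j + 1) n).filter (fun x => x ∘ σ = x)).card :=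
      Nat.mul_le_mul (h' n) h3
    have h5 : (j + 1) * ∑ a ∈ Finset.range (n + 1), (if a ∈ A then (tup A j (n - a)).card else 0) ^ 2 ≤
        (tup A (j + 1) n).card ^ 2 + (j + 1) * (K' * ∑ σ ∈ Finset.univ.erase
          (1 : Equiv.Perm (Fin (j + 1))), ((tup A (j + 1) n).filter (fun x => x ∘ σ = x)).card) :=
      h2.trans (Nat.add_le_add_left (Nat.mul_le_mul_left _ h4) _)
    have h6 : ((j : ℝ) + 1) * ∑ a ∈ Finset.range (n + 1),
        (((if a ∈ A then (tup A j (n - a)).card else 0) ^ 2 : ℕ) : ℝ) ≤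
        ((tup A (j + 1) n).card : ℝ) ^ 2 + ((j : ℝ) + 1) * (K' * ∑ σ ∈ Finset.univ.erase
          (1 : Equiv.Perm (Fin (j + 1))), ‖PowerSeries.coeff n (Fs A σ)‖) := by
      simp only [Fs_coeff_card]
      exact_mod_cast h5
    have hqn : 0 ≤ q ^ n := by positivity
    have h7 := mul_le_mul_of_nonneg_right h6 hqn
    rw [← Finset.sum_mul]
    calc _ = (((j : ℝ) + 1) * ∑ a ∈ Finset.range (n + 1),
        (((if a ∈ A then (tup A j (n - a)).card else 0) ^ 2 : ℕ) : ℝ)) * q ^ n := by ring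
      _ ≤ _ := h7
      _ = _ := by ring
  have hle := hasSum_le hpt hs1 (hs2.hasSum.add (hs4.mul_left (((j : ℝ) + 1) * K')))
  refine hle.trans (add_le_add le_rfl ?_)
  have h8 : ∑ σ ∈ Finset.univ.erase (1 : Equiv.Perm (Fin (j + 1))),
      ∑' n, ‖PowerSeries.coeff n (Fs A σ)‖ * q ^ n ≤ (j + 1).factorial * fr A q ^ j := by
    calc ∑ σ ∈ Finset.univ.erase (1 : Equiv.Perm (Fin (j + 1))),
          ∑' n, ‖PowerSeries.coeff n (Fs A σ)‖ * q ^ n
        ≤ ∑ _σ ∈ Finset.univ.erase (1 : Equiv.Perm (Fin (j + 1))), fr A q ^ j := by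
          apply Finset.sum_le_sum
          intro σ hσ
          have := tsum_Fs A σ (Finset.ne_of_mem_erase hσ) h0 h1 hf
          rwa [Nat.add_sub_cancel] at this
      _ = (Finset.univ.erase (1 : Equiv.Perm (Fin (j + 1)))).card * fr A q ^ j := by
          rw [Finset.sum_const, nsmul_eq_mul]
      _ ≤ (j + 1).factorial * fr A q ^ j := by
          apply mul_le_mul_of_nonneg_right _ (pow_nonneg (fr_nonneg A h0) _)
          have : (Finset.univ.erase (1 : Equiv.Perm (Fin (j + 1)))).card ≤ (j + 1).factorial := by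
            refine (Finset.card_erase_le).trans (le_of_eq ?_)
            rw [Finset.card_univ, Fintype.card_perm, Fintype.card_fin]
          exact_mod_cast this
  calc ((j : ℝ) + 1) * K' * ∑ σ ∈ Finset.univ.erase (1 : Equiv.Perm (Fin (j + 1))),
        ∑' n, ‖PowerSeries.coeff n (Fs A σ)‖ * q ^ n
      ≤ ((j : ℝ) + 1) * K' * ((j + 1).factorial * fr A q ^ j) :=
        mul_le_mul_of_nonneg_left h8 (by positivity)
    _ = _ := by ring

/-- Lower bound for the moments. -/
theorem mom_low {A : Set ℕ} {K' k : ℕ} (h : ∀ j, j ≤ k → ∀ n, (tup A j n).card ≤ K') (j : ℕ)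
    (hj : j ≤ k) : ∃ C : ℝ, 0 ≤ C ∧ ∀ q : ℝ, 0 ≤ q → q < 1 → 1 ≤ fr A q →
      j.factorial * fr A q ^ (j + 1) ≤ fr A q * mom A j q + C * fr A q ^ j := by
  classical
  induction j with
  | zero =>
    refine ⟨0, le_rfl, fun q h0 h1 hf => ?_⟩
    have h2 : 1 ≤ mom A 0 q := by
      have hs := mom_summable (h 0 hj) h0 h1
      have h3 : ((tup A 0 0).card : ℝ) ^ 2 * q ^ 0 ≤ mom A 0 q :=
        hs.le_tsum 0 (fun n _ => by positivity)
      have h4 : 1 ≤ (tup A 0 0).card := by
        rw [Nat.one_le_iff_ne_zero, Ne, Finset.card_eq_zero]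
        intro hcon
        have : (Fin.elim0 : Fin 0 → ℕ) ∈ tup A 0 0 := by
          rw [mem_tup]
          exact ⟨fun i => i.elim0, by simp⟩
        rw [hcon] at this
        simp at this
      have h5 : (1 : ℝ) ≤ (tup A 0 0).card := by exact_mod_cast h4
      rw [pow_zero, mul_one] at h3
      nlinarith
    simp only [Nat.factorial_zero, Nat.cast_one, one_mul, zero_add, pow_one, pow_zero, mul_one,
      add_zero]
    nlinarith
  | succ j ih =>
    obtain ⟨C, hC0, hC⟩ := ih (by omega)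
    refine ⟨(j + 1) * C + (j + 1) * K' * (j + 1).factorial, by positivity, fun q h0 h1 hf => ?_⟩
    have h2 := hC q h0 h1 hf
    have h3 := mom_rec (h j (by omega)) (h (j + 1) hj) h0 h1 hf
    have hf0 : 0 ≤ fr A q := by linarith
    have h4 : ((j : ℝ) + 1) * (j.factorial * fr A q ^ (j + 1)) ≤
        ((j : ℝ) + 1) * (fr A q * mom A j q + C * fr A q ^ j) :=
      mul_le_mul_of_nonneg_left h2 (by positivity)
    have h5 : ((j : ℝ) + 1) * (j.factorial * fr A q ^ (j + 1)) ≤ mom A (j + 1) q +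
        ((j + 1) * C + (j + 1) * K' * (j + 1).factorial) * fr A q ^ j := by
      linarith
    have h6 := mul_le_mul_of_nonneg_left h5 hf0
    rw [Nat.factorial_succ]
    push_cast
    calc ((j : ℝ) + 1) * j.factorial * fr A q ^ (j + 1 + 1) =
          fr A q * (((j : ℝ) + 1) * (j.factorial * fr A q ^ (j + 1))) := by ring
      _ ≤ _ := h6
      _ = _ := by
        rw [Nat.factorial_succ]
        push_cast
        ring

end Pool.Agent.H303R3.ET
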