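import Pool.Agent.H303R3.Ev

set_option autoImplicit false

/-!
# A polynomial with constant term 1 which is small off an arc
-/

open Polynomial Filter Topology

namespace Pool.Agent.H303R3.ET

theorem conv_poly (g : ℂ[X]) : Conv (g : PowerSeries ℂ) := by
  intro ρ h0 h1
  apply summable_of_ne_finset_zero (s := g.support)
  intro n hn
  rw [Polynomial.coeff_coe, Polynomial.notMem_support_iff.1 hn]
  simp

theorem ev_poly (g : ℂ[X]) (z : ℂ) : ev (g : PowerSeries ℂ) z = g.eval z := by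
  unfold ev
  rw [tsum_eq_sum (s := g.support), Polynomial.eval_eq_sum, Polynomial.sum]
  · refine Finset.sum_congr rfl fun n _ => ?_
    rw [Polynomial.coeff_coe]
  · intro n hn
    rw [Polynomial.coeff_coe, Polynomial.notMem_support_iff.1 hn, zero_mul]

/-- Twice the off-diagonal part of the Fejér kernel. -/
noncomputable def Hs (M : ℕ) (v : ℂ) : ℂ := ∑ n ∈ Finset.range M, ∑ k ∈ Finset.range n, 2 * v ^ (k + 1)

theorem fejer {v : ℂ} (hv : ‖v‖ = 1) (M : ℕ) :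
    ‖∑ j ∈ Finset.range M, v ^ j‖ ^ 2 = M + (Hs M v).re := by
  have hvv : v * (starRingEnd ℂ) v = 1 := by
    rw [Complex.mul_conj, Complex.normSq_eq_norm_sq, hv]; simp
  induction M with
  | zero => simp [Hs]
  | succ M ih =>
    unfold Hs at ih ⊢
    rw [Finset.sum_range_succ, Finset.sum_range_succ, ← Complex.normSq_eq_norm_sq, Complex.normSq_add,
      Complex.normSq_eq_norm_sq, Complex.normSq_eq_norm_sq, ih, norm_pow, hv, Complex.add_re]
    have h1 : ((∑ j ∈ Finset.range M, v ^ j) * (starRingEnd ℂ) (v ^ M)).re =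
        (∑ k ∈ Finset.range M, v ^ (k + 1)).re := by
      have h2 : ((∑ j ∈ Finset.range M, v ^ j) * (starRingEnd ℂ) (v ^ M)) =
          (starRingEnd ℂ) (∑ k ∈ Finset.range M, v ^ (k + 1)) := by
        rw [map_sum, Finset.sum_mul, ← Finset.sum_range_reflect]
        refine Finset.sum_congr rfl fun j hj => ?_
        rw [Finset.mem_range] at hj
        rw [map_pow, map_pow]
        obtain ⟨u, hu⟩ : ∃ u : ℂ, u = (starRingEnd ℂ) v := ⟨_, rfl⟩
        rw [← hu] at hvv ⊢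
        have h3 : M = (M - 1 - j) + (j + 1) := by omega
        calc v ^ (M - 1 - j) * u ^ M = v ^ (M - 1 - j) * u ^ ((M - 1 - j) + (j + 1)) := by
              rw [← h3]
          _ = (v * u) ^ (M - 1 - j) * u ^ (j + 1) := by rw [pow_add, mul_pow]; ring
          _ = u ^ (j + 1) := by rw [hvv, one_pow, one_mul]
      rw [h2, Complex.conj_re]
    rw [h1, ← Finset.mul_sum]
    have h4 : (2 * ∑ k ∈ Finset.range M, v ^ (k + 1)).re =
        2 * (∑ k ∈ Finset.range M, v ^ (k + 1)).re := by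
      rw [show (2 : ℂ) = ((2 : ℝ) : ℂ) by norm_num, Complex.re_ofReal_mul]
    rw [h4]
    push_cast
    ring

theorem Hs_norm {v : ℂ} (hv : ‖v‖ = 1) (M : ℕ) : ‖Hs M v‖ ≤ (M : ℝ) ^ 2 * 2 := by
  unfold Hs
  have h1 : ∀ n ∈ Finset.range M, ‖∑ k ∈ Finset.range n, 2 * v ^ (k + 1)‖ ≤ M * 2 := by
    intro n hn
    rw [Finset.mem_range] at hn
    refine (norm_sum_le _ _).trans ?_
    have h2 : ∀ k ∈ Finset.range n, ‖2 * v ^ (k + 1)‖ ≤ 2 := by
      intro k _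
      rw [norm_mul, norm_pow, hv]; simp
    refine (Finset.sum_le_sum h2).trans ?_
    rw [Finset.sum_const, Finset.card_range, nsmul_eq_mul]
    have : (n : ℝ) ≤ M := by exact_mod_cast hn.le
    gcongr
  refine (norm_sum_le _ _).trans ((Finset.sum_le_sum h1).trans ?_)
  rw [Finset.sum_const, Finset.card_range, nsmul_eq_mul]
  apply le_of_eq; ring

theorem off {v : ℂ} {δ : ℝ} (hv : ‖v‖ = 1) (hδ : 0 < δ) (h : δ ≤ ‖v - 1‖) (M : ℕ) :
    (Hs M v).re ≤ 4 / δ ^ 2 - M := by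
  have h1 := fejer hv M
  have hv1 : v ≠ 1 := by
    intro h2
    rw [h2, sub_self, norm_zero] at h
    linarith
  have h2 : ‖∑ j ∈ Finset.range M, v ^ j‖ ≤ 2 / δ := by
    rw [geom_sum_eq hv1, norm_div]
    have h3 : ‖v ^ M - 1‖ ≤ 2 := by
      refine (norm_sub_le _ _).trans ?_
      rw [norm_pow, hv]; norm_num
    gcongr
  have h3 : ‖∑ j ∈ Finset.range M, v ^ j‖ ^ 2 ≤ 4 / δ ^ 2 := by
    calc ‖∑ j ∈ Finset.range M, v ^ j‖ ^ 2 ≤ (2 / δ) ^ 2 := by gcongr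
      _ = 4 / δ ^ 2 := by rw [div_pow]; norm_num
  linarith

theorem exists_small {ζ : ℂ} (hζ : ‖ζ‖ = 1) {δ : ℝ} (hδ : 0 < δ) : ∃ (g : ℂ[X]) (lam : ℝ),
    g.coeff 0 = 1 ∧ 0 ≤ lam ∧ lam < 1 ∧ ∀ u : ℂ, ‖u‖ = 1 → δ ≤ ‖u - ζ‖ → ‖g.eval u‖ ≤ lam := by
  obtain ⟨M, hM⟩ := exists_nat_ge (4 / δ ^ 2 + 1)
  have hM1 : (1 : ℝ) ≤ M := by
    have : 0 < 4 / δ ^ 2 := by positivity
    linarith
  obtain ⟨B, hB⟩ : ∃ B : ℝ, B = (M : ℝ) ^ 2 * 2 := ⟨_, rfl⟩
  have hB1 : 1 ≤ B := by rw [hB]; nlinarith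
  obtain ⟨t, ht⟩ : ∃ t : ℝ, t = 1 / B ^ 2 := ⟨_, rfl⟩
  have ht0 : 0 < t := by rw [ht]; positivity
  obtain ⟨g, hg⟩ : ∃ g : ℂ[X], g = 1 + Polynomial.C (t : ℂ) *
      ∑ n ∈ Finset.range M, ∑ k ∈ Finset.range n,
        (Polynomial.C (2 * ((starRingEnd ℂ) ζ) ^ (k + 1)) * X ^ (k + 1)) := ⟨_, rfl⟩
  refine ⟨g, Real.sqrt (1 - 1 / B ^ 2), ?_, Real.sqrt_nonneg _, ?_, ?_⟩
  · rw [hg, Polynomial.coeff_add, Polynomial.coeff_one_zero, Polynomial.coeff_C_mul,
      Polynomial.finsetSum_coeff]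
    have : ∀ n ∈ Finset.range M, (∑ k ∈ Finset.range n,
        (Polynomial.C (2 * ((starRingEnd ℂ) ζ) ^ (k + 1)) * X ^ (k + 1) : ℂ[X])).coeff 0 = 0 := by
      intro n _
      rw [Polynomial.finsetSum_coeff]
      apply Finset.sum_eq_zero
      intro k _
      rw [Polynomial.coeff_C_mul, Polynomial.coeff_X_pow]
      simp
    rw [Finset.sum_eq_zero this, mul_zero, add_zero]
  · rw [Real.sqrt_lt' one_pos]
    have : 0 < 1 / B ^ 2 := by positivity
    linarith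
  · intro u hu hdu
    obtain ⟨v, hv⟩ : ∃ v : ℂ, v = (starRingEnd ℂ) ζ * u := ⟨_, rfl⟩
    have hv1 : ‖v‖ = 1 := by rw [hv, norm_mul, RCLike.norm_conj, hζ, hu, one_mul]
    have hζζ : (starRingEnd ℂ) ζ * ζ = 1 := by
      rw [mul_comm, Complex.mul_conj, Complex.normSq_eq_norm_sq, hζ]; simp
    have hvd : δ ≤ ‖v - 1‖ := by
      have : v - 1 = (starRingEnd ℂ) ζ * (u - ζ) := by rw [hv, mul_sub, hζζ]
      rw [this, norm_mul, RCLike.norm_conj, hζ, one_mul]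
      exact hdu
    have he : g.eval u = 1 + t * Hs M v := by
      rw [hg, Polynomial.eval_add, Polynomial.eval_one, Polynomial.eval_mul, Polynomial.eval_C,
        Polynomial.eval_finsetSum]
      congr 2
      unfold Hs
      refine Finset.sum_congr rfl fun n _ => ?_
      rw [Polynomial.eval_finsetSum]
      refine Finset.sum_congr rfl fun k _ => ?_
      rw [Polynomial.eval_mul, Polynomial.eval_C, Polynomial.eval_pow, Polynomial.eval_X, hv]
      ring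
    have h1 := off hv1 hδ hvd M
    have h2 := Hs_norm hv1 M
    rw [← hB] at h2
    rw [he]
    apply Real.le_sqrt_of_sq_le
    rw [← Complex.normSq_eq_norm_sq, Complex.normSq_add]
    have h3 : Complex.normSq ((t : ℂ) * Hs M v) = t ^ 2 * ‖Hs M v‖ ^ 2 := by
      rw [Complex.normSq_mul, Complex.normSq_ofReal, Complex.normSq_eq_norm_sq]; ring
    have h4 : (1 * (starRingEnd ℂ) ((t : ℂ) * Hs M v)).re = t * (Hs M v).re := by
      rw [one_mul, Complex.conj_re, Complex.re_ofReal_mul]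
    rw [h3, h4, map_one]
    have h5 : (Hs M v).re ≤ -1 := by linarith
    have h6 : t * (Hs M v).re ≤ t * (-1) := by gcongr
    have h7 : t ^ 2 * ‖Hs M v‖ ^ 2 ≤ t ^ 2 * B ^ 2 := by gcongr
    have h8 : t ^ 2 * B ^ 2 = t := by
      rw [ht]; field_simp
    rw [ht] at h6 h7 h8 ⊢
    linarith

/-- The version needed near the circle. -/
theorem exists_g {ζ : ℂ} (hζ : ‖ζ‖ = 1) {δ : ℝ} (hδ : 0 < δ) : ∃ (g : ℂ[X]) (lam ρ1 : ℝ),
    g.coeff 0 = 1 ∧ 0 ≤ lam ∧ lam < 1 ∧ 0 ≤ ρ1 ∧ ρ1 < 1 ∧ ∀ (ρ : ℝ) (u : ℂ), ρ1 ≤ ρ → ρ ≤ 1 →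
      ‖u‖ = 1 → δ ≤ ‖u - ζ‖ → ‖g.eval (ρ * u)‖ ≤ lam := by
  obtain ⟨g, l0, hg0, hl0, hl1, hg⟩ := exists_small hζ hδ
  have huc : UniformContinuousOn (fun z => g.eval z) (Metric.closedBall (0 : ℂ) 1) :=
    (isCompact_closedBall (0 : ℂ) 1).uniformContinuousOn_of_continuous g.continuous.continuousOn
  rw [Metric.uniformContinuousOn_iff] at huc
  obtain ⟨d, hd, hdd⟩ := huc ((1 - l0) / 2) (by linarith)
  refine ⟨g, (1 + l0) / 2, max 0 (1 - d / 2), hg0, by linarith, by linarith, le_max_left _ _,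
    max_lt one_pos (by linarith), ?_⟩
  intro ρ u h1 h2 hu hdu
  have h3 : 1 - d / 2 ≤ ρ := (le_max_right _ _).trans h1
  have h4 : 0 ≤ ρ := (le_max_left _ _).trans h1
  have h5 := hdd u (by simp [hu]) (ρ * u) (by
    rw [mem_closedBall_zero_iff, norm_mul, hu, Complex.norm_real, Real.norm_of_nonneg h4, mul_one]
    exact h2) (by
    rw [dist_eq_norm]
    have : u - ρ * u = ((1 - ρ : ℝ) : ℂ) * u := by push_cast; ring
    rw [this, norm_mul, hu, Complex.norm_real, Real.norm_of_nonneg (by linarith), mul_one]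
    linarith)
  rw [dist_eq_norm] at h5
  have h6 := hg u hu hdu
  have h7 := norm_sub_norm_le (g.eval (ρ * u)) (g.eval u)
  rw [norm_sub_rev] at h7
  linarith

end Pool.Agent.H303R3.ET
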