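import Pool.Agent.H303R3.ET.Dens
import Pool.Agent.H303R3.ET.Poly

set_option autoImplicit false

/-!
# Predictors
-/

open Polynomial Filter Topology MeasureTheory
open scoped ENNReal

namespace Pool.Agent.H303R3.ET

/-- the series of a sequence -/
noncomputable def Sc (c : ℕ → ℕ) : PowerSeries ℂ := PowerSeries.mk fun n => (c n : ℂ)

theorem conv_Sc {c : ℕ → ℕ} {K : ℕ} (hc : ∀ n, c n ≤ K) : Conv (Sc c) := by
  refine Conv.of_bdd (B := K) fun n => ?_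
  unfold Sc
  rw [PowerSeries.coeff_mk, Complex.norm_natCast]
  exact_mod_cast hc n

/-- the good positions for the `j`-th predictor -/
def Gd (c : ℕ → ℕ) (g : ℂ[X]) (j : ℕ) : Set ℕ :=
  {y | ‖PowerSeries.coeff y (((g ^ j : ℂ[X]) : PowerSeries ℂ) * Sc c)‖ < 1 / 2}

theorem coeff_pred (c : ℕ → ℕ) {G : ℂ[X]} {d : ℕ} (hd : G.natDegree ≤ d) {y : ℕ} (hy : d ≤ y) :
    PowerSeries.coeff y ((G : PowerSeries ℂ) * Sc c) =
      ∑ i ∈ Finset.range (d + 1), G.coeff i * (c (y - i) : ℂ) := by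
  rw [PowerSeries.coeff_mul, Finset.Nat.sum_antidiagonal_eq_sum_range_succ
    (f := fun a b => PowerSeries.coeff a (G : PowerSeries ℂ) * PowerSeries.coeff b (Sc c))]
  have h1 : Finset.range (d + 1) ⊆ Finset.range (y + 1) := by
    intro i hi
    rw [Finset.mem_range] at hi ⊢
    omega
  rw [← Finset.sum_subset h1]
  · refine Finset.sum_congr rfl fun i _ => ?_
    rw [Polynomial.coeff_coe]
    unfold Sc
    rw [PowerSeries.coeff_mk]
  · intro i _ hi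
    rw [Finset.mem_range] at hi
    rw [Polynomial.coeff_coe, Polynomial.coeff_eq_zero_of_natDegree_lt (by omega), zero_mul]

theorem hdet (c : ℕ → ℕ) {g : ℂ[X]} (h0 : g.coeff 0 = 1) {D : ℕ} (hD : g.natDegree ≤ D) :
    ∀ j y y', j * D ≤ y → j * D ≤ y' → y ∈ Gd c g j → y' ∈ Gd c g j →
      (∀ i, 1 ≤ i → i ≤ j * D → c (y - i) = c (y' - i)) → c y = c y' := by
  intro j y y' hy hy' h1 h2 h3
  have hd : (g ^ j).natDegree ≤ j * D :=
    Polynomial.natDegree_pow_le.trans (Nat.mul_le_mul_left j hD)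
  have h1' : ‖PowerSeries.coeff y (((g ^ j : ℂ[X]) : PowerSeries ℂ) * Sc c)‖ < 1 / 2 := h1
  have h2' : ‖PowerSeries.coeff y' (((g ^ j : ℂ[X]) : PowerSeries ℂ) * Sc c)‖ < 1 / 2 := h2
  rw [coeff_pred c hd hy] at h1'
  rw [coeff_pred c hd hy'] at h2'
  have h4 : (∑ i ∈ Finset.range (j * D + 1), (g ^ j).coeff i * (c (y - i) : ℂ)) -
      (∑ i ∈ Finset.range (j * D + 1), (g ^ j).coeff i * (c (y' - i) : ℂ)) = (c y : ℂ) - c y' := by
    rw [← Finset.sum_sub_distrib, Finset.sum_eq_single 0]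
    · have : (g ^ j).coeff 0 = 1 := by
        rw [Polynomial.coeff_zero_eq_eval_zero, Polynomial.eval_pow,
          ← Polynomial.coeff_zero_eq_eval_zero, h0, one_pow]
      rw [this]; simp
    · intro i hi hi0
      rw [Finset.mem_range] at hi
      rw [h3 i (by omega) (by omega), sub_self]
    · intro h
      exact absurd (Finset.mem_range.2 (Nat.succ_pos _)) h
  have h5 := norm_sub_le (∑ i ∈ Finset.range (j * D + 1), (g ^ j).coeff i * (c (y - i) : ℂ))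
    (∑ i ∈ Finset.range (j * D + 1), (g ^ j).coeff i * (c (y' - i) : ℂ))
  rw [h4] at h5
  have h6 : ‖(c y : ℂ) - c y'‖ < 1 := by linarith
  have h7 : (c y : ℂ) - c y' = (((c y : ℤ) - c y' : ℤ) : ℂ) := by push_cast; ring
  rw [h7, Complex.norm_intCast] at h6
  have h8 : |(c y : ℤ) - c y'| < 1 := by exact_mod_cast h6
  rw [Int.abs_lt_one_iff] at h8
  omega

/-- Parseval, as an identity of weighted sums. -/
theorem pars {F : PowerSeries ℂ} (hF : Conv F) {r : ℝ} (h0 : 0 ≤ r) (h1 : r < 1) :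
    ∑' y, ‖PowerSeries.coeff y F‖ₑ ^ (2 : ℝ) * (ENNReal.ofReal (r ^ 2)) ^ y =
      ∫⁻ θ, ‖ev F (circleMap 0 r θ)‖ₑ ^ (2 : ℝ) ∂mu := by
  rw [lint_parseval hF h0 h1, ENNReal.ofReal_tsum_of_nonneg (fun n => by positivity)
    (parseval hF h0 h1).summable]
  refine tsum_congr fun y => ?_
  rw [ENNReal.ofReal_mul (by positivity), ENNReal.ofReal_pow (p := r ^ 2) (by positivity),
    ← ofReal_norm, ENNReal.ofReal_rpow_of_nonneg (norm_nonneg _) (by norm_num)]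
  congr 2
  rw [Real.rpow_two]

theorem w_Gd {c : ℕ → ℕ} {K : ℕ} (hc : ∀ n, c n ≤ K) (g : ℂ[X]) (j : ℕ) {r : ℝ} (h0 : 0 ≤ r)
    (h1 : r < 1) :
    w (ENNReal.ofReal (r ^ 2)) (Gd c g j)ᶜ ≤
      4 * ∫⁻ θ, ‖ev (((g ^ j : ℂ[X]) : PowerSeries ℂ) * Sc c) (circleMap 0 r θ)‖ₑ ^ (2 : ℝ) ∂mu := by
  have h2 : (Gd c g j)ᶜ = {y | 1 / 2 ≤ ‖PowerSeries.coeff y (((g ^ j : ℂ[X]) : PowerSeries ℂ) * Sc c)‖} := by
    ext y
    show ¬ ((_ : ℝ) < 1 / 2) ↔ (1 / 2 : ℝ) ≤ _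
    exact not_lt
  rw [h2, ← pars ((conv_poly _).mul (conv_Sc hc)) h0 h1]
  exact w_markov _ _

/-- the arc -/
def Arc (ζ : ℂ) (δ : ℝ) : Set ℝ := {θ | ‖circleMap 0 1 θ - ζ‖ < δ}

theorem arc_meas (ζ : ℂ) (δ : ℝ) : MeasurableSet (Arc ζ δ) := by
  have : IsOpen (Arc ζ δ) :=
    isOpen_lt (((continuous_circleMap 0 1).sub continuous_const).norm) continuous_const
  exact this.measurableSet

theorem split {c : ℕ → ℕ} {K : ℕ} (hc : ∀ n, c n ≤ K) {g : ℂ[X]} {ζ : ℂ} {δ lam B r : ℝ}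
    (hlam : 0 ≤ lam) (hB : ∀ z : ℂ, ‖z‖ ≤ 1 → ‖g.eval z‖ ≤ B) (h0 : 0 ≤ r) (h1 : r < 1)
    (hg : ∀ u : ℂ, ‖u‖ = 1 → δ ≤ ‖u - ζ‖ → ‖g.eval (r * u)‖ ≤ lam) (j : ℕ) :
    ∫⁻ θ, ‖ev (((g ^ j : ℂ[X]) : PowerSeries ℂ) * Sc c) (circleMap 0 r θ)‖ₑ ^ (2 : ℝ) ∂mu ≤
      ENNReal.ofReal (lam ^ (2 * j)) * ∫⁻ θ, ‖ev (Sc c) (circleMap 0 r θ)‖ₑ ^ (2 : ℝ) ∂mu +
      ENNReal.ofReal (B ^ (2 * j)) * ∫⁻ θ in Arc ζ δ, ‖ev (Sc c) (circleMap 0 r θ)‖ₑ ^ (2 : ℝ) ∂mu := by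
  have hB0 : 0 ≤ B := (norm_nonneg _).trans (hB 0 (by simp))
  have hnorm : ∀ θ : ℝ, ‖circleMap 0 r θ‖ = r := by
    intro θ
    rw [norm_circleMap_zero, abs_of_nonneg h0]
  have hev : ∀ θ : ℝ, ‖ev (((g ^ j : ℂ[X]) : PowerSeries ℂ) * Sc c) (circleMap 0 r θ)‖ₑ ^ (2 : ℝ) =
      ENNReal.ofReal (‖g.eval (circleMap 0 r θ)‖ ^ (2 * j)) *
        ‖ev (Sc c) (circleMap 0 r θ)‖ₑ ^ (2 : ℝ) := by
    intro θ
    rw [ev_mul (conv_poly _) (conv_Sc hc) (by rw [hnorm]; exact h1), ev_poly, enorm_mul,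
      ENNReal.mul_rpow_of_nonneg _ _ (by norm_num), Polynomial.eval_pow]
    congr 1
    rw [← ofReal_norm, norm_pow, ENNReal.ofReal_rpow_of_nonneg (by positivity) (by norm_num)]
    congr 1
    rw [Real.rpow_two, ← pow_mul, mul_comm]
  have hmeas : Measurable fun θ : ℝ => ‖ev (Sc c) (circleMap 0 r θ)‖ₑ ^ (2 : ℝ) :=
    (ev_cont (conv_Sc hc) h0 h1).measurable.enorm.pow_const _
  have hscale : ∀ θ : ℝ, circleMap 0 r θ = r * circleMap 0 1 θ := by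
    intro θ
    rw [circleMap_zero, circleMap_zero]
    push_cast
    ring
  rw [← lintegral_add_compl _ (arc_meas ζ δ), add_comm]
  apply add_le_add
  · refine le_trans ?_ (mul_le_mul' le_rfl (setLIntegral_le_lintegral (Arc ζ δ)ᶜ _))
    rw [← lintegral_const_mul _ hmeas]
    apply setLIntegral_mono (by exact hmeas.const_mul _)
    intro θ hθ
    have hθ' : ¬ (‖circleMap 0 1 θ - ζ‖ < δ) := hθ
    push Not at hθ'
    rw [hev]
    apply mul_le_mul' _ le_rfl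
    apply ENNReal.ofReal_le_ofReal
    have h2 := hg (circleMap 0 1 θ) (by rw [norm_circleMap_zero]; simp) hθ'
    rw [← hscale] at h2
    gcongr
  · rw [← lintegral_const_mul _ hmeas]
    apply setLIntegral_mono (by exact hmeas.const_mul _)
    intro θ _
    rw [hev]
    apply mul_le_mul' _ le_rfl
    apply ENNReal.ofReal_le_ofReal
    have h2 := hB (circleMap 0 r θ) (by rw [hnorm]; exact h1.le)
    gcongr

theorem lint_Sc {c : ℕ → ℕ} {K : ℕ} (hc : ∀ n, c n ≤ K) {r : ℝ} (h0 : 0 ≤ r) (h1 : r < 1) :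
    ∫⁻ θ, ‖ev (Sc c) (circleMap 0 r θ)‖ₑ ^ (2 : ℝ) ∂mu ≤
      (K : ℝ≥0∞) ^ 2 * (1 - ENNReal.ofReal (r ^ 2))⁻¹ := by
  rw [← pars (conv_Sc hc) h0 h1, ← ENNReal.tsum_geometric, ← ENNReal.tsum_mul_left]
  apply ENNReal.tsum_le_tsum
  intro y
  apply mul_le_mul' _ le_rfl
  unfold Sc
  rw [PowerSeries.coeff_mk, ← ENNReal.rpow_natCast]
  push_cast
  apply ENNReal.rpow_le_rpow _ (by norm_num)
  rw [← ofReal_norm, Complex.norm_natCast, ENNReal.ofReal_natCast]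
  exact_mod_cast hc y

/-- The tail of the predictor errors. -/
theorem tail {lam : ℝ} (h0 : 0 ≤ lam) (h1 : lam < 1) {D : ℕ} (hD : 0 < D) {ε : ℝ} (hε : 0 < ε) :
    ∃ j : ℕ, ∀ L : ℕ, ∑ n ∈ Finset.Ico (j * D) L, lam ^ (2 * (n / D)) ≤ ε := by
  -- grouping
  have hl2 : lam ^ 2 < 1 := by nlinarith
  have hs : Summable fun i : ℕ => (D : ℝ) * (lam ^ 2) ^ i :=
    (summable_geometric_of_lt_one (by positivity) hl2).mul_left _
  have hgroup : ∀ j N : ℕ, ∑ n ∈ Finset.Ico (j * D) ((j + N) * D), lam ^ (2 * (n / D)) =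
      ∑ i ∈ Finset.Ico j (j + N), (D : ℝ) * (lam ^ 2) ^ i := by
    intro j N
    induction N with
    | zero => simp
    | succ N ih =>
      have e1 : (j + (N + 1)) * D = (j + N) * D + D := by ring
      rw [e1, ← Finset.sum_Ico_consecutive _ (Nat.mul_le_mul_right D (Nat.le_add_right j N))
        (Nat.le_add_right _ D), ih, ← add_assoc, Finset.sum_Ico_succ_top (Nat.le_add_right j N)]
      congr 1
      have h3 : ∀ n ∈ Finset.Ico ((j + N) * D) ((j + N) * D + D), lam ^ (2 * (n / D)) =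
          (lam ^ 2) ^ (j + N) := by
        intro n hn
        rw [Finset.mem_Ico] at hn
        have : n / D = j + N := by
          apply Nat.div_eq_of_lt_le
          · exact hn.1
          · rw [Nat.succ_mul]; exact hn.2
        rw [this, pow_mul]
      rw [Finset.sum_congr rfl h3, Finset.sum_const, Nat.card_Ico]
      simp
  obtain ⟨j, hj⟩ : ∃ j : ℕ, ∑' i, (D : ℝ) * (lam ^ 2) ^ (i + j) ≤ ε := by
    have h3 := tendsto_sum_nat_add fun i : ℕ => (D : ℝ) * (lam ^ 2) ^ i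
    exact ((h3.eventually (gt_mem_nhds hε)).exists).imp fun j hj => hj.le
  refine ⟨j, fun L => ?_⟩
  have h4 : ∑ n ∈ Finset.Ico (j * D) L, lam ^ (2 * (n / D)) ≤
      ∑ n ∈ Finset.Ico (j * D) ((j + L) * D), lam ^ (2 * (n / D)) := by
    apply Finset.sum_le_sum_of_subset_of_nonneg
    · apply Finset.Ico_subset_Ico le_rfl
      calc L ≤ (j + L) * 1 := by omega
        _ ≤ (j + L) * D := Nat.mul_le_mul_left _ hD
    · intro n _ _
      positivity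
  rw [hgroup] at h4
  refine h4.trans (le_trans ?_ hj)
  rw [Finset.sum_Ico_eq_sum_range]
  have e1 : j + L - j = L := by omega
  rw [e1]
  have h5 : Summable fun i : ℕ => (D : ℝ) * (lam ^ 2) ^ (i + j) := (summable_nat_add_iff j).2 hs
  refine le_trans (le_of_eq ?_) (h5.sum_le_tsum (Finset.range L) fun i _ => by positivity)
  refine Finset.sum_congr rfl fun i _ => ?_
  rw [add_comm j i]

end Pool.Agent.H303R3.ET
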