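import Pool.Agent.H303R3.ET.Main

set_option autoImplicit false

/-!
# No shift nearly preserves a bounded representation function
-/

open Polynomial Filter Topology MeasureTheory
open scoped ENNReal

namespace Pool.Agent.H303R3.ET

theorem fin_real' {k : ℕ} (hk : 2 ≤ k) {kf K N T f c0 : ℝ} (hkf : 1 ≤ kf) (hK : 0 ≤ K)
    (hN0 : 0 < N) (hN : kf ^ 2 * K ^ 2 * 16 ^ k ≤ c0 * N) (hT : 0 < T) (hf : 1 ≤ f)
    (h1 : c0 * T ≤ f ^ k)
    (h : f ≤ kf ^ (2 / k : ℝ) * (K ^ 2 * T / N) ^ (1 / k : ℝ) +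
      kf ^ (2 / k : ℝ) * ((1 / N) ^ (1 / k : ℝ) * (K ^ 2 * T) ^ (1 / k : ℝ)) +
      kf * f ^ (((k : ℝ) - 1) / k)) : f ≤ (2 * kf) ^ k := by
  have hk0 : (0 : ℝ) < k := by exact_mod_cast (by omega : 0 < k)
  have hkn : k ≠ 0 := by omega
  have e0 : kf ^ (2 / k : ℝ) = (kf ^ 2) ^ (1 / k : ℝ) := by
    rw [← Real.rpow_natCast kf 2, ← Real.rpow_mul (by linarith)]
    congr 1
    push_cast
    ring
  have e2 : kf ^ (2 / k : ℝ) * (K ^ 2 * T / N) ^ (1 / k : ℝ) ≤ f / 16 := by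
    rw [e0, ← Real.mul_rpow (by positivity) (by positivity)]
    have h2 : kf ^ 2 * (K ^ 2 * T / N) ≤ (f / 16) ^ k := by
      rw [div_pow, le_div_iff₀ (by positivity)]
      refine le_trans ?_ h1
      have e3 : kf ^ 2 * (K ^ 2 * T / N) * 16 ^ k = (kf ^ 2 * K ^ 2 * 16 ^ k) * T / N := by ring
      rw [e3, div_le_iff₀ hN0]
      calc (kf ^ 2 * K ^ 2 * 16 ^ k) * T ≤ (c0 * N) * T := by gcongr
        _ = c0 * T * N := by ring
    calc (kf ^ 2 * (K ^ 2 * T / N)) ^ (1 / k : ℝ) ≤ ((f / 16) ^ k) ^ (1 / k : ℝ) := by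
          apply Real.rpow_le_rpow (by positivity) h2 (by positivity)
      _ = f / 16 := by
          rw [← Real.rpow_natCast, ← Real.rpow_mul (by positivity)]
          have : (k : ℝ) * (1 / k) = 1 := by field_simp
          rw [this, Real.rpow_one]
  have e3 : kf ^ (2 / k : ℝ) * ((1 / N) ^ (1 / k : ℝ) * (K ^ 2 * T) ^ (1 / k : ℝ)) ≤ f / 16 := by
    refine le_trans (le_of_eq ?_) e2
    rw [← Real.mul_rpow (by positivity) (by positivity)]
    congr 2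
    ring
  have e5 : f ≤ 2 * kf * f ^ (((k : ℝ) - 1) / k) := by
    have : 0 ≤ kf * f ^ (((k : ℝ) - 1) / k) := by positivity
    linarith
  have e6 : f ^ (1 / k : ℝ) ≤ 2 * kf := by
    have h2 : f = f ^ (1 / k : ℝ) * f ^ (((k : ℝ) - 1) / k) := by
      rw [← Real.rpow_add (by linarith)]
      have : (1 / k : ℝ) + ((k : ℝ) - 1) / k = 1 := by field_simp; ring
      rw [this, Real.rpow_one]
    have h3 : f ^ (1 / k : ℝ) * f ^ (((k : ℝ) - 1) / k) ≤ 2 * kf * f ^ (((k : ℝ) - 1) / k) := by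
      rw [← h2]; exact e5
    exact le_of_mul_le_mul_right h3 (Real.rpow_pos_of_pos (by linarith) _)
  calc f = (f ^ (1 / k : ℝ)) ^ k := by
        rw [← Real.rpow_natCast, ← Real.rpow_mul (by linarith)]
        have : (1 / k : ℝ) * k = 1 := by field_simp
        rw [this, Real.rpow_one]
    _ ≤ (2 * kf) ^ k := by
        apply pow_le_pow_left₀ (Real.rpow_nonneg (by linarith) _) e6

/-- `1 - B` is controlled by `1 - z ^ τ`. -/
theorem Bp_sub {τ m : ℕ} (hm : 0 < m) {z : ℂ} (hz : ‖z‖ ≤ 1) :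
    ‖(1 - Bp τ m).eval z‖ ≤ m * ‖1 - z ^ τ‖ := by
  have hm' : (m : ℂ) ≠ 0 := by exact_mod_cast hm.ne'
  have hmr : (0 : ℝ) < m := by exact_mod_cast hm
  have h1 : (1 - Bp τ m).eval z = (1 / (m : ℂ)) * ∑ t ∈ Finset.range m, (1 - z ^ ((t + 1) * τ)) := by
    unfold Bp
    rw [Polynomial.eval_sub, Polynomial.eval_one, Polynomial.eval_finsetSum,
      Finset.sum_sub_distrib, Finset.sum_const, Finset.card_range, nsmul_eq_mul, mul_one, mul_sub,
      one_div, inv_mul_cancel₀ hm', Finset.mul_sum]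
    congr 1
    refine Finset.sum_congr rfl fun t _ => ?_
    simp
  have h2 : ∀ t ∈ Finset.range m, ‖1 - z ^ ((t + 1) * τ)‖ ≤ m * ‖1 - z ^ τ‖ := by
    intro t ht
    rw [Finset.mem_range] at ht
    have h3 : 1 - z ^ ((t + 1) * τ) = (∑ i ∈ Finset.range (t + 1), (z ^ τ) ^ i) * (1 - z ^ τ) := by
      rw [geom_sum_mul_neg, ← pow_mul, mul_comm τ]
    rw [h3, norm_mul]
    apply mul_le_mul_of_nonneg_right _ (norm_nonneg _)
    refine (norm_sum_le _ _).trans ?_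
    calc ∑ i ∈ Finset.range (t + 1), ‖(z ^ τ) ^ i‖ ≤ ∑ _i ∈ Finset.range (t + 1), (1 : ℝ) := by
          apply Finset.sum_le_sum
          intro i _
          rw [norm_pow, norm_pow]
          exact pow_le_one₀ (by positivity) (pow_le_one₀ (norm_nonneg _) hz)
      _ = (t + 1 : ℕ) := by rw [Finset.sum_const, Finset.card_range, nsmul_eq_mul, mul_one]
      _ ≤ m := by exact_mod_cast ht
  rw [h1, norm_mul]
  have h3 : ‖(1 / (m : ℂ))‖ = 1 / m := by rw [norm_div, norm_one, Complex.norm_natCast]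
  rw [h3]
  calc 1 / (m : ℝ) * ‖∑ t ∈ Finset.range m, (1 - z ^ ((t + 1) * τ))‖
      ≤ 1 / (m : ℝ) * ∑ _t ∈ Finset.range m, (m * ‖1 - z ^ τ‖) := by
        gcongr
        exact (norm_sum_le _ _).trans (Finset.sum_le_sum h2)
    _ = m * ‖1 - z ^ τ‖ := by
        rw [Finset.sum_const, Finset.card_range, nsmul_eq_mul]
        field_simp

/-- the places where the shift changes the sequence -/
def Ch (c : ℕ → ℕ) (τ : ℕ) : Set ℕ := {n | c (n + τ) ≠ c n}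

theorem diff_shift {c : ℕ → ℕ} {K : ℕ} (hc : ∀ n, c n ≤ K) {τ m : ℕ} (hm : 0 < m) {r : ℝ}
    (h0 : 0 ≤ r) (h1 : r < 1) :
    ∫⁻ θ, ‖ev (((1 - Bp τ m : ℂ[X]) : PowerSeries ℂ) * Sc c) (circleMap 0 r θ)‖ₑ ^ (2 : ℝ) ∂mu ≤
      (m : ℝ≥0∞) ^ 2 * ((K : ℝ≥0∞) ^ 2 * (τ + w (ENNReal.ofReal (r ^ 2)) (Ch c τ))) := by
  have hqE : ENNReal.ofReal (r ^ 2) ≤ 1 := by
    rw [← ENNReal.ofReal_one]
    exact ENNReal.ofReal_le_ofReal (by nlinarith)
  have hnorm : ∀ θ : ℝ, ‖circleMap 0 r θ‖ = r := by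
    intro θ
    rw [norm_circleMap_zero, abs_of_nonneg h0]
  -- first reduce to the single difference
  have h2 : ∫⁻ θ, ‖ev (((1 - Bp τ m : ℂ[X]) : PowerSeries ℂ) * Sc c) (circleMap 0 r θ)‖ₑ ^ (2 : ℝ) ∂mu ≤
      (m : ℝ≥0∞) ^ 2 * ∫⁻ θ, ‖ev (((1 - Bp τ 1 : ℂ[X]) : PowerSeries ℂ) * Sc c)
        (circleMap 0 r θ)‖ₑ ^ (2 : ℝ) ∂mu := by
    have hm1 : Measurable fun θ : ℝ => ‖ev (((1 - Bp τ 1 : ℂ[X]) : PowerSeries ℂ) * Sc c)
        (circleMap 0 r θ)‖ₑ ^ (2 : ℝ) :=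
      (ev_cont ((conv_poly _).mul (conv_Sc hc)) h0 h1).measurable.enorm.pow_const _
    rw [← lintegral_const_mul _ hm1]
    apply lintegral_mono
    intro θ
    have hz : ‖circleMap 0 r θ‖ < 1 := by rw [hnorm]; exact h1
    simp only
    rw [ev_mul (conv_poly _) (conv_Sc hc) hz, ev_mul (conv_poly _) (conv_Sc hc) hz, ev_poly, ev_poly,
      enorm_mul, enorm_mul, ENNReal.mul_rpow_of_nonneg _ _ (by norm_num),
      ENNReal.mul_rpow_of_nonneg _ _ (by norm_num), ← mul_assoc]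
    apply mul_le_mul' _ le_rfl
    have h3 := Bp_sub (τ := τ) hm hz.le
    have h4 : (1 - Bp τ 1).eval (circleMap 0 r θ) = 1 - (circleMap 0 r θ) ^ τ := by
      unfold Bp
      simp
    rw [h4]
    have h5 : ‖(1 - Bp τ m).eval (circleMap 0 r θ)‖ₑ ≤ (m : ℝ≥0∞) * ‖1 - (circleMap 0 r θ) ^ τ‖ₑ := by
      have := ENNReal.ofReal_le_ofReal h3
      rw [ENNReal.ofReal_mul (by positivity), ENNReal.ofReal_natCast, ofReal_norm, ofReal_norm] at this
      exact this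
    calc ‖(1 - Bp τ m).eval (circleMap 0 r θ)‖ₑ ^ (2 : ℝ)
        ≤ ((m : ℝ≥0∞) * ‖1 - (circleMap 0 r θ) ^ τ‖ₑ) ^ (2 : ℝ) :=
          ENNReal.rpow_le_rpow h5 (by norm_num)
      _ = _ := by rw [ENNReal.mul_rpow_of_nonneg _ _ (by norm_num), ENNReal.rpow_two]
  refine h2.trans (mul_le_mul' le_rfl ?_)
  rw [← pars ((conv_poly _).mul (conv_Sc hc)) h0 h1]
  refine sum_vanish hqE (B := (K : ℝ≥0∞) ^ 2) (Y := τ) (Bd := Ch c τ)
    (fun y => diff_bound hc one_pos y) ?_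
  intro x hx
  have hx' : c (x + τ) = c x := by
    by_contra h
    exact hx h
  apply diff_zero one_pos
  · omega
  · intro t ht
    interval_cases t
    · simp
    · have e1 : τ + x - 1 * τ = x := by omega
      rw [e1, add_comm τ x]
      exact hx'

/-- The energy inequality for general counting functions. -/
theorem energyP {k : ℕ} (hk : 2 ≤ k) (A : Set ℕ) (P : (Fin k → ℕ) → Prop) (χ : Equiv.Perm (Fin k) → ℤ)
    (hχ : ∀ a, ((open Classical in Finset.card {τ : Equiv.Perm (Fin k) | P (a ∘ τ)} : ℕ) : ℤ) =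
      ∑ σ ∈ stab a, χ σ)
    (hχ1 : 1 ≤ χ 1) (hχ2 : ∀ σ, σ ≠ 1 → |χ σ| ≤ 1) {K : ℕ} (hK : ∀ n, Rn A P n ≤ K)
    {r : ℝ} (h0 : 0 ≤ r) (h1 : r < 1) (hM : 1 ≤ fr A (r ^ 2)) (B : ℂ[X]) :
    ENNReal.ofReal (fr A (r ^ 2)) ≤
      (k.factorial : ℝ≥0∞) ^ (2 / k : ℝ) * (∫⁻ θ, ‖ev (((1 - B : ℂ[X]) : PowerSeries ℂ) *
        Sc (fun n => Rn A P n)) (circleMap 0 r θ)‖ₑ ^ (2 : ℝ) ∂mu) ^ (1 / k : ℝ) +
      (k.factorial : ℝ≥0∞) ^ (2 / k : ℝ) * ((∫⁻ θ, ‖B.eval (circleMap 0 r θ)‖ₑ ^ (2 : ℝ) ∂mu) ^ (1 / k : ℝ) *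
        (∫⁻ θ, ‖ev (Sc (fun n => Rn A P n)) (circleMap 0 r θ)‖ₑ ^ (2 : ℝ) ∂mu) ^ (1 / k : ℝ)) +
      k.factorial * ENNReal.ofReal (fr A (r ^ 2)) ^ (((k : ℝ) - 1) / k) := by
  classical
  have hk0 : (0 : ℝ) < k := by exact_mod_cast (by omega : 0 < k)
  have hk2 : (2 : ℝ) ≤ k := by exact_mod_cast hk
  have hp0 : (0 : ℝ) < 2 / k := by positivity
  have hp1 : (2 / k : ℝ) ≤ 1 := by rw [div_le_one hk0]; exact hk2
  obtain ⟨c, hcdef⟩ : ∃ c : ℕ → ℕ, c = fun n => Rn A P n := ⟨_, rfl⟩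
  have hc : ∀ n, c n ≤ K := by rw [hcdef]; exact hK
  have hR : Rps A P = Sc c := by rw [hcdef]; rfl
  rw [← hcdef]
  have hnorm : ∀ θ : ℝ, ‖circleMap 0 r θ‖ = r := by
    intro θ
    rw [norm_circleMap_zero, abs_of_nonneg h0]
  have hcirc : ∀ θ : ℝ, ‖circleMap 0 r θ‖ < 1 := by
    intro θ
    rw [hnorm]; exact h1
  obtain ⟨E, hE⟩ : ∃ E : Finset (Equiv.Perm (Fin k)), E = Finset.univ.erase 1 := ⟨_, rfl⟩
  have hf : ∫⁻ θ, ‖ev (ind A) (circleMap 0 r θ)‖ₑ ^ (2 : ℝ) ∂mu = ENNReal.ofReal (fr A (r ^ 2)) := by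
    rw [lint_parseval (conv_ind A) h0 h1]
    congr 1
    unfold fr
    refine tsum_congr fun n => ?_
    unfold ind
    rw [PowerSeries.coeff_mk]
    split_ifs <;> simp
  have hpt : ∀ θ : ℝ, ‖ev (ind A) (circleMap 0 r θ)‖ₑ ^ (2 : ℝ)
      ≤ (k.factorial : ℝ≥0∞) ^ (2 / k : ℝ) * (‖ev (((1 - B : ℂ[X]) : PowerSeries ℂ) * Sc c)
            (circleMap 0 r θ)‖ₑ ^ (2 : ℝ)) ^ (1 / k : ℝ)
        + (k.factorial : ℝ≥0∞) ^ (2 / k : ℝ) * (‖B.eval (circleMap 0 r θ)‖ₑ ^ (2 : ℝ) *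
            ‖ev (Sc c) (circleMap 0 r θ)‖ₑ ^ (2 : ℝ)) ^ (1 / k : ℝ)
        + ∑ σ ∈ E, ‖ev (Fs A σ) (circleMap 0 r θ)‖ₑ ^ (2 / k : ℝ) := by
    intro θ
    obtain ⟨z, hz⟩ : ∃ z : ℂ, z = circleMap 0 r θ := ⟨_, rfl⟩
    rw [← hz]
    have hz1 : ‖z‖ < 1 := by rw [hz]; exact hcirc θ
    have ha := pointwise A P χ hχ hχ1 hχ2 hz1
    rw [hR, ← hE] at ha
    have hb : ‖ev (ind A) z‖ₑ ^ k ≤ k.factorial * ‖ev (Sc c) z‖ₑ + ∑ σ ∈ E, ‖ev (Fs A σ) z‖ₑ := by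
      have hc := ENNReal.ofReal_le_ofReal ha
      rw [ENNReal.ofReal_add (by positivity) (Finset.sum_nonneg fun _ _ => norm_nonneg _),
        ENNReal.ofReal_pow (norm_nonneg _), ENNReal.ofReal_sum_of_nonneg (fun _ _ => norm_nonneg _),
        ENNReal.ofReal_mul (by positivity), ENNReal.ofReal_natCast] at hc
      simpa only [ofReal_norm] using hc
    have hsplit : ‖ev (Sc c) z‖ₑ ≤ ‖ev (((1 - B : ℂ[X]) : PowerSeries ℂ) * Sc c) z‖ₑ +
        ‖B.eval z‖ₑ * ‖ev (Sc c) z‖ₑ := by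
      rw [← enorm_mul]
      have e1 : ev (Sc c) z = ev (((1 - B : ℂ[X]) : PowerSeries ℂ) * Sc c) z + B.eval z * ev (Sc c) z := by
        rw [ev_mul (conv_poly _) (conv_Sc hc) hz1, ev_poly, Polynomial.eval_sub, Polynomial.eval_one]
        ring
      calc ‖ev (Sc c) z‖ₑ = ‖ev (((1 - B : ℂ[X]) : PowerSeries ℂ) * Sc c) z + B.eval z * ev (Sc c) z‖ₑ := by
            rw [← e1]
        _ ≤ _ := enorm_add_le _ _
    have hd : ‖ev (ind A) z‖ₑ ^ (2 : ℝ) = (‖ev (ind A) z‖ₑ ^ k) ^ (2 / k : ℝ) := by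
      rw [← ENNReal.rpow_natCast, ← ENNReal.rpow_mul]
      congr 1
      field_simp
    rw [hd]
    have hb2 : ‖ev (ind A) z‖ₑ ^ k ≤ (k.factorial * ‖ev (((1 - B : ℂ[X]) : PowerSeries ℂ) * Sc c) z‖ₑ +
        k.factorial * (‖B.eval z‖ₑ * ‖ev (Sc c) z‖ₑ)) + ∑ σ ∈ E, ‖ev (Fs A σ) z‖ₑ := by
      refine hb.trans ?_
      rw [← mul_add]
      gcongr
    refine (ENNReal.rpow_le_rpow hb2 hp0.le).trans ?_
    refine (ENNReal.rpow_add_le_add_rpow _ _ hp0.le hp1).trans ?_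
    apply add_le_add _ (enn_sum_rpow E _ hp0 hp1)
    refine (ENNReal.rpow_add_le_add_rpow _ _ hp0.le hp1).trans (le_of_eq ?_)
    have e2 : ∀ x : ℝ≥0∞, (x ^ (2 : ℝ)) ^ (1 / k : ℝ) = x ^ (2 / k : ℝ) := by
      intro x
      rw [← ENNReal.rpow_mul]; congr 1; ring
    rw [ENNReal.mul_rpow_of_nonneg _ _ hp0.le, ENNReal.mul_rpow_of_nonneg _ _ hp0.le, e2,
      ← ENNReal.mul_rpow_of_nonneg _ _ (by norm_num : (0 : ℝ) ≤ 2), e2]
  have hmR : Measurable fun θ : ℝ => ‖ev (Sc c) (circleMap 0 r θ)‖ₑ ^ (2 : ℝ) :=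
    (ev_cont (conv_Sc hc) h0 h1).measurable.enorm.pow_const _
  have hm1 : Measurable fun θ : ℝ => ‖ev (((1 - B : ℂ[X]) : PowerSeries ℂ) * Sc c)
      (circleMap 0 r θ)‖ₑ ^ (2 : ℝ) :=
    (ev_cont ((conv_poly _).mul (conv_Sc hc)) h0 h1).measurable.enorm.pow_const _
  have hmB : Measurable fun θ : ℝ => ‖B.eval (circleMap 0 r θ)‖ₑ ^ (2 : ℝ) :=
    (B.continuous.comp (continuous_circleMap 0 r)).measurable.enorm.pow_const _
  rw [← hf]
  refine (lintegral_mono hpt).trans ?_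
  have hma : Measurable fun θ : ℝ => (k.factorial : ℝ≥0∞) ^ (2 / k : ℝ) *
      (‖ev (((1 - B : ℂ[X]) : PowerSeries ℂ) * Sc c) (circleMap 0 r θ)‖ₑ ^ (2 : ℝ)) ^ (1 / k : ℝ) :=
    (hm1.pow_const _).const_mul _
  have hmb : Measurable fun θ : ℝ => (k.factorial : ℝ≥0∞) ^ (2 / k : ℝ) *
      (‖B.eval (circleMap 0 r θ)‖ₑ ^ (2 : ℝ) * ‖ev (Sc c) (circleMap 0 r θ)‖ₑ ^ (2 : ℝ)) ^ (1 / k : ℝ) :=
    ((hmB.mul hmR).pow_const _).const_mul _
  have hmab : Measurable fun θ : ℝ => (k.factorial : ℝ≥0∞) ^ (2 / k : ℝ) *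
      (‖ev (((1 - B : ℂ[X]) : PowerSeries ℂ) * Sc c) (circleMap 0 r θ)‖ₑ ^ (2 : ℝ)) ^ (1 / k : ℝ) +
      (k.factorial : ℝ≥0∞) ^ (2 / k : ℝ) *
      (‖B.eval (circleMap 0 r θ)‖ₑ ^ (2 : ℝ) * ‖ev (Sc c) (circleMap 0 r θ)‖ₑ ^ (2 : ℝ)) ^ (1 / k : ℝ) :=
    hma.add hmb
  have hmbr : Measurable fun θ : ℝ =>
      (‖B.eval (circleMap 0 r θ)‖ₑ ^ (2 : ℝ) * ‖ev (Sc c) (circleMap 0 r θ)‖ₑ ^ (2 : ℝ)) ^ (1 / k : ℝ) :=
    (hmB.mul hmR).pow_const _
  rw [lintegral_add_left hmab, lintegral_add_left hma, lintegral_finsetSum,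
    lintegral_const_mul _ (hm1.pow_const _), lintegral_const_mul _ hmbr]
  · have h1k : (0 : ℝ) ≤ 1 / k := by positivity
    have h1k1 : (1 / k : ℝ) ≤ 1 := by rw [div_le_one hk0]; linarith
    have h1k2 : (1 / k : ℝ) ≤ 1 / 2 := by
      apply one_div_le_one_div_of_le (by norm_num) hk2
    apply add_le_add (add_le_add (mul_le_mul' le_rfl (hold1 hm1.aemeasurable h1k h1k1))
      (mul_le_mul' le_rfl (hold2 hmB.aemeasurable hmR.aemeasurable h1k h1k2)))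
    calc ∑ σ ∈ E, ∫⁻ θ, ‖ev (Fs A σ) (circleMap 0 r θ)‖ₑ ^ (2 / k : ℝ) ∂mu
        ≤ ∑ _σ ∈ E, ENNReal.ofReal (fr A (r ^ 2)) ^ (((k : ℝ) - 1) / k) := by
          apply Finset.sum_le_sum
          intro σ hσ
          obtain ⟨ι, _, e, he, hF, hcard⟩ := Fs_eq A σ
          rw [hE] at hσ
          have hc := hcard (Finset.ne_of_mem_erase hσ)
          rw [hF]
          refine (lint_prod A (by omega) e he hc.le h0 h1).trans ?_
          apply ENNReal.rpow_le_rpow_of_exponent_le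
          · rw [← ENNReal.ofReal_one]
            exact ENNReal.ofReal_le_ofReal hM
          · have : (Fintype.card ι : ℝ) ≤ k - 1 := by
              have : Fintype.card ι + 1 ≤ k := hc
              have h5 : ((Fintype.card ι : ℝ) + 1) ≤ k := by exact_mod_cast this
              linarith
            gcongr
      _ ≤ k.factorial * ENNReal.ofReal (fr A (r ^ 2)) ^ (((k : ℝ) - 1) / k) := by
          rw [Finset.sum_const, nsmul_eq_mul]
          apply mul_le_mul' _ le_rfl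
          have : E.card ≤ k.factorial := by
            refine (Finset.card_le_univ _).trans ?_
            rw [Fintype.card_perm, Fintype.card_fin]
          exact_mod_cast this
      _ = _ := by rw [hf]
  · intro σ _
    exact (ev_cont (conv_Fs A σ) h0 h1).measurable.enorm.pow_const _

/-- One value of the radius. -/
theorem one_shift {k : ℕ} (hk : 2 ≤ k) (A : Set ℕ) (P : (Fin k → ℕ) → Prop)
    (χ : Equiv.Perm (Fin k) → ℤ)
    (hχ : ∀ a, ((open Classical in Finset.card {τ : Equiv.Perm (Fin k) | P (a ∘ τ)} : ℕ) : ℤ) =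
      ∑ σ ∈ stab a, χ σ)
    (hχ1 : 1 ≤ χ 1) (hχ2 : ∀ σ, σ ≠ 1 → |χ σ| ≤ 1) {K : ℕ} (hK : ∀ n, Rn A P n ≤ K)
    {r N c0 : ℝ} {m τ : ℕ} (h0 : 0 ≤ r) (h1 : r < 1) (hτ : 0 < τ) (hm : 0 < m) (hmN : (m : ℝ) = N)
    (hN : (k.factorial : ℝ) ^ 2 * K ^ 2 * 16 ^ k ≤ c0 * N)
    (hf : 1 ≤ fr A (r ^ 2)) (hlow : c0 * (1 - r ^ 2)⁻¹ ≤ fr A (r ^ 2) ^ k)
    (hτT : (τ : ℝ) ≤ (1 - r ^ 2)⁻¹ / (2 * N ^ 3))
    (hw : w (ENNReal.ofReal (r ^ 2)) (Ch (fun n => Rn A P n) τ) ≤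
      ENNReal.ofReal ((1 - r ^ 2)⁻¹ / (2 * N ^ 3))) :
    fr A (r ^ 2) ≤ (2 * k.factorial) ^ k := by
  obtain ⟨T, hT⟩ : ∃ T : ℝ, T = (1 - r ^ 2)⁻¹ := ⟨_, rfl⟩
  have hT0 : 0 < T := by
    have : (0 : ℝ) < 1 - r ^ 2 := by nlinarith
    rw [hT]; positivity
  have hkf : (1 : ℝ) ≤ k.factorial := by
    exact_mod_cast Nat.one_le_iff_ne_zero.2 (Nat.factorial_ne_zero k)
  have hKr : (0 : ℝ) ≤ K := Nat.cast_nonneg K
  have hN0 : 0 < N := by rw [← hmN]; exact_mod_cast hm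
  rw [← hT] at hlow hτT hw
  obtain ⟨cc, hcc⟩ : ∃ cc : ℕ → ℕ, cc = fun n => Rn A P n := ⟨_, rfl⟩
  have hcK : ∀ n, cc n ≤ K := by rw [hcc]; exact hK
  rw [← hcc] at hw
  have hdiff := diff_shift hcK (τ := τ) hm h0 h1
  have hdiff2 : ∫⁻ θ, ‖ev (((1 - Bp τ m : ℂ[X]) : PowerSeries ℂ) * Sc cc) (circleMap 0 r θ)‖ₑ ^ (2 : ℝ) ∂mu ≤
      ENNReal.ofReal (K ^ 2 * T / N) := by
    refine hdiff.trans ?_
    have e1 : ENNReal.ofReal ((K : ℝ) ^ 2 * T / N) =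
        (m : ℝ≥0∞) ^ 2 * ((K : ℝ≥0∞) ^ 2 * (ENNReal.ofReal (T / (2 * N ^ 3)) +
          ENNReal.ofReal (T / (2 * N ^ 3)))) := by
      rw [← ENNReal.ofReal_add (by positivity) (by positivity), ← ENNReal.ofReal_natCast m,
        ← ENNReal.ofReal_natCast K, ← ENNReal.ofReal_pow (by positivity),
        ← ENNReal.ofReal_pow (by positivity), ← ENNReal.ofReal_mul (by positivity),
        ← ENNReal.ofReal_mul (by positivity)]
      congr 1
      rw [hmN]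
      field_simp
      ring
    rw [e1]
    have e2 : ((τ : ℕ) : ℝ≥0∞) ≤ ENNReal.ofReal (T / (2 * N ^ 3)) := by
      rw [← ENNReal.ofReal_natCast]
      exact ENNReal.ofReal_le_ofReal hτT
    gcongr
  have hBl := Bp_l2 (Q := τ) (m := m) hτ hm h0 h1
  have hR := lint_Sc hcK h0 h1
  rw [T_eq h0 h1, ← hT] at hR
  have hR2 : ∫⁻ θ, ‖ev (Sc cc) (circleMap 0 r θ)‖ₑ ^ (2 : ℝ) ∂mu ≤ ENNReal.ofReal (K ^ 2 * T) := by
    refine hR.trans (le_of_eq ?_)
    rw [ENNReal.ofReal_mul (by positivity), ENNReal.ofReal_pow (by positivity), ENNReal.ofReal_natCast]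
  have hB2 : ∫⁻ θ, ‖(Bp τ m).eval (circleMap 0 r θ)‖ₑ ^ (2 : ℝ) ∂mu ≤ ENNReal.ofReal (1 / N) := by
    refine hBl.trans (le_of_eq ?_)
    rw [one_div, ENNReal.ofReal_inv_of_pos hN0, ← hmN, ENNReal.ofReal_natCast]
  have hen := energyP hk A P χ hχ hχ1 hχ2 hK h0 h1 hf (Bp τ m)
  rw [← hcc] at hen
  have hk0 : (0 : ℝ) < k := by exact_mod_cast (by omega : 0 < k)
  have h1k : (0 : ℝ) ≤ 1 / k := by positivity
  have hk2 : (2 : ℝ) ≤ k := by exact_mod_cast hk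
  have hfin : ENNReal.ofReal (fr A (r ^ 2)) ≤ ENNReal.ofReal
      ((k.factorial : ℝ) ^ (2 / k : ℝ) * (K ^ 2 * T / N) ^ (1 / k : ℝ) +
        (k.factorial : ℝ) ^ (2 / k : ℝ) * ((1 / N) ^ (1 / k : ℝ) * (K ^ 2 * T) ^ (1 / k : ℝ)) +
        k.factorial * fr A (r ^ 2) ^ (((k : ℝ) - 1) / k)) := by
    rw [ENNReal.ofReal_add (by positivity) (by positivity),
      ENNReal.ofReal_add (by positivity) (by positivity), ENNReal.ofReal_mul (by positivity),
      ENNReal.ofReal_mul (by positivity), ENNReal.ofReal_mul (by positivity),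
      ENNReal.ofReal_mul (by positivity),
      ← ENNReal.ofReal_rpow_of_nonneg (by positivity) (by positivity),
      ← ENNReal.ofReal_rpow_of_nonneg (x := (K : ℝ) ^ 2 * T / N) (by positivity) h1k,
      ← ENNReal.ofReal_rpow_of_nonneg (x := 1 / N) (by positivity) h1k,
      ← ENNReal.ofReal_rpow_of_nonneg (x := (K : ℝ) ^ 2 * T) (by positivity) h1k,
      ← ENNReal.ofReal_rpow_of_nonneg (x := fr A (r ^ 2)) (by linarith)
        (div_nonneg (by linarith) hk0.le), ENNReal.ofReal_natCast]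
    refine hen.trans ?_
    gcongr
  rw [ENNReal.ofReal_le_ofReal_iff (by positivity)] at hfin
  exact fin_real' hk hkf hKr hN0 hN hT0 hf hlow hfin


/-- The weight of the set of changes. -/
theorem shift_abel {k : ℕ} (hk : 2 ≤ k) (P : (Fin k → ℕ) → Prop)
    (χ : Equiv.Perm (Fin k) → ℤ)
    (hχ : ∀ a, ((open Classical in Finset.card {τ : Equiv.Perm (Fin k) | P (a ∘ τ)} : ℕ) : ℤ) =
      ∑ σ ∈ stab a, χ σ)
    (hχ1 : 1 ≤ χ 1) (hχ2 : ∀ σ, σ ≠ 1 → |χ σ| ≤ 1) (K : ℕ) {c0 : ℝ} (hc0 : 0 < c0) :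
    ∃ δ : ℝ, 0 < δ ∧ δ ≤ 1 ∧ ∀ A : Set ℕ, (∀ n, Rn A P n ≤ K) →
      (∀ᶠ r : ℝ in 𝓝[<] 1, c0 * (1 - r ^ 2)⁻¹ ≤ fr A (r ^ 2) ^ k) → ∀ τ : ℕ, 0 < τ →
      ∀ᶠ r : ℝ in 𝓝[<] 1, ENNReal.ofReal (δ * (1 - r ^ 2)⁻¹) ≤
        w (ENNReal.ofReal (r ^ 2)) (Ch (fun n => Rn A P n) τ) := by
  obtain ⟨m, hm⟩ := exists_nat_ge ((k.factorial : ℝ) ^ 2 * K ^ 2 * 16 ^ k / c0 + 1)
  obtain ⟨N, hN⟩ : ∃ N : ℝ, N = m := ⟨_, rfl⟩
  have h16 : 0 ≤ (k.factorial : ℝ) ^ 2 * K ^ 2 * 16 ^ k / c0 := by positivity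
  have hN1 : 1 ≤ N := by rw [hN]; linarith
  have hm0 : 0 < m := by
    have : (0 : ℝ) < m := by linarith
    exact_mod_cast this
  have hNc : (k.factorial : ℝ) ^ 2 * K ^ 2 * 16 ^ k ≤ c0 * N := by
    have : (k.factorial : ℝ) ^ 2 * K ^ 2 * 16 ^ k / c0 ≤ N := by rw [hN]; linarith
    rw [div_le_iff₀ hc0] at this
    linarith
  have hN3 : 1 ≤ N ^ 3 := one_le_pow₀ hN1
  refine ⟨1 / (2 * N ^ 3), by positivity, ?_, ?_⟩
  · rw [div_le_one (by positivity)]; linarith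
  intro A hK hA τ hτ
  have hsq : Tendsto (fun r : ℝ => r ^ 2) (𝓝[<] 1) (𝓝 1) := by
    have : Tendsto (fun r : ℝ => r ^ 2) (𝓝 1) (𝓝 (1 ^ 2)) := (continuous_pow 2).tendsto 1
    rw [one_pow] at this
    exact this.mono_left nhdsWithin_le_nhds
  have hT : Tendsto (fun r : ℝ => (1 - r ^ 2)⁻¹) (𝓝[<] 1) atTop := by
    apply tendsto_inv_nhdsGT_zero.comp
    apply tendsto_nhdsWithin_of_tendsto_nhds_of_eventually_within
    · have := (tendsto_const_nhds (x := (1 : ℝ))).sub hsq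
      rw [sub_self] at this
      exact this
    · filter_upwards [self_mem_nhdsWithin, Ioo_mem_nhdsLT (show (0 : ℝ) < 1 by norm_num)] with r h1 h2
      show (0 : ℝ) < 1 - r ^ 2
      have := h2.1
      have := h2.2
      nlinarith
  obtain ⟨F1, hF1⟩ : ∃ F1 : ℝ, F1 = 1 + (2 * (k.factorial : ℝ)) ^ k := ⟨_, rfl⟩
  have hF0 : 0 < F1 := by rw [hF1]; positivity
  filter_upwards [Ioo_mem_nhdsLT (show (0 : ℝ) < 1 by norm_num), hA,
    hT.eventually_ge_atTop (F1 ^ k / c0), hT.eventually_ge_atTop (τ * (2 * N ^ 3))]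
    with r hr1 hlow hr4 hr5
  obtain ⟨h0, h1⟩ := hr1
  by_contra hcon
  push Not at hcon
  have hfr0 := fr_nonneg A (q := r ^ 2) (by positivity)
  have hF : F1 ≤ fr A (r ^ 2) := by
    rw [div_le_iff₀ hc0] at hr4
    have : F1 ^ k ≤ fr A (r ^ 2) ^ k := by linarith
    exact le_of_pow_le_pow_left₀ (by omega) hfr0 this
  have hp : 0 ≤ (2 * (k.factorial : ℝ)) ^ k := by positivity
  have hf1 : 1 ≤ fr A (r ^ 2) := by
    rw [hF1] at hF; linarith
  have hres := one_shift hk A P χ hχ hχ1 hχ2 hK (N := N) (c0 := c0) (m := m) (τ := τ) h0.le h1 hτ hm0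
    hN.symm hNc hf1 hlow (by rw [le_div_iff₀ (by positivity)]; exact hr5) (by
      refine hcon.le.trans (le_of_eq ?_)
      congr 1
      ring)
  rw [hF1] at hF
  linarith

/-- From weights to counting. -/
theorem abel_count {E : Set ℕ} {δ : ℝ} (hδ : 0 < δ) (hδ1 : δ ≤ 1)
    (h : ∀ᶠ r : ℝ in 𝓝[<] 1, ENNReal.ofReal (δ * (1 - r ^ 2)⁻¹) ≤ w (ENNReal.ofReal (r ^ 2)) E) :
    ∀ᶠ N : ℕ in atTop, δ / (2 * Real.log (2 / δ)) * N ≤ ({n | n < N ∧ n ∈ E}.ncard : ℝ) := by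
  classical
  obtain ⟨l, hl⟩ : ∃ l : ℝ, l = Real.log (2 / δ) := ⟨_, rfl⟩
  have h2δ : 1 < 2 / δ := by rw [lt_div_iff₀ hδ]; linarith
  have hl0 : 0 < l := by rw [hl]; exact Real.log_pos h2δ
  rw [← hl]
  -- the radius
  have hrad : Tendsto (fun N : ℕ => Real.sqrt (1 - l / N)) atTop (𝓝[<] 1) := by
    apply tendsto_nhdsWithin_of_tendsto_nhds_of_eventually_within
    · have h1 : Tendsto (fun N : ℕ => 1 - l / (N : ℝ)) atTop (𝓝 (1 - 0)) :=
        tendsto_const_nhds.sub (tendsto_const_div_atTop_nhds_zero_nat l)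
      rw [sub_zero] at h1
      have := (Real.continuous_sqrt.tendsto 1).comp h1
      rw [Real.sqrt_one] at this
      exact this
    · filter_upwards [eventually_gt_atTop 0] with N hN
      show Real.sqrt (1 - l / N) < 1
      have hN' : (0 : ℝ) < N := by exact_mod_cast hN
      rw [Real.sqrt_lt' one_pos]
      have : 0 < l / N := by positivity
      linarith
  obtain ⟨N1, hN1⟩ := exists_nat_ge l
  filter_upwards [hrad.eventually h, eventually_ge_atTop (N1 + 1)] with N hN hNN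
  have hNr : (N1 : ℝ) + 1 ≤ N := by exact_mod_cast hNN
  have hN0 : (0 : ℝ) < N := by linarith
  obtain ⟨q, hq⟩ : ∃ q : ℝ, q = 1 - l / N := ⟨_, rfl⟩
  have hq0 : 0 ≤ q := by
    rw [hq]
    have : l / N ≤ 1 := by rw [div_le_one hN0]; linarith
    linarith
  have hq1 : q < 1 := by
    rw [hq]
    have : 0 < l / N := by positivity
    linarith
  rw [← hq, Real.sq_sqrt hq0] at hN
  have hqN : q ^ N ≤ δ / 2 := by
    have h3 : q ≤ Real.exp (-(l / N)) := by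
      rw [hq]
      have := Real.add_one_le_exp (-(l / N))
      linarith
    calc q ^ N ≤ Real.exp (-(l / N)) ^ N := pow_le_pow_left₀ hq0 h3 N
      _ = Real.exp (-l) := by
          rw [← Real.exp_nat_mul]
          congr 1
          field_simp
      _ = δ / 2 := by
          rw [Real.exp_neg, hl, Real.exp_log (by positivity)]
          rw [inv_div]
  have hqE : ENNReal.ofReal q ≤ 1 := by
    rw [← ENNReal.ofReal_one]
    exact ENNReal.ofReal_le_ofReal hq1.le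
  -- upper bound for the weight
  have hw : w (ENNReal.ofReal q) E ≤ ENNReal.ofReal (({n | n < N ∧ n ∈ E}.ncard : ℝ) +
      q ^ N * (1 - q)⁻¹) := by
    have hfin : {n | n < N ∧ n ∈ E}.Finite := (Set.finite_Iio N).subset fun n hn => hn.1
    have hcard : {n | n < N ∧ n ∈ E}.ncard = ((Finset.range N).filter (fun n => n ∈ E)).card := by
      rw [← Set.ncard_coe_finset]
      congr 1
      ext n
      simp
    have h4 : ∀ n, E.indicator (fun n => ENNReal.ofReal q ^ n) n ≤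
        (if n ∈ (Finset.range N).filter (fun n => n ∈ E) then (1 : ℝ≥0∞) else 0) +
        (if N ≤ n then ENNReal.ofReal q ^ n else 0) := by
      intro n
      by_cases hn : n ∈ E
      · rw [Set.indicator_of_mem hn]
        by_cases hnN : n < N
        · rw [if_pos (by simp [hn, hnN])]
          exact (pow_le_one' hqE n).trans le_self_add
        · rw [if_pos (show N ≤ n by omega)]
          exact le_add_self
      · rw [Set.indicator_of_notMem hn]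
        exact zero_le
    unfold w
    refine (ENNReal.tsum_le_tsum h4).trans ?_
    rw [ENNReal.tsum_add, hcard, ENNReal.ofReal_add (by positivity) (by
      have : 0 < 1 - q := by linarith
      positivity)]
    apply add_le_add
    · rw [tsum_eq_sum (s := (Finset.range N).filter (fun n => n ∈ E))]
      · rw [Finset.sum_congr rfl (fun n hn => if_pos hn), Finset.sum_const, nsmul_eq_mul, mul_one,
          ENNReal.ofReal_natCast]
      · intro n hn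
        rw [if_neg hn]
    · have h5 : ∑' n, (if N ≤ n then ENNReal.ofReal q ^ n else 0) =
          ∑' n, (fun n => if N ≤ n then ENNReal.ofReal q ^ n else 0) (n + N) := by
        have hinj : Function.Injective (fun n : ℕ => n + N) := add_left_injective N
        rw [hinj.tsum_eq (f := fun n => if N ≤ n then ENNReal.ofReal q ^ n else 0)]
        intro n hn
        rw [Function.mem_support] at hn
        refine ⟨n - N, ?_⟩
        have : N ≤ n := by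
          by_contra h
          exact hn (if_neg h)
        simp only
        omega
      rw [h5]
      have h6 : ∀ n : ℕ, (fun n => if N ≤ n then ENNReal.ofReal q ^ n else 0) (n + N) =
          ENNReal.ofReal q ^ N * ENNReal.ofReal q ^ n := by
        intro n
        simp only
        rw [if_pos (Nat.le_add_left N n), pow_add, mul_comm]
      rw [tsum_congr h6, ENNReal.tsum_mul_left, ENNReal.tsum_geometric,
        ENNReal.ofReal_mul (by positivity), ENNReal.ofReal_pow hq0]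
      apply mul_le_mul' le_rfl
      rw [ENNReal.ofReal_inv_of_pos (by linarith), ENNReal.ofReal_sub _ hq0, ENNReal.ofReal_one]
  have h7 := hN.trans hw
  have h8 : (1 - q)⁻¹ = N / l := by
    have h81 : 1 - q = l / N := by rw [hq]; ring
    rw [h81, inv_div]
  rw [ENNReal.ofReal_le_ofReal_iff (by
    have : 0 < 1 - q := by linarith
    positivity), h8] at h7
  have h9 : q ^ N * (N / l) ≤ δ / 2 * (N / l) := by gcongr
  have h10 : δ / (2 * l) * N = δ * (N / l) - δ / 2 * (N / l) := by field_simp; ring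
  rw [h10]
  linarith

end Pool.Agent.H303R3.ET
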