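import Pool.Agent.H303R3.ET.ShiftFin

set_option autoImplicit false

/-!
# Representation functions and functions with concentrated generating function: the core inequality
-/

open Filter Topology MeasureTheory
open scoped ENNReal

namespace Pool.Agent.H303R3.ET

/-- Abel's inequality, finite form. -/
theorem abel_fin {d : ℕ → ℝ} {D q : ℝ} (h0 : 0 ≤ q) (h1 : q ≤ 1)
    (h : ∀ N : ℕ, -D ≤ ∑ n ∈ Finset.range N, d n) (N : ℕ) :
    -D ≤ ∑ n ∈ Finset.range N, d n * q ^ n := by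
  have key : ∀ N : ℕ, ∑ n ∈ Finset.range N, d n * q ^ n =
      q ^ N * ∑ n ∈ Finset.range N, d n +
        (1 - q) * ∑ n ∈ Finset.range N, q ^ n * ∑ m ∈ Finset.range (n + 1), d m := by
    intro N
    induction N with
    | zero => simp
    | succ N ih =>
      rw [Finset.sum_range_succ, ih, Finset.sum_range_succ (fun n => q ^ n * _),
        Finset.sum_range_succ d N]
      ring
  have key2 : ∀ N : ℕ, (1 - q) * ∑ n ∈ Finset.range N, q ^ n = 1 - q ^ N := by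
    intro N
    induction N with
    | zero => simp
    | succ N ih => rw [Finset.sum_range_succ, mul_add, ih]; ring
  rw [key]
  have h2 : q ^ N * (-D) ≤ q ^ N * ∑ n ∈ Finset.range N, d n :=
    mul_le_mul_of_nonneg_left (h N) (by positivity)
  have h3 : ∑ n ∈ Finset.range N, q ^ n * (-D) ≤
      ∑ n ∈ Finset.range N, q ^ n * ∑ m ∈ Finset.range (n + 1), d m := by
    apply Finset.sum_le_sum
    intro n _
    exact mul_le_mul_of_nonneg_left (h (n + 1)) (by positivity)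
  have h4 := mul_le_mul_of_nonneg_left h3 (show 0 ≤ 1 - q by linarith)
  rw [← Finset.sum_mul, ← mul_assoc, key2] at h4
  linarith

theorem abel_le {c : ℕ → ℝ} {B D q : ℝ} (h0 : 0 ≤ q) (h1 : q < 1)
    (hs : Summable fun n => c n * q ^ n)
    (h : ∀ N : ℕ, ∑ n ∈ Finset.range N, c n ≤ B * N + D) :
    ∑' n, c n * q ^ n ≤ B * (1 - q)⁻¹ + D := by
  have h2 : ∀ N : ℕ, ∑ n ∈ Finset.range N, c n * q ^ n ≤ B * ∑ n ∈ Finset.range N, q ^ n + D := by
    intro N
    have h3 := abel_fin (d := fun n => B - c n) (D := D) h0 h1.le (fun N => by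
      rw [Finset.sum_sub_distrib, Finset.sum_const, Finset.card_range, nsmul_eq_mul]
      have := h N
      linarith) N
    simp_rw [sub_mul] at h3
    rw [Finset.sum_sub_distrib, ← Finset.mul_sum] at h3
    linarith
  have h4 := hs.hasSum.tendsto_sum_nat
  have h5 := (((hasSum_geometric_of_lt_one h0 h1).tendsto_sum_nat).const_mul B).add_const D
  exact le_of_tendsto_of_tendsto' h4 h5 h2

/-- From an eventual bound to a bound for all `N`. -/
theorem ev_bound {c : ℕ → ℝ} {B : ℝ} (h : ∀ᶠ N : ℕ in atTop, ∑ n ∈ Finset.range N, c n ≤ B * N) :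
    ∃ D : ℝ, 0 ≤ D ∧ ∀ N : ℕ, ∑ n ∈ Finset.range N, c n ≤ B * N + D := by
  obtain ⟨N0, hN0⟩ := eventually_atTop.mp h
  refine ⟨∑ n ∈ Finset.range N0, |∑ m ∈ Finset.range n, c m - B * n|,
    Finset.sum_nonneg fun _ _ => abs_nonneg _, fun N => ?_⟩
  by_cases hN : N < N0
  · have h1 := Finset.single_le_sum (f := fun n : ℕ => |∑ m ∈ Finset.range n, c m - B * n|)
      (fun _ _ => abs_nonneg _) (Finset.mem_range.mpr hN)
    have h2 := le_abs_self (∑ m ∈ Finset.range N, c m - B * N)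
    linarith
  · have h1 := hN0 N (by omega)
    have h2 : 0 ≤ ∑ n ∈ Finset.range N0, |∑ m ∈ Finset.range n, c m - B * n| :=
      Finset.sum_nonneg fun _ _ => abs_nonneg _
    linarith

/-- The energy of a set split along a set of angles. -/
theorem core_two (A : Set ℕ) {e p : PowerSeries ℂ} (he : Conv e) (hp : Conv p)
    (hep : ind A * ind A = e + p) {ρ : ℝ} (h0 : 0 ≤ ρ) (h1 : ρ < 1) {V : Set ℝ}
    (hV : MeasurableSet V) :
    ENNReal.ofReal (fr A (ρ ^ 2)) ≤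
      (∫⁻ θ, ‖ev (ind A * ind A) (circleMap 0 ρ θ)‖ₑ ^ (2 : ℝ) ∂mu) ^ (1 / 2 : ℝ) *
        (mu V) ^ (1 / 2 : ℝ) +
      ((∫⁻ θ, ‖ev e (circleMap 0 ρ θ)‖ₑ ^ (2 : ℝ) ∂mu) ^ (1 / 2 : ℝ) +
      (∫⁻ θ in Vᶜ, ‖ev p (circleMap 0 ρ θ)‖ₑ ^ (2 : ℝ) ∂mu) ^ (1 / 2 : ℝ)) := by
  have hnorm : ∀ θ : ℝ, ‖circleMap 0 ρ θ‖ < 1 := by
    intro θ
    rw [norm_circleMap_zero, abs_of_nonneg h0]; exact h1
  have hf : ∫⁻ θ, ‖ev (ind A) (circleMap 0 ρ θ)‖ₑ ^ (2 : ℝ) ∂mu = ENNReal.ofReal (fr A (ρ ^ 2)) := by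
    rw [lint_parseval (conv_ind A) h0 h1]
    congr 1
    unfold fr
    refine tsum_congr fun n => ?_
    unfold ind
    rw [PowerSeries.coeff_mk]
    split_ifs <;> simp
  have hsq : ∀ θ : ℝ, ‖ev (ind A) (circleMap 0 ρ θ)‖ₑ ^ (2 : ℝ) =
      ‖ev (ind A * ind A) (circleMap 0 ρ θ)‖ₑ := by
    intro θ
    rw [ev_mul (conv_ind A) (conv_ind A) (hnorm θ), enorm_mul, ENNReal.rpow_two, sq]
  have hmR : Measurable fun θ : ℝ => ‖ev (ind A * ind A) (circleMap 0 ρ θ)‖ₑ :=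
    (ev_cont ((conv_ind A).mul (conv_ind A)) h0 h1).measurable.enorm
  have hme : Measurable fun θ : ℝ => ‖ev e (circleMap 0 ρ θ)‖ₑ := (ev_cont he h0 h1).measurable.enorm
  have hmp : Measurable fun θ : ℝ => ‖ev p (circleMap 0 ρ θ)‖ₑ := (ev_cont hp h0 h1).measurable.enorm
  rw [← hf, lintegral_congr hsq, ← lintegral_add_compl _ hV]
  apply add_le_add
  · have h := ENNReal.lintegral_mul_le_Lp_mul_Lq (mu.restrict V) (p := 2) (q := 2)
      (f := fun θ : ℝ => ‖ev (ind A * ind A) (circleMap 0 ρ θ)‖ₑ) (g := fun _ => 1)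
      (by constructor <;> norm_num) hmR.aemeasurable aemeasurable_const
    simp only [Pi.mul_apply, mul_one, ENNReal.one_rpow, lintegral_const, one_mul,
      Measure.restrict_apply MeasurableSet.univ, Set.univ_inter] at h
    refine h.trans (mul_le_mul' ?_ le_rfl)
    apply ENNReal.rpow_le_rpow _ (by norm_num)
    exact setLIntegral_le_lintegral _ _
  · have h := ENNReal.lintegral_mul_le_Lp_mul_Lq (mu.restrict Vᶜ) (p := 2) (q := 2)
      (f := fun θ : ℝ => ‖ev (ind A * ind A) (circleMap 0 ρ θ)‖ₑ) (g := fun _ => 1)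
      (by constructor <;> norm_num) hmR.aemeasurable aemeasurable_const
    simp only [Pi.mul_apply, mul_one, ENNReal.one_rpow, lintegral_const, one_mul,
      Measure.restrict_apply MeasurableSet.univ, Set.univ_inter] at h
    have hV1 : (mu Vᶜ) ^ (1 / 2 : ℝ) ≤ 1 := by
      calc (mu Vᶜ) ^ (1 / 2 : ℝ) ≤ 1 ^ (1 / 2 : ℝ) :=
            ENNReal.rpow_le_rpow prob_le_one (by norm_num)
        _ = 1 := ENNReal.one_rpow _
    have h2 : ∫⁻ θ in Vᶜ, ‖ev (ind A * ind A) (circleMap 0 ρ θ)‖ₑ ∂mu ≤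
        (∫⁻ θ in Vᶜ, ‖ev (ind A * ind A) (circleMap 0 ρ θ)‖ₑ ^ (2 : ℝ) ∂mu) ^ (1 / 2 : ℝ) :=
      h.trans ((mul_le_mul' le_rfl hV1).trans (le_of_eq (mul_one _)))
    refine h2.trans ?_
    have h3 : ∫⁻ θ in Vᶜ, ‖ev (ind A * ind A) (circleMap 0 ρ θ)‖ₑ ^ (2 : ℝ) ∂mu ≤
        ∫⁻ θ in Vᶜ, (‖ev e (circleMap 0 ρ θ)‖ₑ + ‖ev p (circleMap 0 ρ θ)‖ₑ) ^ (2 : ℝ) ∂mu := by
      apply lintegral_mono
      intro θ
      apply ENNReal.rpow_le_rpow _ (by norm_num)
      rw [hep, ev_add he hp (hnorm θ)]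
      exact enorm_add_le _ _
    refine (ENNReal.rpow_le_rpow h3 (by norm_num)).trans ?_
    have h4 := ENNReal.lintegral_Lp_add_le (μ := mu.restrict Vᶜ) (p := 2)
      (f := fun θ : ℝ => ‖ev e (circleMap 0 ρ θ)‖ₑ) (g := fun θ : ℝ => ‖ev p (circleMap 0 ρ θ)‖ₑ)
      hme.aemeasurable hmp.aemeasurable (by norm_num)
    simp only [Pi.add_apply] at h4
    refine h4.trans (add_le_add ?_ le_rfl)
    apply ENNReal.rpow_le_rpow _ (by norm_num)
    exact setLIntegral_le_lintegral _ _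

end Pool.Agent.H303R3.ET
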