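import Pool.Agent.H303R3.ET.SingMain

set_option autoImplicit false

/-!
# Bounded representation functions are not close to functions with concentrated generating function
-/

open Filter Topology MeasureTheory
open scoped ENNReal

namespace Pool.Agent.H303R3.ET

/-- The inequality at one radius. -/
theorem sing_rad {A : Set ℕ} {P : ℕ → ℝ} {κ D1 D2 B ε c0 s ρ : ℝ} (hκ0 : 0 ≤ κ) (hκ1 : κ ≤ 1)
    (hD1 : 0 ≤ D1) (hD2 : 0 ≤ D2) (hB0 : 0 ≤ B)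
    (h1 : ∀ N : ℕ, ∑ n ∈ Finset.range N, (((rep A n : ℝ) - P n) ^ 2 - κ * rep A n) ≤ D1)
    (h2 : ∀ N : ℕ, ∑ n ∈ Finset.range N, (rep A n : ℝ) ^ 2 ≤ B * N + D2)
    (hρ0 : 0 ≤ ρ) (hρ1 : ρ < 1) {V : Set ℝ} (hV : MeasurableSet V)
    (hV1 : volume V ≤ ENNReal.ofReal ε) (hε : 0 ≤ ε) (hε1 : ε ≤ 1)
    (hQ : (1 - ρ) * ∫ θ in Set.Ioc 0 (2 * Real.pi) \ V,
      ‖∑' n : ℕ, (P n : ℂ) * circleMap 0 ρ θ ^ n‖ ^ 2 ≤ ε)
    (hc0 : 0 < c0) (hlow : c0 * (1 - ρ ^ 2)⁻¹ ≤ fr A (ρ ^ 2) ^ 2)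
    (hs : 0 ≤ s) (hs1 : ε * B ≤ c0 * s ^ 2) (hs2 : 2 * ε ≤ c0 * s ^ 2)
    (hs3 : Real.sqrt κ + 4 * s = 1) :
    2 * s * fr A (ρ ^ 2) ≤ Real.sqrt D2 + Real.sqrt D1 := by
  have hgr := fun n => growth hκ0 hκ1 hD1 h1 n
  have hP : Conv (Pw P) := conv_Pw (D := D1 + 3) fun n => (hgr n).2
  have hE : Conv (Pw fun n => (rep A n : ℝ) - P n) := conv_Pw (D := D1 + 2) fun n => (hgr n).1
  have hR : Conv (Pw fun n => (rep A n : ℝ)) := by rw [← rep_Pw]; exact conv_sq A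
  have hep : ind A * ind A = Pw (fun n => (rep A n : ℝ) - P n) + Pw P := by
    rw [rep_Pw, Pw_add]
    congr 1
    funext n
    ring
  have hq0 : 0 ≤ ρ ^ 2 := by positivity
  have hq1 : ρ ^ 2 < 1 := by nlinarith
  have hqq : 0 < 1 - ρ ^ 2 := by linarith
  have hcore := core_two A hE hP hep hρ0 hρ1 hV
  obtain ⟨hRs, hRp⟩ := pars_Pw hR hρ0 hρ1
  obtain ⟨hEs, hEp⟩ := pars_Pw hE hρ0 hρ1
  have hQp := lint_compl hP hρ0 hρ1 hV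
  have hev : ∀ θ : ℝ, ev (Pw P) (circleMap 0 ρ θ) = ∑' n : ℕ, (P n : ℂ) * circleMap 0 ρ θ ^ n := by
    intro θ
    unfold ev Pw
    simp only [PowerSeries.coeff_mk]
  simp_rw [← hev] at hQ
  rw [rep_Pw, hRp, hEp] at hcore
  obtain ⟨M2, hM2⟩ : ∃ x : ℝ, x = ∑' n, (rep A n : ℝ) ^ 2 * (ρ ^ 2) ^ n := ⟨_, rfl⟩
  obtain ⟨E2, hE2⟩ : ∃ x : ℝ, x = ∑' n, ((rep A n : ℝ) - P n) ^ 2 * (ρ ^ 2) ^ n := ⟨_, rfl⟩
  obtain ⟨Q, hQd⟩ : ∃ x : ℝ, x = ∫ θ in Set.Ioc 0 (2 * Real.pi) \ V,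
    ‖ev (Pw P) (circleMap 0 ρ θ)‖ ^ 2 := ⟨_, rfl⟩
  rw [← hM2, ← hE2] at hcore
  rw [← hQd] at hQp hQ
  have hM20 : 0 ≤ M2 := by rw [hM2]; exact tsum_nonneg fun n => by positivity
  have hE20 : 0 ≤ E2 := by rw [hE2]; exact tsum_nonneg fun n => by positivity
  have hQ0 : 0 ≤ Q := by
    rw [hQd]
    exact integral_nonneg fun θ => by positivity
  have hf0 := fr_nonneg A hq0
  -- bounds
  have b2 : M2 ≤ B * (1 - ρ ^ 2)⁻¹ + D2 := by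
    rw [hM2]; exact abel_le hq0 hq1 hRs h2
  have b3 : E2 ≤ κ * fr A (ρ ^ 2) ^ 2 + D1 := by
    have hs' := (summable_rep A hq0 hq1).mul_left κ
    have h3 := abel_le (c := fun n => ((rep A n : ℝ) - P n) ^ 2 - κ * rep A n) (B := 0) (D := D1)
      hq0 hq1 (by
        simp_rw [sub_mul, mul_assoc]
        exact hEs.sub hs') (fun N => by rw [zero_mul, zero_add]; exact h1 N)
    simp_rw [sub_mul, mul_assoc] at h3
    rw [hEs.tsum_sub hs', tsum_mul_left, ← fr_sq A hq0 hq1, ← hE2] at h3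
    linarith
  have b4 : Q ≤ 2 * ε * (1 - ρ ^ 2)⁻¹ := by
    have h4 : Q * (1 - ρ ^ 2) ≤ 2 * ε := by
      have h5 : Q * (1 - ρ ^ 2) = ((1 - ρ) * Q) * (1 + ρ) := by ring
      rw [h5]
      have h6 : 0 ≤ (1 - ρ) * Q := mul_nonneg (by linarith) hQ0
      nlinarith
    rw [← div_eq_mul_inv, le_div_iff₀ hqq]
    exact h4
  -- from extended to real numbers
  have hcomb : fr A (ρ ^ 2) ≤ Real.sqrt M2 * Real.sqrt ε + (Real.sqrt E2 + Real.sqrt Q) := by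
    have c1 : ∀ x : ℝ, 0 ≤ x → (ENNReal.ofReal x) ^ (1 / 2 : ℝ) = ENNReal.ofReal (Real.sqrt x) := by
      intro x hx
      rw [ENNReal.ofReal_rpow_of_nonneg hx (by norm_num), Real.sqrt_eq_rpow]
    have c2 : (mu V) ^ (1 / 2 : ℝ) ≤ ENNReal.ofReal (Real.sqrt ε) := by
      rw [← c1 ε hε]
      exact ENNReal.rpow_le_rpow ((mu_le V).trans hV1) (by norm_num)
    have c3 : (∫⁻ θ in Vᶜ, ‖ev (Pw P) (circleMap 0 ρ θ)‖ₑ ^ (2 : ℝ) ∂mu) ^ (1 / 2 : ℝ) ≤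
        ENNReal.ofReal (Real.sqrt Q) := by
      rw [← c1 Q hQ0]
      exact ENNReal.rpow_le_rpow hQp (by norm_num)
    rw [c1 M2 hM20, c1 E2 hE20] at hcore
    have c4 := hcore.trans (add_le_add (mul_le_mul' le_rfl c2) (add_le_add le_rfl c3))
    rw [← ENNReal.ofReal_mul (Real.sqrt_nonneg _), ← ENNReal.ofReal_add (Real.sqrt_nonneg _)
      (Real.sqrt_nonneg _), ← ENNReal.ofReal_add (by positivity) (by positivity)] at c4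
    exact (ENNReal.ofReal_le_ofReal_iff (by positivity)).mp c4
  exact sing_alg hf0 hc0 (by positivity) hε hε1 hB0 hD1 hD2 hκ0 hlow b2 b3 b4 hs hs1 hs2 hs3 hcomb

theorem sing_main {A : Set ℕ} (hA : A.Infinite) {C : ℝ}
    (hC : ∀ n, (Nat.nth (· ∈ A) n : ℝ) ≤ C * ((n : ℝ) + 1) ^ 2) {P : ℕ → ℝ} (hP : Conc P) {κ : ℝ}
    (hκ : κ < 1)
    (hd : ∀ᶠ N : ℕ in atTop, ∑ n ∈ Finset.range N, ((rep A n : ℝ) - P n) ^ 2 ≤
      κ * ∑ n ∈ Finset.range N, (rep A n : ℝ))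
    {B : ℝ} (hB : ∀ᶠ N : ℕ in atTop, ∑ n ∈ Finset.range N, (rep A n : ℝ) ^ 2 ≤ B * N) : False := by
  obtain ⟨C', hC'⟩ : ∃ C' : ℝ, C' = max C 1 := ⟨_, rfl⟩
  have hC1 : 1 ≤ C' := by rw [hC']; exact le_max_right _ _
  have hCC : C ≤ C' := by rw [hC']; exact le_max_left _ _
  obtain ⟨κ', hκ'⟩ : ∃ κ' : ℝ, κ' = max κ 0 := ⟨_, rfl⟩
  have hκ0 : 0 ≤ κ' := by rw [hκ']; exact le_max_right _ _
  have hκκ : κ ≤ κ' := by rw [hκ']; exact le_max_left _ _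
  have hκ1 : κ' < 1 := by rw [hκ']; exact max_lt hκ one_pos
  obtain ⟨B', hB'⟩ : ∃ B' : ℝ, B' = max B 0 := ⟨_, rfl⟩
  have hB0 : 0 ≤ B' := by rw [hB']; exact le_max_right _ _
  have hBB : B ≤ B' := by rw [hB']; exact le_max_left _ _
  obtain ⟨D1, hD10, hD1⟩ := ev_bound (c := fun n => ((rep A n : ℝ) - P n) ^ 2 - κ' * rep A n) (B := 0)
    (by
      filter_upwards [hd] with N hN
      rw [Finset.sum_sub_distrib, ← Finset.mul_sum, zero_mul]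
      have h1 : 0 ≤ ∑ n ∈ Finset.range N, (rep A n : ℝ) :=
        Finset.sum_nonneg fun _ _ => Nat.cast_nonneg _
      nlinarith)
  obtain ⟨D2, hD20, hD2⟩ := ev_bound (c := fun n => (rep A n : ℝ) ^ 2) (B := B')
    (by
      filter_upwards [hB] with N hN
      exact hN.trans (by gcongr))
  have hsk : Real.sqrt κ' < 1 := by
    rw [Real.sqrt_lt' one_pos]; linarith
  obtain ⟨s, hs⟩ : ∃ s : ℝ, s = (1 - Real.sqrt κ') / 4 := ⟨_, rfl⟩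
  have hs0 : 0 < s := by rw [hs]; linarith
  obtain ⟨c0, hc0⟩ : ∃ c0 : ℝ, c0 = 1 / (32 * C') := ⟨_, rfl⟩
  have hc00 : 0 < c0 := by rw [hc0]; positivity
  obtain ⟨ε, hε⟩ : ∃ ε : ℝ, ε = min 1 (c0 * s ^ 2 / (B' + 2)) := ⟨_, rfl⟩
  have hε0 : 0 < ε := by rw [hε]; exact lt_min one_pos (by positivity)
  have hε1 : ε ≤ 1 := by rw [hε]; exact min_le_left _ _
  have hε2 : ε * (B' + 2) ≤ c0 * s ^ 2 := by
    have : ε ≤ c0 * s ^ 2 / (B' + 2) := by rw [hε]; exact min_le_right _ _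
    rwa [le_div_iff₀ (by positivity)] at this
  obtain ⟨F, hF⟩ : ∃ F : ℝ, F = (Real.sqrt D2 + Real.sqrt D1 + 1) / (2 * s) := ⟨_, rfl⟩
  have hIoo : ∀ᶠ ρ : ℝ in 𝓝[<] 1, ρ ∈ Set.Ioo (0 : ℝ) 1 :=
    Ioo_mem_nhdsLT (show (0 : ℝ) < 1 by norm_num)
  have hev := ((hP ε hε0).and_eventually (hIoo.and
    ((tendsto_T.eventually_ge_atTop (8 * C')).and
      (tendsto_T.eventually_ge_atTop (F ^ 2 / c0))))).exists
  obtain ⟨ρ, ⟨V, hV, hV1, hρ1⟩, hρ2, hρ3, hρ4⟩ := hev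
  obtain ⟨h0, h1⟩ := hρ2
  have hlow := fr_sq_ge hA hC1 (fun n => (hC n).trans (by gcongr)) (q := ρ ^ 2) (by positivity)
    (by nlinarith) hρ3
  rw [← hc0] at hlow
  have hres := sing_rad hκ0 hκ1.le hD10 hD20 hB0 (fun N => by
    have := hD1 N
    rwa [zero_mul, zero_add] at this) hD2 h0.le h1 hV hV1 hε0.le hε1 hρ1 hc00 hlow hs0.le
    (by nlinarith) (by nlinarith) (by rw [hs]; ring)
  have hF0 : 0 ≤ F := by rw [hF]; positivity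
  have hFf : F ≤ fr A (ρ ^ 2) := by
    have h2 : F ^ 2 ≤ fr A (ρ ^ 2) ^ 2 := by
      rw [div_le_iff₀ hc00] at hρ4
      linarith
    exact le_of_pow_le_pow_left₀ two_ne_zero (fr_nonneg A (by positivity)) h2
  have h3 : 2 * s * F ≤ 2 * s * fr A (ρ ^ 2) := by gcongr
  have h4 : 2 * s * F = Real.sqrt D2 + Real.sqrt D1 + 1 := by rw [hF]; field_simp
  linarith

end Pool.Agent.H303R3.ET
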