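import Mathlib

set_option autoImplicit false

/-!
# Singular measures on the circle: approximation by trigonometric polynomials
-/

open Filter Topology MeasureTheory Set
open scoped ENNReal ComplexConjugate

namespace Pool.Agent.H303R3.ET

local instance fpos : Fact (0 < 2 * Real.pi) := Fact.mk Real.two_pi_pos

/-- the circle -/
abbrev Ci : Type := AddCircle (2 * Real.pi)

theorem sing_approx (σ : Measure Ci) [IsFiniteMeasure σ] (hσ : Measure.MutuallySingular σ volume)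
    {ε : ℝ} (hε : 0 < ε) :
    ∃ (V : Set Ci) (Q : C(Ci, ℂ)), IsOpen V ∧ volume V ≤ ENNReal.ofReal ε ∧
      Q ∈ Submodule.span ℂ (Set.range (fourier (T := 2 * Real.pi))) ∧
      (∀ x ∉ V, 1 / 2 ≤ ‖Q x‖) ∧ ∫ x, ‖Q x‖ ^ 2 ∂σ ≤ ε := by
  obtain ⟨S, hS, hS1, hS2⟩ := hσ
  -- compact set
  obtain ⟨K, hKS, hK, hK1⟩ := hS.compl.exists_isCompact_sdiff_lt (μ := σ) (measure_ne_top σ _)
    (ε := ENNReal.ofReal (ε / 8)) (by
      rw [Ne, ENNReal.ofReal_eq_zero, not_le]; positivity)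
  have hKc : σ Kᶜ ≤ ENNReal.ofReal (ε / 8) := by
    have h1 : Kᶜ ⊆ S ∪ (Sᶜ \ K) := by
      intro x hx
      by_cases hxS : x ∈ S
      · exact Or.inl hxS
      · exact Or.inr ⟨hxS, hx⟩
    calc σ Kᶜ ≤ σ (S ∪ (Sᶜ \ K)) := measure_mono h1
      _ ≤ σ S + σ (Sᶜ \ K) := measure_union_le _ _
      _ ≤ 0 + ENNReal.ofReal (ε / 8) := add_le_add hS1.le hK1.le
      _ = ENNReal.ofReal (ε / 8) := zero_add _
  have hvK : volume K = 0 := le_antisymm ((measure_mono hKS).trans hS2.le) zero_le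
  obtain ⟨V, hVK, hVo, hV⟩ := K.exists_isOpen_lt_of_lt (μ := (volume : Measure Ci))
    (ENNReal.ofReal ε) (by rw [hvK]; exact ENNReal.ofReal_pos.mpr hε)
  obtain ⟨f, hf0, hf1, hf⟩ := exists_continuous_zero_one_of_isClosed hK.isClosed hVo.isClosed_compl
    (Set.disjoint_compl_right_iff_subset.mpr hVK)
  -- complexify and approximate
  obtain ⟨g, hg⟩ : ∃ g : C(Ci, ℂ), ∀ x, g x = (f x : ℂ) :=
    ⟨⟨fun x => (f x : ℂ), Complex.continuous_ofReal.comp f.continuous⟩, fun _ => rfl⟩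
  obtain ⟨m, hm⟩ : ∃ m : ℝ, m = σ.real univ := ⟨_, rfl⟩
  have hm0 : 0 ≤ m := by rw [hm]; exact measureReal_nonneg
  obtain ⟨η, hη⟩ : ∃ η : ℝ, η = min (1 / 2) (Real.sqrt (ε / (4 * (m + 1)))) := ⟨_, rfl⟩
  have hη0 : 0 < η := by
    rw [hη]; exact lt_min (by norm_num) (Real.sqrt_pos.mpr (by positivity))
  have hη1 : η ≤ 1 / 2 := by rw [hη]; exact min_le_left _ _
  have hη2 : η ^ 2 * (m + 1) ≤ ε / 4 := by
    have h1 : η ≤ Real.sqrt (ε / (4 * (m + 1))) := by rw [hη]; exact min_le_right _ _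
    have h2 : η ^ 2 ≤ ε / (4 * (m + 1)) := by
      calc η ^ 2 ≤ Real.sqrt (ε / (4 * (m + 1))) ^ 2 := pow_le_pow_left₀ hη0.le h1 2
        _ = _ := Real.sq_sqrt (by positivity)
    calc η ^ 2 * (m + 1) ≤ ε / (4 * (m + 1)) * (m + 1) := by gcongr
      _ = ε / 4 := by field_simp
  have hcl : g ∈ closure ((Submodule.span ℂ (Set.range (fourier (T := 2 * Real.pi))) :
      Submodule ℂ C(Ci, ℂ)) : Set C(Ci, ℂ)) := by
    have h1 := span_fourier_closure_eq_top (T := 2 * Real.pi)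
    have h2 : g ∈ (Submodule.span ℂ (Set.range (fourier (T := 2 * Real.pi)))).topologicalClosure := by
      rw [h1]; trivial
    exact h2
  obtain ⟨Q, hQ, hQg⟩ := Metric.mem_closure_iff.mp hcl η hη0
  have hQx : ∀ x, ‖Q x - g x‖ ≤ η := by
    intro x
    rw [← dist_eq_norm, dist_comm]
    exact (ContinuousMap.dist_apply_le_dist x).trans hQg.le
  refine ⟨V, Q, hVo, hV.le, hQ, ?_, ?_⟩
  · intro x hx
    have h1 : f x = 1 := hf1 hx
    have h2 := hQx x
    rw [hg, h1] at h2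
    have h3 : ‖((1 : ℝ) : ℂ)‖ ≤ ‖Q x‖ + ‖Q x - ((1 : ℝ) : ℂ)‖ := by
      have := norm_sub_le (Q x) (Q x - ((1 : ℝ) : ℂ))
      rwa [sub_sub_cancel] at this
    rw [Complex.norm_real, norm_one] at h3
    linarith
  · have hbd : ∀ x, ‖Q x‖ ^ 2 ≤ 2 * Kᶜ.indicator (fun _ => (1 : ℝ)) x + 2 * η ^ 2 := by
      intro x
      have h2 := hQx x
      have h3 : ‖Q x‖ ≤ ‖g x‖ + ‖Q x - g x‖ := by
        have := norm_add_le (g x) (Q x - g x)
        rwa [add_sub_cancel] at this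
      have h4 : ‖g x‖ ^ 2 ≤ Kᶜ.indicator (fun _ => (1 : ℝ)) x := by
        rw [hg, Complex.norm_real, Real.norm_eq_abs, sq_abs]
        by_cases hx : x ∈ K
        · rw [Set.indicator_of_notMem (by simpa using hx)]
          have : f x = 0 := hf0 hx
          rw [this]; norm_num
        · rw [Set.indicator_of_mem (by simpa using hx)]
          obtain ⟨h5, h6⟩ := hf x
          nlinarith
      have h5 : ‖Q x‖ ^ 2 ≤ (‖g x‖ + ‖Q x - g x‖) ^ 2 := pow_le_pow_left₀ (norm_nonneg _) h3 2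
      have h6 : ‖Q x - g x‖ ^ 2 ≤ η ^ 2 := pow_le_pow_left₀ (norm_nonneg _) h2 2
      nlinarith [sq_nonneg (‖g x‖ - ‖Q x - g x‖)]
    have hi1 : Integrable (fun x => 2 * Kᶜ.indicator (fun _ => (1 : ℝ)) x) σ :=
      ((integrable_const (1 : ℝ)).indicator hK.isClosed.isOpen_compl.measurableSet).const_mul 2
    have hi2 : Integrable (fun _ : Ci => 2 * η ^ 2) σ := integrable_const _
    have hi3 : Integrable (fun x => ‖Q x‖ ^ 2) σ := by
      have hc : Continuous fun x => ‖Q x‖ ^ 2 := Q.continuous.norm.pow 2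
      refine Integrable.of_bound hc.aestronglyMeasurable (‖Q‖ ^ 2) (Eventually.of_forall fun x => ?_)
      rw [Real.norm_of_nonneg (by positivity)]
      exact pow_le_pow_left₀ (norm_nonneg _) (Q.norm_coe_le_norm x) 2
    calc ∫ x, ‖Q x‖ ^ 2 ∂σ ≤ ∫ x, (2 * Kᶜ.indicator (fun _ => (1 : ℝ)) x + 2 * η ^ 2) ∂σ :=
          integral_mono hi3 (hi1.add hi2) hbd
      _ = 2 * σ.real Kᶜ + 2 * η ^ 2 * m := by
          rw [integral_add hi1 hi2, integral_const_mul, integral_const, smul_eq_mul,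
            integral_indicator_const _ hK.isClosed.isOpen_compl.measurableSet, smul_eq_mul, mul_one,
            ← hm]
          ring
      _ ≤ ε := by
          have h1 : σ.real Kᶜ ≤ ε / 8 := by
            rw [Measure.real]
            exact ENNReal.toReal_le_of_le_ofReal (by positivity) hKc
          nlinarith

/-- Trigonometric polynomials as polynomials. -/
theorem span_poly {Q : C(Ci, ℂ)}
    (hQ : Q ∈ Submodule.span ℂ (Set.range (fourier (T := 2 * Real.pi)))) :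
    ∃ q : Polynomial ℂ, ∀ x, ‖Q x‖ = ‖q.eval (fourier 1 x)‖ := by
  have key : ∃ d0 : ℕ, ∀ d : ℕ, d0 ≤ d → ∃ q : Polynomial ℂ, ∀ x,
      fourier (d : ℤ) x * Q x = q.eval (fourier 1 x) := by
    induction hQ using Submodule.span_induction with
    | mem Q hQ =>
      obtain ⟨n, rfl⟩ := hQ
      refine ⟨n.natAbs, fun d hd => ⟨Polynomial.X ^ (d + n).toNat, fun x => ?_⟩⟩
      rw [← fourier_add, Polynomial.eval_pow, Polynomial.eval_X]
      have h1 : ((d : ℤ) + n) = ((d + n).toNat : ℤ) := by omega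
      rw [h1]
      have h2 : ∀ m : ℕ, (fourier (m : ℤ) x : ℂ) = (fourier 1 x) ^ m := by
        intro m
        induction m with
        | zero => simp
        | succ m ih =>
          rw [pow_succ, ← ih, ← fourier_add]
          norm_cast
      rw [h2]
      congr 2
    | zero => exact ⟨0, fun d _ => ⟨0, fun x => by simp⟩⟩
    | add Q1 Q2 _ _ h1 h2 =>
      obtain ⟨d1, h1⟩ := h1
      obtain ⟨d2, h2⟩ := h2
      refine ⟨max d1 d2, fun d hd => ?_⟩
      obtain ⟨q1, h1⟩ := h1 d (le_trans (le_max_left _ _) hd)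
      obtain ⟨q2, h2⟩ := h2 d (le_trans (le_max_right _ _) hd)
      refine ⟨q1 + q2, fun x => ?_⟩
      rw [Polynomial.eval_add, ← h1, ← h2, ContinuousMap.add_apply]
      ring
    | smul a Q _ h =>
      obtain ⟨d0, h⟩ := h
      refine ⟨d0, fun d hd => ?_⟩
      obtain ⟨q, h⟩ := h d hd
      refine ⟨Polynomial.C a * q, fun x => ?_⟩
      rw [Polynomial.eval_mul, Polynomial.eval_C, ← h, ContinuousMap.smul_apply, smul_eq_mul]
      ring
  obtain ⟨d0, h⟩ := key
  obtain ⟨q, h⟩ := h d0 le_rfl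
  refine ⟨q, fun x => ?_⟩
  rw [← h, norm_mul]
  have : ‖(fourier (d0 : ℤ) x : ℂ)‖ = 1 := by
    rw [fourier_apply]; exact Circle.norm_coe _
  rw [this, one_mul]

end Pool.Agent.H303R3.ET
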