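import Pool.Agent.H303R3.ET.SpecA
import Pool.Agent.H303R3.ET.SingFin

set_option autoImplicit false

/-!
# Correlations and spectral measure
-/

open Filter Topology MeasureTheory Set
open scoped ENNReal ComplexConjugate

namespace Pool.Agent.H303R3.ET

local instance fpos' : Fact (0 < 2 * Real.pi) := Fact.mk Real.two_pi_pos

/-- the autocorrelations of `P` are the Fourier coefficients of `σ` -/
def Spec (P : ℕ → ℝ) (σ : Measure Ci) : Prop :=
  ∀ k : ℕ, Tendsto (fun N : ℕ => (((∑ n ∈ Finset.range N, P (n + k) * P n) / N : ℝ) : ℂ)) atTop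
    (𝓝 (∫ x, (fourier (k : ℤ) x : ℂ) ∂σ))

/-- the real correlation -/
noncomputable def gam (σ : Measure Ci) (k : ℕ) : ℝ := (∫ x, (fourier (k : ℤ) x : ℂ) ∂σ).re

theorem spec_re {P : ℕ → ℝ} {σ : Measure Ci} (h : Spec P σ) (k : ℕ) :
    Tendsto (fun N : ℕ => (∑ n ∈ Finset.range N, P (n + k) * P n) / N) atTop (𝓝 (gam σ k)) := by
  have h1 := (Complex.continuous_re.tendsto _).comp (h k)
  exact h1

theorem spec_im {P : ℕ → ℝ} {σ : Measure Ci} (h : Spec P σ) (k : ℕ) :
    ∫ x, (fourier (k : ℤ) x : ℂ) ∂σ = (gam σ k : ℂ) := by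
  apply Complex.ext
  · rfl
  · have h1 := (Complex.continuous_im.tendsto _).comp (h k)
    have h2 : (Complex.im ∘ fun N : ℕ => (((∑ n ∈ Finset.range N, P (n + k) * P n) / N : ℝ) : ℂ)) =
        fun _ => (0 : ℝ) := by
      funext N
      exact Complex.ofReal_im _
    rw [h2] at h1
    rw [← tendsto_nhds_unique tendsto_const_nhds h1]
    simp

theorem spec_int {P : ℕ → ℝ} {σ : Measure Ci} (h : Spec P σ) (z : ℤ) :
    ∫ x, (fourier z x : ℂ) ∂σ = (gam σ z.natAbs : ℂ) := by
  rcases Int.natAbs_eq z with hz | hz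
  · rw [← spec_im h, ← hz]
  · have h1 : ∀ x : Ci, (fourier z x : ℂ) = conj (fourier ((z.natAbs : ℕ) : ℤ) x : ℂ) := by
      intro x
      rw [← fourier_neg, ← hz]
    rw [integral_congr_ae (Eventually.of_forall h1), integral_conj, spec_im h, Complex.conj_ofReal]

/-- shifted sequence -/
def Psh (P : ℕ → ℝ) (j n : ℕ) : ℝ := if j ≤ n then P (n - j) else 0

theorem ces_shift_aux {P : ℕ → ℝ} {σ : Measure Ci} (h : Spec P σ) (k l : ℕ) :
    Tendsto (fun N : ℕ => (∑ n ∈ Finset.range N, Psh P (l + k) n * Psh P l n) / N) atTop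
      (𝓝 (gam σ k)) := by
  rw [← tendsto_add_atTop_iff_nat (l + k)]
  have h1 : ∀ N : ℕ, ∑ n ∈ Finset.range (N + (l + k)), Psh P (l + k) n * Psh P l n =
      ∑ n ∈ Finset.range N, P (n + k) * P n := by
    intro N
    rw [add_comm N, Finset.sum_range_add]
    have h2 : ∑ n ∈ Finset.range (l + k), Psh P (l + k) n * Psh P l n = 0 := by
      apply Finset.sum_eq_zero
      intro n hn
      have : n < l + k := Finset.mem_range.mp hn
      unfold Psh
      rw [if_neg (by omega), zero_mul]
    rw [h2, zero_add]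
    refine Finset.sum_congr rfl fun n _ => ?_
    unfold Psh
    rw [if_pos (by omega), if_pos (by omega)]
    have e1 : l + k + n - (l + k) = n := by omega
    have e2 : l + k + n - l = n + k := by omega
    rw [e1, e2, mul_comm]
  simp_rw [h1]
  have h3 := (spec_re h k).mul (tendsto_natCast_div_add_atTop (𝕜 := ℝ) ((l + k : ℕ) : ℝ))
  rw [mul_one] at h3
  refine h3.congr' ?_
  filter_upwards [eventually_gt_atTop 0] with N hN
  have hN' : (N : ℝ) ≠ 0 := by
    have : (0 : ℝ) < N := by exact_mod_cast hN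
    exact this.ne'
  push_cast
  field_simp

theorem ces_shift {P : ℕ → ℝ} {σ : Measure Ci} (h : Spec P σ) (j l : ℕ) :
    Tendsto (fun N : ℕ => (∑ n ∈ Finset.range N, Psh P j n * Psh P l n) / N) atTop
      (𝓝 (gam σ ((j : ℤ) - l).natAbs)) := by
  rcases le_total l j with hlj | hlj
  · obtain ⟨k, rfl⟩ := Nat.exists_eq_add_of_le hlj
    have : (((l + k : ℕ) : ℤ) - l).natAbs = k := by omega
    rw [this]
    exact ces_shift_aux h k l
  · obtain ⟨k, rfl⟩ := Nat.exists_eq_add_of_le hlj
    have : ((j : ℤ) - ((j + k : ℕ) : ℤ)).natAbs = k := by omega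
    rw [this]
    refine (ces_shift_aux h k j).congr fun N => ?_
    congr 1
    exact Finset.sum_congr rfl fun n _ => mul_comm _ _

theorem coeff_poly_mul (q : Polynomial ℂ) (P : ℕ → ℝ) (n : ℕ) :
    PowerSeries.coeff n ((q : PowerSeries ℂ) * Pw P) =
      ∑ j ∈ Finset.range (q.natDegree + 1), q.coeff j * (Psh P j n : ℂ) := by
  rw [PowerSeries.coeff_mul, Finset.Nat.sum_antidiagonal_eq_sum_range_succ
    (fun i m => PowerSeries.coeff i (q : PowerSeries ℂ) * PowerSeries.coeff m (Pw P))]
  have h1 : ∑ i ∈ Finset.range (n + 1), PowerSeries.coeff i (q : PowerSeries ℂ) *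
      PowerSeries.coeff (n - i) (Pw P) =
      ∑ i ∈ Finset.range (n + 1), q.coeff i * (Psh P i n : ℂ) := by
    refine Finset.sum_congr rfl fun i hi => ?_
    have hi' : i ≤ n := Nat.lt_succ_iff.mp (Finset.mem_range.mp hi)
    unfold Psh Pw
    rw [if_pos hi', PowerSeries.coeff_mk, Polynomial.coeff_coe]
  rw [h1]
  have h2 : ∀ M : ℕ, n + 1 ≤ M → ∑ i ∈ Finset.range (n + 1), q.coeff i * (Psh P i n : ℂ) =
      ∑ i ∈ Finset.range M, q.coeff i * (Psh P i n : ℂ) := by
    intro M hM
    apply Finset.sum_subset (Finset.range_subset_range.mpr hM)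
    intro i _ hi
    have hi' : ¬ i ≤ n := by
      intro h
      exact hi (Finset.mem_range.mpr (Nat.lt_succ_of_le h))
    unfold Psh
    rw [if_neg hi', Complex.ofReal_zero, mul_zero]
  have h3 : ∀ M : ℕ, q.natDegree + 1 ≤ M →
      ∑ i ∈ Finset.range (q.natDegree + 1), q.coeff i * (Psh P i n : ℂ) =
      ∑ i ∈ Finset.range M, q.coeff i * (Psh P i n : ℂ) := by
    intro M hM
    apply Finset.sum_subset (Finset.range_subset_range.mpr hM)
    intro i _ hi
    have hi' : q.natDegree < i := by
      by_contra hcon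
      exact hi (Finset.mem_range.mpr (by omega))
    rw [Polynomial.coeff_eq_zero_of_natDegree_lt hi', zero_mul]
  rw [h2 (max (n + 1) (q.natDegree + 1)) (le_max_left _ _),
    h3 (max (n + 1) (q.natDegree + 1)) (le_max_right _ _)]

theorem ces_poly {P : ℕ → ℝ} {σ : Measure Ci} [IsFiniteMeasure σ] (h : Spec P σ)
    (q : Polynomial ℂ) :
    Tendsto (fun N : ℕ => (∑ n ∈ Finset.range N,
        ‖PowerSeries.coeff n ((q : PowerSeries ℂ) * Pw P)‖ ^ 2) / N) atTop
      (𝓝 (∫ x, ‖q.eval (fourier 1 x)‖ ^ 2 ∂σ)) := by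
  obtain ⟨d, hd⟩ : ∃ d : ℕ, d = q.natDegree + 1 := ⟨_, rfl⟩
  have hC : Tendsto (fun N : ℕ => (((∑ n ∈ Finset.range N,
        ‖PowerSeries.coeff n ((q : PowerSeries ℂ) * Pw P)‖ ^ 2) / N : ℝ) : ℂ)) atTop
      (𝓝 (((∫ x, ‖q.eval (fourier 1 x)‖ ^ 2 ∂σ : ℝ)) : ℂ)) := by
    have h1 : ∀ N : ℕ, (((∑ n ∈ Finset.range N,
        ‖PowerSeries.coeff n ((q : PowerSeries ℂ) * Pw P)‖ ^ 2) / N : ℝ) : ℂ) =
        ∑ j ∈ Finset.range d, ∑ l ∈ Finset.range d, q.coeff j * conj (q.coeff l) *
          (((∑ n ∈ Finset.range N, Psh P j n * Psh P l n) / N : ℝ) : ℂ) := by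
      intro N
      have h2 : ∀ n, ((‖PowerSeries.coeff n ((q : PowerSeries ℂ) * Pw P)‖ ^ 2 : ℝ) : ℂ) =
          ∑ j ∈ Finset.range d, ∑ l ∈ Finset.range d, q.coeff j * conj (q.coeff l) *
            ((Psh P j n * Psh P l n : ℝ) : ℂ) := by
        intro n
        rw [coeff_poly_mul, ← hd]
        push_cast
        rw [← Complex.mul_conj', map_sum, Finset.sum_mul_sum]
        refine Finset.sum_congr rfl fun j _ => Finset.sum_congr rfl fun l _ => ?_
        rw [map_mul, Complex.conj_ofReal]
        ring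
      push_cast
      have h3 : ∑ n ∈ Finset.range N, ((‖PowerSeries.coeff n ((q : PowerSeries ℂ) * Pw P)‖ : ℂ)) ^ 2 =
          ∑ n ∈ Finset.range N, ∑ j ∈ Finset.range d, ∑ l ∈ Finset.range d,
            q.coeff j * conj (q.coeff l) * ((Psh P j n * Psh P l n : ℝ) : ℂ) := by
        refine Finset.sum_congr rfl fun n _ => ?_
        rw [← h2 n]
        push_cast
        rfl
      rw [h3, Finset.sum_comm, Finset.sum_div]
      refine Finset.sum_congr rfl fun j _ => ?_
      rw [Finset.sum_comm, Finset.sum_div]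
      refine Finset.sum_congr rfl fun l _ => ?_
      rw [← Finset.mul_sum, mul_div_assoc]
      push_cast
      rfl
    have h4 : (((∫ x, ‖q.eval (fourier 1 x)‖ ^ 2 ∂σ : ℝ)) : ℂ) =
        ∑ j ∈ Finset.range d, ∑ l ∈ Finset.range d, q.coeff j * conj (q.coeff l) *
          (gam σ ((j : ℤ) - l).natAbs : ℂ) := by
      rw [← integral_complex_ofReal]
      have h5 : ∀ x : Ci, ((‖q.eval (fourier 1 x)‖ ^ 2 : ℝ) : ℂ) =
          ∑ j ∈ Finset.range d, ∑ l ∈ Finset.range d, q.coeff j * conj (q.coeff l) *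
            (fourier ((j : ℤ) - l) x : ℂ) := by
        intro x
        have h2 : ∀ m : ℕ, (fourier 1 x : ℂ) ^ m = (fourier (m : ℤ) x : ℂ) := by
          intro m
          induction m with
          | zero => simp
          | succ m ih =>
            rw [pow_succ, ih, ← fourier_add]
            norm_cast
        push_cast
        rw [← Complex.mul_conj', Polynomial.eval_eq_sum_range, ← hd, map_sum, Finset.sum_mul_sum]
        refine Finset.sum_congr rfl fun j _ => Finset.sum_congr rfl fun l _ => ?_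
        rw [map_mul, h2, h2, ← fourier_neg, sub_eq_add_neg, fourier_add]
        ring
      rw [integral_congr_ae (Eventually.of_forall h5), integral_finsetSum]
      · refine Finset.sum_congr rfl fun j _ => ?_
        rw [integral_finsetSum]
        · refine Finset.sum_congr rfl fun l _ => ?_
          rw [integral_const_mul, spec_int h]
        · intro l _
          apply Integrable.const_mul
          refine Integrable.of_bound (fourier ((j : ℤ) - l)).continuous.aestronglyMeasurable 1
            (Eventually.of_forall fun x => ?_)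
          rw [fourier_apply]; exact (Circle.norm_coe _).le
      · intro j _
        apply integrable_finsetSum
        intro l _
        apply Integrable.const_mul
        refine Integrable.of_bound (fourier ((j : ℤ) - l)).continuous.aestronglyMeasurable 1
          (Eventually.of_forall fun x => ?_)
        rw [fourier_apply]; exact (Circle.norm_coe _).le
    rw [h4]
    refine Tendsto.congr (fun N => (h1 N).symm) ?_
    refine tendsto_finsetSum _ fun j _ => tendsto_finsetSum _ fun l _ => ?_
    apply Tendsto.const_mul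
    exact (Complex.continuous_ofReal.tendsto _).comp (ces_shift h j l)
  have h6 := (Complex.continuous_re.tendsto _).comp hC
  exact h6

end Pool.Agent.H303R3.ET
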