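import Pool.Agent.H303R3.ET.SpecB

set_option autoImplicit false

/-!
# A singular spectral measure gives a concentrated generating function
-/

open Filter Topology MeasureTheory Set
open scoped ENNReal ComplexConjugate

namespace Pool.Agent.H303R3.ET

local instance fpos'' : Fact (0 < 2 * Real.pi) := Fact.mk Real.two_pi_pos

theorem fourier_circle (θ : ℝ) : (fourier 1 (θ : Ci) : ℂ) = circleMap 0 1 θ := by
  rw [fourier_coe_apply, circleMap_zero]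
  push_cast
  rw [one_mul]
  congr 1
  have : (Real.pi : ℂ) ≠ 0 := by exact_mod_cast Real.pi_ne_zero
  field_simp

theorem unif_close (q : Polynomial ℂ) :
    ∀ᶠ ρ : ℝ in 𝓝[<] 1, ∀ θ : ℝ, ‖q.eval (circleMap 0 ρ θ) - q.eval (circleMap 0 1 θ)‖ ≤ 1 / 4 := by
  have hc : Tendsto (fun ρ : ℝ => ∑ j ∈ Finset.range (q.natDegree + 1), ‖q.coeff j‖ * |ρ ^ j - 1|)
      (𝓝 1) (𝓝 (∑ j ∈ Finset.range (q.natDegree + 1), ‖q.coeff j‖ * |(1 : ℝ) ^ j - 1|)) := by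
    apply Continuous.tendsto
    fun_prop
  have h0 : ∑ j ∈ Finset.range (q.natDegree + 1), ‖q.coeff j‖ * |(1 : ℝ) ^ j - 1| = 0 := by
    apply Finset.sum_eq_zero
    intro j _
    simp
  rw [h0] at hc
  have h1 : ∀ᶠ ρ : ℝ in 𝓝 1, ∑ j ∈ Finset.range (q.natDegree + 1), ‖q.coeff j‖ * |ρ ^ j - 1| ≤ 1 / 4 :=
    (hc.eventually_lt_const (show (0 : ℝ) < 1 / 4 by norm_num)).mono fun _ h => h.le
  filter_upwards [h1.filter_mono nhdsWithin_le_nhds] with ρ hρ θ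
  refine le_trans ?_ hρ
  rw [Polynomial.eval_eq_sum_range, Polynomial.eval_eq_sum_range, ← Finset.sum_sub_distrib]
  refine (norm_sum_le _ _).trans (Finset.sum_le_sum fun j _ => le_of_eq ?_)
  have e1 : circleMap 0 ρ θ ^ j = (ρ : ℂ) ^ j * circleMap 0 1 θ ^ j := by
    rw [← mul_pow]
    congr 1
    rw [circleMap_zero, circleMap_zero]
    push_cast
    ring
  rw [e1]
  have e2 : q.coeff j * ((ρ : ℂ) ^ j * circleMap 0 1 θ ^ j) - q.coeff j * circleMap 0 1 θ ^ j =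
      q.coeff j * (((ρ ^ j - 1 : ℝ) : ℂ) * circleMap 0 1 θ ^ j) := by
    push_cast
    ring
  rw [e2, norm_mul, norm_mul, norm_pow, norm_circleMap_zero, abs_one, one_pow, mul_one,
    Complex.norm_real, Real.norm_eq_abs]

theorem spec_bd {P : ℕ → ℝ} {σ : Measure Ci} (h : Spec P σ) : Conv (Pw P) := by
  have h0 := spec_re h 0
  have h1 : ∀ᶠ N : ℕ in atTop, ∑ n ∈ Finset.range N, P n ^ 2 ≤ (gam σ 0 + 1) * N := by
    filter_upwards [h0.eventually_lt_const (show gam σ 0 < gam σ 0 + 1 by linarith),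
      eventually_gt_atTop 0] with N hN hN0
    have hN' : (0 : ℝ) < N := by exact_mod_cast hN0
    rw [div_lt_iff₀ hN'] at hN
    refine le_trans (le_of_eq ?_) hN.le
    refine Finset.sum_congr rfl fun n _ => ?_
    rw [add_zero, sq]
  obtain ⟨D, hD0, hD⟩ := ev_bound h1
  apply conv_Pw (D := 1 + |gam σ 0 + 1| + D)
  intro n
  have h2 : P n ^ 2 ≤ ∑ m ∈ Finset.range (n + 1), P m ^ 2 :=
    Finset.single_le_sum (f := fun m => P m ^ 2) (fun _ _ => sq_nonneg _)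
      (Finset.mem_range.mpr (Nat.lt_succ_self n))
  have h3 := hD (n + 1)
  push_cast at h3
  have hn0 : (0 : ℝ) ≤ n := Nat.cast_nonneg n
  have h4 : (gam σ 0 + 1) * ((n : ℝ) + 1) ≤ |gam σ 0 + 1| * ((n : ℝ) + 1) :=
    mul_le_mul_of_nonneg_right (le_abs_self _) (by positivity)
  have h5 : |P n| ≤ 1 + P n ^ 2 := by
    have := sq_abs (P n)
    nlinarith [sq_nonneg (|P n| - 1), abs_nonneg (P n)]
  have h6 : (n : ℝ) + 1 ≤ ((n : ℝ) + 1) ^ 2 := by nlinarith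
  have h7 : |gam σ 0 + 1| * ((n : ℝ) + 1) ≤ |gam σ 0 + 1| * ((n : ℝ) + 1) ^ 2 :=
    mul_le_mul_of_nonneg_left h6 (abs_nonneg _)
  have h8 : 1 ≤ ((n : ℝ) + 1) ^ 2 := by nlinarith
  have h9 : D ≤ D * ((n : ℝ) + 1) ^ 2 := by nlinarith
  nlinarith

theorem mass_le {F : PowerSeries ℂ} (hF : Conv F) {ρ : ℝ} (h0 : 0 ≤ ρ) (h1 : ρ < 1) :
    ∫ θ in Set.Ioc 0 (2 * Real.pi), ‖ev F (circleMap 0 ρ θ)‖ ^ 2 =
      2 * Real.pi * ∑' n, ‖PowerSeries.coeff n F‖ ^ 2 * (ρ ^ 2) ^ n := by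
  rw [(parseval hF h0 h1).tsum_eq]
  unfold Real.circleAverage
  rw [smul_eq_mul, intervalIntegral.integral_of_le Real.two_pi_pos.le, ← mul_assoc,
    mul_inv_cancel₀ Real.two_pi_pos.ne', one_mul]

theorem spec_conc {P : ℕ → ℝ} {σ : Measure Ci} [IsFiniteMeasure σ] (h : Spec P σ)
    (hσ : Measure.MutuallySingular σ volume) : Conc P := by
  intro ε hε
  obtain ⟨ε', hε'⟩ : ∃ ε' : ℝ, ε' = ε / 400 := ⟨_, rfl⟩
  have hε'0 : 0 < ε' := by rw [hε']; positivity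
  obtain ⟨V', Q, hVo, hV1, hQ, hQV, hQσ⟩ := sing_approx σ hσ hε'0
  obtain ⟨q, hq⟩ := span_poly hQ
  have hqσ : ∫ x, ‖q.eval (fourier 1 x)‖ ^ 2 ∂σ ≤ ε' := by
    refine le_trans (le_of_eq ?_) hQσ
    exact integral_congr_ae (Eventually.of_forall fun x => by
      show ‖q.eval (fourier 1 x)‖ ^ 2 = ‖Q x‖ ^ 2
      rw [hq])
  have hP := spec_bd h
  have hF : Conv ((q : PowerSeries ℂ) * Pw P) := (conv_poly q).mul hP
  have hces : ∀ᶠ N : ℕ in atTop, ∑ n ∈ Finset.range N,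
      ‖PowerSeries.coeff n ((q : PowerSeries ℂ) * Pw P)‖ ^ 2 ≤ (2 * ε') * N := by
    filter_upwards [(ces_poly h q).eventually_lt_const (show _ < 2 * ε' by linarith),
      eventually_gt_atTop 0] with N hN hN0
    have hN' : (0 : ℝ) < N := by exact_mod_cast hN0
    rw [div_lt_iff₀ hN'] at hN
    exact hN.le
  obtain ⟨D, hD0, hD⟩ := ev_bound hces
  obtain ⟨V, hVdef⟩ : ∃ V : Set ℝ, V = Set.Ioc 0 (2 * Real.pi) ∩ ((↑) : ℝ → Ci) ⁻¹' V' := ⟨_, rfl⟩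
  have hVm : MeasurableSet V := by
    rw [hVdef]
    exact measurableSet_Ioc.inter (AddCircle.measurable_mk' hVo.measurableSet)
  have hVv : volume V ≤ ENNReal.ofReal ε := by
    have h2 := (AddCircle.measurePreserving_mk (2 * Real.pi) 0).measure_preimage
      hVo.measurableSet.nullMeasurableSet
    rw [Measure.restrict_apply (AddCircle.measurable_mk' hVo.measurableSet), zero_add] at h2
    rw [hVdef, Set.inter_comm, h2]
    refine hV1.trans (ENNReal.ofReal_le_ofReal ?_)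
    rw [hε']; linarith
  have hD1 : ∀ᶠ ρ : ℝ in 𝓝[<] 1, (1 - ρ) * D ≤ ε' := by
    have h2 : Tendsto (fun ρ : ℝ => (1 - ρ) * D) (𝓝 1) (𝓝 ((1 - 1) * D)) := by
      apply Continuous.tendsto
      fun_prop
    rw [sub_self, zero_mul] at h2
    exact ((h2.eventually_lt_const hε'0).mono fun _ h => h.le).filter_mono nhdsWithin_le_nhds
  have hIoo : ∀ᶠ ρ : ℝ in 𝓝[<] 1, ρ ∈ Set.Ioo (0 : ℝ) 1 :=
    Ioo_mem_nhdsLT (show (0 : ℝ) < 1 by norm_num)
  apply Eventually.frequently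
  filter_upwards [hIoo, hD1, unif_close q] with ρ hρ hρD hρq
  obtain ⟨h0, h1⟩ := hρ
  refine ⟨V, hVm, hVv, ?_⟩
  have hev : ∀ θ : ℝ, ev (Pw P) (circleMap 0 ρ θ) = ∑' n : ℕ, (P n : ℂ) * circleMap 0 ρ θ ^ n := by
    intro θ
    unfold ev Pw
    simp only [PowerSeries.coeff_mk]
  simp_rw [← hev]
  have hnorm : ∀ θ : ℝ, ‖circleMap 0 ρ θ‖ < 1 := by
    intro θ
    rw [norm_circleMap_zero, abs_of_pos h0]; exact h1
  have hpt : ∀ θ ∈ Set.Ioc 0 (2 * Real.pi) \ V, ‖ev (Pw P) (circleMap 0 ρ θ)‖ ^ 2 ≤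
      16 * ‖ev ((q : PowerSeries ℂ) * Pw P) (circleMap 0 ρ θ)‖ ^ 2 := by
    intro θ hθ
    have h2 : (θ : Ci) ∉ V' := by
      intro hcon
      apply hθ.2
      rw [hVdef]
      exact ⟨hθ.1, hcon⟩
    have h3 := hQV _ h2
    rw [hq, fourier_circle] at h3
    have h4 := hρq θ
    have h5 : 1 / 4 ≤ ‖q.eval (circleMap 0 ρ θ)‖ := by
      have h6 : ‖q.eval (circleMap 0 1 θ)‖ ≤ ‖q.eval (circleMap 0 ρ θ)‖ +
          ‖q.eval (circleMap 0 ρ θ) - q.eval (circleMap 0 1 θ)‖ := by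
        have := norm_sub_le (q.eval (circleMap 0 ρ θ))
          (q.eval (circleMap 0 ρ θ) - q.eval (circleMap 0 1 θ))
        rwa [sub_sub_cancel] at this
      linarith
    rw [ev_mul (conv_poly q) hP (hnorm θ), ev_poly, norm_mul, mul_pow]
    have h7 : (1 / 4 : ℝ) ^ 2 ≤ ‖q.eval (circleMap 0 ρ θ)‖ ^ 2 :=
      pow_le_pow_left₀ (by norm_num) h5 2
    have h8 : 0 ≤ ‖ev (Pw P) (circleMap 0 ρ θ)‖ ^ 2 := by positivity
    nlinarith
  have hc1 : Continuous fun θ : ℝ => ‖ev (Pw P) (circleMap 0 ρ θ)‖ ^ 2 :=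
    (ev_cont hP h0.le h1).norm.pow 2
  have hc2 : Continuous fun θ : ℝ => 16 * ‖ev ((q : PowerSeries ℂ) * Pw P) (circleMap 0 ρ θ)‖ ^ 2 :=
    continuous_const.mul ((ev_cont hF h0.le h1).norm.pow 2)
  have hi : ∀ {g : ℝ → ℝ}, Continuous g → IntegrableOn g (Set.Ioc 0 (2 * Real.pi)) := by
    intro g hg
    exact (hg.integrableOn_Icc (a := 0) (b := 2 * Real.pi)).mono_set Set.Ioc_subset_Icc_self
  have hI1 : ∫ θ in Set.Ioc 0 (2 * Real.pi) \ V, ‖ev (Pw P) (circleMap 0 ρ θ)‖ ^ 2 ≤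
      16 * (2 * Real.pi * ∑' n, ‖PowerSeries.coeff n ((q : PowerSeries ℂ) * Pw P)‖ ^ 2 *
        (ρ ^ 2) ^ n) := by
    calc ∫ θ in Set.Ioc 0 (2 * Real.pi) \ V, ‖ev (Pw P) (circleMap 0 ρ θ)‖ ^ 2
        ≤ ∫ θ in Set.Ioc 0 (2 * Real.pi) \ V,
            16 * ‖ev ((q : PowerSeries ℂ) * Pw P) (circleMap 0 ρ θ)‖ ^ 2 :=
          setIntegral_mono_on ((hi hc1).mono_set Set.sdiff_subset)
            ((hi hc2).mono_set Set.sdiff_subset) (measurableSet_Ioc.diff hVm) hpt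
      _ ≤ ∫ θ in Set.Ioc 0 (2 * Real.pi),
            16 * ‖ev ((q : PowerSeries ℂ) * Pw P) (circleMap 0 ρ θ)‖ ^ 2 :=
          setIntegral_mono_set (hi hc2) (Eventually.of_forall fun θ => by positivity)
            (Eventually.of_forall Set.sdiff_subset)
      _ = _ := by rw [integral_const_mul, mass_le hF h0.le h1]
  have hq0 : 0 ≤ ρ ^ 2 := by positivity
  have hq1 : ρ ^ 2 < 1 := by nlinarith
  have hsum := abel_le hq0 hq1 (parseval hF h0.le h1).summable hD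
  obtain ⟨S, hS⟩ : ∃ S : ℝ, S = ∑' n, ‖PowerSeries.coeff n ((q : PowerSeries ℂ) * Pw P)‖ ^ 2 *
    (ρ ^ 2) ^ n := ⟨_, rfl⟩
  rw [← hS] at hsum hI1
  have hS0 : 0 ≤ S := by rw [hS]; exact tsum_nonneg fun n => by positivity
  have hS1 : (1 - ρ) * S ≤ 3 * ε' := by
    have h2 : (1 - ρ) * (1 - ρ ^ 2)⁻¹ ≤ 1 := by
      rw [← div_eq_mul_inv, div_le_one (by linarith)]
      nlinarith
    have h3 : (1 - ρ) * S ≤ (1 - ρ) * (2 * ε' * (1 - ρ ^ 2)⁻¹ + D) :=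
      mul_le_mul_of_nonneg_left hsum (by linarith)
    have h4 : (1 - ρ) * (2 * ε' * (1 - ρ ^ 2)⁻¹ + D) =
        2 * ε' * ((1 - ρ) * (1 - ρ ^ 2)⁻¹) + (1 - ρ) * D := by ring
    have h5 : 2 * ε' * ((1 - ρ) * (1 - ρ ^ 2)⁻¹) ≤ 2 * ε' * 1 :=
      mul_le_mul_of_nonneg_left h2 (by positivity)
    linarith
  have hpi : 2 * Real.pi ≤ 7 := by
    have := Real.pi_lt_d2
    linarith
  calc (1 - ρ) * ∫ θ in Set.Ioc 0 (2 * Real.pi) \ V, ‖ev (Pw P) (circleMap 0 ρ θ)‖ ^ 2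
      ≤ (1 - ρ) * (16 * (2 * Real.pi * S)) := mul_le_mul_of_nonneg_left hI1 (by linarith)
    _ = 16 * ((2 * Real.pi) * ((1 - ρ) * S)) := by ring
    _ ≤ 16 * (7 * (3 * ε')) := by
        have h2 : 0 ≤ (1 - ρ) * S := mul_nonneg (by linarith) hS0
        have h3 : (2 * Real.pi) * ((1 - ρ) * S) ≤ 7 * (3 * ε') :=
          mul_le_mul hpi hS1 h2 (by norm_num)
        linarith
    _ ≤ ε := by rw [hε']; linarith

end Pool.Agent.H303R3.ET
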