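import Mathlib

set_option autoImplicit false

/-!
# Words of a finite-valued sequence with good predictors
-/

namespace Pool.Agent.H303R3.ET

/-- `x` is nice if the predictors are good along the window of length `L` starting at `x`. -/
def Nice (Good : ℕ → Set ℕ) (D n₀ L : ℕ) (x : ℕ) : Prop := ∀ n, n₀ ≤ n → n < L → x + n ∈ Good (n / D)

/-- Nice windows with the same beginning coincide. -/
theorem same {c : ℕ → ℕ} {Good : ℕ → Set ℕ} {D n₀ L : ℕ}
    (hdet : ∀ j y y', j * D ≤ y → j * D ≤ y' → y ∈ Good j → y' ∈ Good j →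
      (∀ i, 1 ≤ i → i ≤ j * D → c (y - i) = c (y' - i)) → c y = c y')
    {x x' : ℕ} (hx : Nice Good D n₀ L x) (hx' : Nice Good D n₀ L x')
    (h0 : ∀ s, s < n₀ → c (x + s) = c (x' + s)) : ∀ s, s < L → c (x + s) = c (x' + s) := by
  intro s
  induction s using Nat.strong_induction_on with
  | _ s ih =>
    intro hs
    rcases lt_or_ge s n₀ with h | h
    · exact h0 s h
    · have hD : s / D * D ≤ s := Nat.div_mul_le_self s D
      refine hdet (s / D) (x + s) (x' + s) (by omega) (by omega) (hx s h hs) (hx' s h hs) ?_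
      intro i hi1 hi2
      have e1 : x + s - i = x + (s - i) := by omega
      have e2 : x' + s - i = x' + (s - i) := by omega
      rw [e1, e2]
      exact ih (s - i) (by omega) (by omega)

/-- Iterating a local period. -/
theorem iter {c : ℕ → ℕ} {a b p : ℕ} (h : ∀ y, a ≤ y → y < b → c y = c (y + p)) :
    ∀ e y : ℕ, a ≤ y → y + e * p < b + p → c y = c (y + e * p) := by
  intro e
  induction e with
  | zero => intro y _ _; simp
  | succ e ih =>
    intro y hy hb
    have e1 : y + (e + 1) * p = (y + e * p) + p := by ring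
    rw [e1] at hb ⊢
    have h1 := ih y hy (by omega)
    rw [h1]
    exact h _ (by omega) (by omega)

/-- Many nice points force a period. -/
theorem periodic {c : ℕ → ℕ} {K : ℕ} (hc : ∀ n, c n ≤ K) {Good : ℕ → Set ℕ} {D n₀ : ℕ}
    (hdet : ∀ j y y', j * D ≤ y → j * D ≤ y' → y ∈ Good j → y' ∈ Good j →
      (∀ i, 1 ≤ i → i ≤ j * D → c (y - i) = c (y' - i)) → c y = c y')
    {M Q m L : ℕ} (hQ : Q = M.factorial) (hL : L = M + m * Q + 1) {x : ℕ}
    (hx : ∃ S : Finset ℕ, S ⊆ Finset.range M ∧ (K + 1) ^ n₀ < S.card ∧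
      ∀ i ∈ S, Nice Good D n₀ L (x + i)) :
    ∀ t, t ≤ m → c (x + M + m * Q) = c (x + M + m * Q - t * Q) := by
  classical
  obtain ⟨S, hS1, hS2, hS3⟩ := hx
  -- pigeonhole
  have hcard : (Finset.univ : Finset (Fin n₀ → Fin (K + 1))).card < S.card := by
    rw [Finset.card_univ, Fintype.card_fun, Fintype.card_fin, Fintype.card_fin]
    exact hS2
  obtain ⟨i, hi, i', hi', hne, heq⟩ := Finset.exists_ne_map_eq_of_card_lt_of_maps_to hcard
    (f := fun i => fun s : Fin n₀ => (⟨c (x + i + s), Nat.lt_succ_of_le (hc _)⟩ : Fin (K + 1)))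
    (fun _ _ => Finset.mem_coe.2 (Finset.mem_univ _))
  -- order them
  obtain ⟨i, i', hi, hi', hlt, heq⟩ : ∃ i i', i ∈ S ∧ i' ∈ S ∧ i < i' ∧
      ∀ s, s < n₀ → c (x + i + s) = c (x + i' + s) := by
    rcases lt_or_gt_of_ne hne with h | h
    · refine ⟨i, i', hi, hi', h, fun s hs => ?_⟩
      have := congrFun heq ⟨s, hs⟩
      simpa using this
    · refine ⟨i', i, hi', hi, h, fun s hs => ?_⟩
      have := congrFun heq ⟨s, hs⟩
      simpa using this.symm
  have hiM : i < M := Finset.mem_range.1 (hS1 hi)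
  have hiM' : i' < M := Finset.mem_range.1 (hS1 hi')
  have h1 := same hdet (hS3 i hi) (hS3 i' hi') heq
  obtain ⟨p, hp⟩ : ∃ p, i' = i + p := ⟨i' - i, by omega⟩
  have hp0 : 0 < p := by omega
  have hpM : p ≤ M := by omega
  have h2 : ∀ y, x + i ≤ y → y < x + i + L → c y = c (y + p) := by
    intro y hy1 hy2
    have h3 := h1 (y - (x + i)) (by omega)
    have e1 : x + i + (y - (x + i)) = y := by omega
    have e2 : x + i' + (y - (x + i)) = y + p := by omega
    rw [e1, e2] at h3
    exact h3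
  have hdvd : p ∣ Q := by rw [hQ]; exact Nat.dvd_factorial hp0 hpM
  obtain ⟨e, he⟩ := hdvd
  intro t ht
  have htQ : t * Q ≤ m * Q := Nat.mul_le_mul_right Q ht
  have h4 := iter h2 (t * e) (x + M + m * Q - t * Q) (by omega) (by
    have e1 : t * e * p = t * Q := by rw [he]; ring
    rw [e1]
    omega)
  have e1 : x + M + m * Q - t * Q + t * e * p = x + M + m * Q := by
    have e2 : t * e * p = t * Q := by rw [he]; ring
    rw [e2]
    omega
  rw [e1] at h4
  exact h4.symm

end Pool.Agent.H303R3.ET
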